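import Pool.Agent.EGB.Fin
import Pool.Agent.EGS.Num

set_option autoImplicit false
open MvPolynomial hiding R

/-!
# Project EGB: linkage
-/

namespace Pool.Agent.EGN.B

open Pool.Agent.EGU Pool.Agent.EGS Pool.Agent.EGS.NU_ TAB_

universe u

noncomputable section

/-- The linked system of quadrics: `W = ((f) : I)_2`. -/
theorem dual (K : Type u) [Field K] (n : ℕ) (hn : 3 ≤ n)
    (I : Ideal (MvPolynomial (Fin n) K)) (f : Fin n → MvPolynomial (Fin n) K)
    (hhom : ∀ i, (f i).IsHomogeneous 2) (hfI : ∀ i, f i ∈ I)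
    (hreg : RingTheory.Sequence.IsRegular (MvPolynomial (Fin n) K) (List.ofFn f)) :
    ∃ W : Submodule K (R K n), Sys K n W ∧ hh W + HF I (n - 2) = n.choose 2 ∧
      n.choose 3 ≤ tt W + HF I (n - 3) := by
  have hf : CI f (tw n) := t_reg K n f (tw n) (fun _ => by norm_num [tw]) hhom hreg
  have hm : Monotone (tw n) := fun _ _ _ => le_refl _
  have hJI : J f ≤ I := Ideal.span_le.mpr (by rintro _ ⟨i, rfl⟩; exact hfI i)
  set U2 : Submodule K (R K n) := Rd K n (n - 2) ⊓ Submodule.restrictScalars K I with hU2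
  set U3 : Submodule K (R K n) := Rd K n (n - 3) ⊓ Submodule.restrictScalars K I with hU3
  have hJ2 : Jd f (n - 2) ≤ U2 := fun p hp => ⟨hp.1, hJI hp.2⟩
  have hJ3 : Jd f (n - 3) ≤ U3 := fun p hp => ⟨hp.1, hJI hp.2⟩
  have p2 := a_perf K n f (tw n) hf hm (n - 2) 2 (by rw [S_all]; omega) U2 hJ2 inf_le_left
  have p3 := a_perf K n f (tw n) hf hm (n - 3) 3 (by rw [S_all]; omega) U3 hJ3 inf_le_left
  have c2' := a_hf K n f (tw n) hf 2
  have c3' := a_hf K n f (tw n) hf 3
  rw [card_std] at c2' c3'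
  have o2 := (t_upl K n n f (tw n) hf.hom (n - 2) U2 inf_le_left).2.2.2.2.2.2.1 2
  have o3 := (t_upl K n n f (tw n) hf.hom (n - 3) U3 inf_le_left).2.2.2.2.2.2.1 3
  have e2 : HF I (n - 2) = Module.finrank K (Rd K n (n - 2)) - Module.finrank K U2 :=
    HF_eq I (n - 2)
  have e3 : HF I (n - 3) = Module.finrank K (Rd K n (n - 3)) - Module.finrank K U3 :=
    HF_eq I (n - 3)
  have fR : ∀ d, Module.Finite K (Rd K n d) := fun d => (t_dimr K n d).1
  have l2 : Module.finrank K U2 ≤ Module.finrank K (Rd K n (n - 2)) := by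
    have := fR (n - 2)
    exact Submodule.finrank_mono inf_le_left
  have l3 : Module.finrank K U3 ≤ Module.finrank K (Rd K n (n - 3)) := by
    have := fR (n - 3)
    exact Submodule.finrank_mono inf_le_left
  have lW : Module.finrank K (orth f 2 U2) ≤ Module.finrank K (Rd K n 2) := by
    have := fR 2
    exact Submodule.finrank_mono o2.2
  have hle : Rd K n 1 * orth f 2 U2 ≤ orth f 3 U3 := by
    rw [Submodule.mul_le]
    rintro l hl h ⟨hh, hh'⟩
    refine ⟨?_, fun w hw => ?_⟩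
    · have h1 : (l * h).IsHomogeneous (1 + 2) := MvPolynomial.IsHomogeneous.mul hl hh
      exact h1
    · have h1 : l * w ∈ U2 := by
        refine ⟨?_, I.mul_mem_left l hw.2⟩
        have h2 : (l * w).IsHomogeneous (1 + (n - 3)) := MvPolynomial.IsHomogeneous.mul hl hw.1
        have h3 : 1 + (n - 3) = n - 2 := by omega
        rw [h3] at h2
        exact h2
      have h2 := hh' _ h1
      have h3 : l * h * w = h * (l * w) := by ring
      rw [h3]
      exact h2
  have lT : Module.finrank K ↥(Rd K n 1 * orth f 2 U2) ≤ Module.finrank K (orth f 3 U3) := by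
    have := fR 3
    have : Module.Finite K (orth f 3 U3) := Submodule.finiteDimensional_of_le o3.2
    exact Submodule.finrank_mono hle
  refine ⟨orth f 2 U2, ⟨f, hf, o2.1, o2.2⟩, ?_, ?_⟩
  · unfold hh
    rw [e2]
    omega
  · unfold tt
    rw [e3]
    omega

/-- The theorem for systems, at the binomials. -/
theorem sysbin (hE : T_XEX) (h2 : T_XC2) (h1 : T_XC1) (h0 : T_XC0) (hI : T_IN2.{u})
    (hJ : T_IN3.{u}) (hB : T_BCH.{u}) (K : Type u) [Field K] (n : ℕ) (W : Submodule K (R K n))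
    (hW : Sys K n W) (m : ℕ) (h : hh W ≤ m.choose 2) : tt W ≤ m.choose 3 := by
  have hb := bnd hE h2 h1 h0 hI hJ hB K n W hW
  have h6 := (hE tt0.T tbl).2.2 h
  have h7 := F2_bin hE m
  have h9 : 8 * (tt W : ℤ) ≤ 8 * (m.choose 3 : ℤ) := by linarith
  omega

/-- The theorem for ideals in the complementary degrees. -/
theorem fin_dual (hs : ∀ (K : Type u) [Field K] (n : ℕ) (W : Submodule K (R K n)), Sys K n W →
      (∀ m : ℕ, hh W ≤ m.choose 2 → tt W ≤ m.choose 3) ∧ 3 * tt W + 2 * hh W ≤ n * hh W)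
    (K : Type u) [Field K] (n : ℕ) (hn : 3 ≤ n)
    (I : Ideal (MvPolynomial (Fin n) K)) (f : Fin n → MvPolynomial (Fin n) K)
    (hhom : ∀ i, (f i).IsHomogeneous 2) (hfI : ∀ i, f i ∈ I)
    (hreg : RingTheory.Sequence.IsRegular (MvPolynomial (Fin n) K) (List.ofFn f)) :
    (∀ m : ℕ, n.choose 2 ≤ HF I (n - 2) + m.choose 2 → n.choose 3 ≤ HF I (n - 3) + m.choose 3) ∧
    n * HF I (n - 2) ≤ 3 * HF I (n - 3) + 2 * HF I (n - 2) := by
  obtain ⟨W, hW, e1, e2⟩ := dual K n hn I f hhom hfI hreg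
  obtain ⟨s1, s2⟩ := hs K n W hW
  refine ⟨fun m hm => ?_, ?_⟩
  · have := s1 m (by omega)
    omega
  · have h3 : 3 * n.choose 3 + 2 * n.choose 2 = n * n.choose 2 := by
      have h4 := Nat.choose_succ_right_eq n 2
      obtain ⟨k, rfl⟩ : ∃ k, n = k + 2 := ⟨n - 2, by omega⟩
      have h5 : k + 2 - 2 = k := by omega
      rw [h5] at h4
      have h6 : (k + 2).choose (2 + 1) = (k + 2).choose 3 := rfl
      rw [h6] at h4
      linarith
    have e1' : n * hh W + n * HF I (n - 2) = n * n.choose 2 := by rw [← e1]; ring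
    omega

end

end Pool.Agent.EGN.B
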