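import Pool.Agent.EGB.TabDefs

set_option autoImplicit false

/-!
# Project EGB: evaluation of the tables, third part
-/

namespace Pool.Agent.EGN.B.TAB_

/-- The constant: `0` for `m ≥ 50`, `85` for `m < 50`. -/
def cst (m : ℕ) : ℕ := bif Nat.ble 50 m then 0 else 85

/-- The blocks up to `61`. -/
def chkC (m r : ℕ) : Bool :=
  Nat.ble (8 * lk nT (c2 m - r) + r * (4 * m + 2)) (8 * c3 m + r * r + cst m) &&
  Nat.ble (8 * lk nT (c2 m - r) + 6 * m * r + 5)
    (8 * c3 m + m * m + r * r + 4 * m + 4 * r + cst m)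

theorem kC : allB 60 (fun k => allB (k + 2) (fun r => chkC (k + 2) r)) = true := by
  decide +kernel

end Pool.Agent.EGN.B.TAB_
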