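import Pool.Agent.EGB.P_TAB
import Pool.Agent.EGB.TabChk3

set_option autoImplicit false
open MvPolynomial hiding R

/-!
# Project EGB: assembly
-/

namespace Pool.Agent.EGN.B

open Pool.Agent.EGU Pool.Agent.EGS TAB_

universe u

noncomputable section

/-- The bound for all systems over any field. -/
theorem bnd (hE : T_XEX) (h2 : T_XC2) (h1 : T_XC1) (h0 : T_XC0) (hI : T_IN2.{u}) (hJ : T_IN3.{u})
    (hB : T_BCH.{u}) (K : Type u) [Field K] (n : ℕ) (W : Submodule K (R K n)) (hW : Sys K n W) :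
    8 * (tt W : ℤ) ≤ F2 tt0.T (hh W) := by
  obtain ⟨W', hW', e1, e2⟩ := hB K (AlgebraicClosure K) n W hW
  have : Infinite (AlgebraicClosure K) := IsAlgClosed.instInfinite
  have h := hJ (F2 tt0.T) 1830 (by unfold F2; rw [if_pos (by omega)]; positivity)
    (hE tt0.T tbl).2.2 (h2 tt0.T tbl)
    (fun m h a1 _ a2 a3 _ => h1 tt0.T tbl m h a1 a2 a3)
    (fun m h a1 _ a2 a3 => h0 tt0.T tbl m h a1 a2 a3) (AlgebraicClosure K)
    (fun n W hW hle => by
      have h4 := hI tt0 1830 cl (AlgebraicClosure K) n W hW hle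
      unfold F2
      rw [if_pos hle]
      have h5 : (tt W : ℤ) ≤ (tt0.T (hh W) : ℤ) := by exact_mod_cast h4
      linarith) n W' hW'
  rwa [e1, e2] at h

/-- The values at the binomials. -/
theorem F2_bin (hE : T_XEX) (m : ℕ) : F2 tt0.T (m.choose 2) ≤ 8 * (m.choose 3 : ℤ) := by
  rcases Nat.lt_or_ge m 62 with hm | hm
  · have h1 : m.choose 2 ≤ 1830 := by
      have h2 : m.choose 2 ≤ (61 : ℕ).choose 2 := Nat.choose_le_choose 2 (by omega)
      have h3 : (61 : ℕ).choose 2 = 1830 := by decide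
      omega
    unfold F2
    rw [if_pos h1]
    have h4 := tbl.2.2 m (by omega)
    have h5 : (tt0.T (m.choose 2) : ℤ) ≤ (m.choose 3 : ℤ) := by exact_mod_cast h4
    linarith
  · have h1 := (hE tt0.T tbl).2.1 m 0 (by omega) (by omega)
    rw [Nat.sub_zero] at h1
    unfold Psi2 at h1
    have h2 := le_max_left (qA m ((0 : ℕ) : ℤ)) (qB m ((0 : ℕ) : ℤ))
    have h3 : qA m ((0 : ℕ) : ℤ) = 0 := by simp [qA]
    have h4 : 0 ≤ max (qA m ((0 : ℕ) : ℤ)) (qB m ((0 : ℕ) : ℤ)) := h3 ▸ h2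
    linarith

/-- The values between the binomials. -/
theorem F2_int (hE : T_XEX) (m r c : ℕ) (hm : 2 ≤ m) (hr : r + 1 ≤ m) (hc : 50 ≤ m ∨ 85 ≤ c) :
    F2 tt0.T (m.choose 2 - r) ≤ Psi2 m r + c := by
  rcases Nat.lt_or_ge m 62 with h62 | h62
  · have h1 : m.choose 2 ≤ 1830 := by
      have h2 : m.choose 2 ≤ (61 : ℕ).choose 2 := Nat.choose_le_choose 2 (by omega)
      have h3 : (61 : ℕ).choose 2 = 1830 := by decide
      omega
    have h4 : chkC m r = true := by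
      have h5 := allB_spec _ _ kC (m - 2) (by omega)
      have h6 : m - 2 + 2 = m := by omega
      rw [h6] at h5
      exact allB_spec _ _ h5 r (by omega)
    have hcst : cst m ≤ c := by
      unfold cst
      rcases Nat.lt_or_ge m 50 with h7 | h7
      · rw [bnot _ _ h7, cond_false]
        omega
      · rw [(ble_iff _ _).mpr h7, cond_true]
        omega
    unfold chkC at h4
    rw [Bool.and_eq_true, ble_iff, ble_iff] at h4
    obtain ⟨h5, h6⟩ := h4
    have e2 : m.choose 2 = c2 m := Nat.choose_two_right m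
    unfold F2
    rw [if_pos (by omega)]
    unfold Psi2
    rw [e2, c3_eq]
    change 8 * ((lk nT (c2 m - r) : ℕ) : ℤ) ≤ _
    have h5' : ((8 * lk nT (c2 m - r) + r * (4 * m + 2) : ℕ) : ℤ) ≤
        ((8 * c3 m + r * r + c : ℕ) : ℤ) := by
      have : 8 * lk nT (c2 m - r) + r * (4 * m + 2) ≤ 8 * c3 m + r * r + c := by omega
      exact_mod_cast this
    have h6' : ((8 * lk nT (c2 m - r) + 6 * m * r + 5 : ℕ) : ℤ) ≤
        ((8 * c3 m + m * m + r * r + 4 * m + 4 * r + c : ℕ) : ℤ) := by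
      have : 8 * lk nT (c2 m - r) + 6 * m * r + 5 ≤
          8 * c3 m + m * m + r * r + 4 * m + 4 * r + c := by omega
      exact_mod_cast this
    push_cast at h5' h6'
    have h7 : max (qA (m : ℤ) (r : ℤ)) (qB m r) ≤
        8 * (c3 m : ℤ) - 8 * ((lk nT (c2 m - r) : ℕ) : ℤ) + c := by
      apply max_le
      · unfold qA
        nlinarith
      · unfold qB
        nlinarith
    linarith
  · have h1 := (hE tt0.T tbl).2.1 m r (by omega) (by omega)
    have h2 : (0 : ℤ) ≤ (c : ℤ) := by positivity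
    linarith

/-- The theorem for ideals. -/
theorem fin (hE : T_XEX) (h2 : T_XC2) (h1 : T_XC1) (h0 : T_XC0) (hI : T_IN2.{u}) (hJ : T_IN3.{u})
    (hB : T_BCH.{u}) (hD : T_DEG.{u}) (K : Type u) [Field K] (n : ℕ)
    (I : Ideal (MvPolynomial (Fin n) K)) (f : Fin n → MvPolynomial (Fin n) K)
    (hhom : ∀ i, (f i).IsHomogeneous 2) (hfI : ∀ i, f i ∈ I)
    (hreg : RingTheory.Sequence.IsRegular (MvPolynomial (Fin n) K) (List.ofFn f)) :
    (∀ m : ℕ, HF I 2 ≤ m.choose 2 → HF I 3 ≤ m.choose 3) ∧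
    (∀ m r c : ℕ, 2 ≤ m → r + 1 ≤ m → (50 ≤ m ∨ 85 ≤ c) → HF I 2 + r ≤ m.choose 2 →
      8 * (HF I 3 : ℤ) + r * (4 * m - r + 2) ≤ 8 * m.choose 3 + c ∧
      8 * (HF I 3 : ℤ) + (-m ^ 2 + 6 * m * r - r ^ 2 - 4 * m - 4 * r + 5) ≤
        8 * m.choose 3 + c) := by
  obtain ⟨W, hW, e1, e2⟩ := hD K n I f hhom hfI hreg
  rw [← HF_eq] at e1 e2
  have hb := bnd hE h2 h1 h0 hI hJ hB K n W hW
  rw [e1] at hb
  have hmon := (hE tt0.T tbl).2.2
  have e2' : (HF I 3 : ℤ) ≤ (tt W : ℤ) := by exact_mod_cast e2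
  refine ⟨?_, ?_⟩
  · intro m h
    have h6 := hmon h
    have h7 := F2_bin hE m
    have h9 : 8 * (HF I 3 : ℤ) ≤ 8 * (m.choose 3 : ℤ) := by linarith
    omega
  · intro m r c hm hr hc h
    have h3 : HF I 2 ≤ m.choose 2 - r := by omega
    have h5 := hmon h3
    have h6 := F2_int hE m r c hm hr hc
    unfold Psi2 at h6
    have h7 := le_max_left (qA (m : ℤ) (r : ℤ)) (qB m r)
    have h8 := le_max_right (qA (m : ℤ) (r : ℤ)) (qB m r)
    have h9 : qA (m : ℤ) (r : ℤ) = r * (4 * m - r + 2) := rfl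
    have h10 : qB (m : ℤ) (r : ℤ) = -m ^ 2 + 6 * m * r - r ^ 2 - 4 * m - 4 * r + 5 := rfl
    rw [h9, h10] at h6 h7 h8
    constructor <;> linarith

end

end Pool.Agent.EGN.B
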