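import Pool.Agent.EGB.Targets

set_option autoImplicit false
open MvPolynomial hiding R

namespace Pool.Agent.EGN.B

universe u v w

noncomputable section

namespace ALG_

section General

variable {σ : Type v} {K : Type u} [Field K]

/-- `e0` is the leading exponent of `p`, of coefficient one, for the weight `W`. -/
def LT (W : (σ →₀ ℕ) →+ ℕ) (p : MvPolynomial σ K) (e0 : σ →₀ ℕ) : Prop :=
  coeff e0 p = 1 ∧ ∀ e, coeff e p ≠ 0 → e ≠ e0 → W e < W e0

/-- All exponents of `p` have weight less than `D`. -/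
def Sm (W : (σ →₀ ℕ) →+ ℕ) (p : MvPolynomial σ K) (D : ℕ) : Prop :=
  ∀ e, coeff e p ≠ 0 → W e < D

lemma Sm.add {W : (σ →₀ ℕ) →+ ℕ} {p q : MvPolynomial σ K} {D : ℕ} (hp : Sm W p D)
    (hq : Sm W q D) : Sm W (p + q) D := by
  intro e he
  rw [coeff_add] at he
  by_cases h : coeff e p = 0
  · rw [h, zero_add] at he
    exact hq e he
  · exact hp e h

lemma LT.add {W : (σ →₀ ℕ) →+ ℕ} {p q : MvPolynomial σ K} {e0 : σ →₀ ℕ} (hp : LT W p e0)
    (hq : Sm W q (W e0)) : LT W (p + q) e0 := by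
  constructor
  · rw [coeff_add, hp.1]
    by_cases h : coeff e0 q = 0
    · rw [h, add_zero]
    · exact absurd (hq e0 h) (lt_irrefl _)
  · intro e he hne
    rw [coeff_add] at he
    by_cases h : coeff e q = 0
    · rw [h, add_zero] at he
      exact hp.2 e he hne
    · exact hq e h

lemma LT.add' {W : (σ →₀ ℕ) →+ ℕ} {p q : MvPolynomial σ K} {e0 : σ →₀ ℕ} (hp : LT W p e0)
    (hq : Sm W q (W e0)) : LT W (q + p) e0 := by
  rw [add_comm]
  exact hp.add hq

lemma LT.le {W : (σ →₀ ℕ) →+ ℕ} {p : MvPolynomial σ K} {e0 : σ →₀ ℕ} (hp : LT W p e0)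
    {e : σ →₀ ℕ} (he : coeff e p ≠ 0) : W e ≤ W e0 := by
  by_cases h : e = e0
  · rw [h]
  · exact (hp.2 e he h).le

lemma LT.mul {W : (σ →₀ ℕ) →+ ℕ} {p q : MvPolynomial σ K} {e0 f0 : σ →₀ ℕ} (hp : LT W p e0)
    (hq : LT W q f0) : LT W (p * q) (e0 + f0) := by
  classical
  constructor
  · rw [coeff_mul, Finset.sum_eq_single (e0, f0)]
    · rw [hp.1, hq.1, one_mul]
    · rintro ⟨a, b⟩ hab hne
      rw [Finset.HasAntidiagonal.mem_antidiagonal] at hab
      by_contra h
      have ha : coeff a p ≠ 0 := fun h' => h (by simp [h'])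
      have hb : coeff b q ≠ 0 := fun h' => h (by simp [h'])
      have hW : W a + W b = W e0 + W f0 := by
        rw [← map_add, ← map_add]; exact congrArg W hab
      have h1 := hp.le ha
      have h2 := hq.le hb
      by_cases h3 : a = e0
      · by_cases h4 : b = f0
        · exact hne (by rw [h3, h4])
        · have := hq.2 b hb h4
          omega
      · have := hp.2 a ha h3
        omega
    · intro h
      rw [Finset.HasAntidiagonal.mem_antidiagonal] at h
      exact absurd rfl h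
  · intro e he hne
    rw [coeff_mul] at he
    obtain ⟨⟨a, b⟩, hab, h⟩ := Finset.exists_ne_zero_of_sum_ne_zero he
    rw [Finset.HasAntidiagonal.mem_antidiagonal] at hab
    have ha : coeff a p ≠ 0 := fun h' => h (by simp [h'])
    have hb : coeff b q ≠ 0 := fun h' => h (by simp [h'])
    have hW : W e = W a + W b := by
      rw [← map_add]; exact congrArg W hab.symm
    have h1 := hp.le ha
    have h2 := hq.le hb
    rw [map_add]
    by_cases h3 : a = e0
    · by_cases h4 : b = f0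
      · exact absurd (by rw [← hab, h3, h4]) hne
      · have := hq.2 b hb h4
        omega
    · have := hp.2 a ha h3
      omega

lemma LT.one {W : (σ →₀ ℕ) →+ ℕ} : LT W (1 : MvPolynomial σ K) 0 := by
  classical
  constructor
  · simp
  · intro e he hne
    rw [coeff_one] at he
    exact absurd (by simpa using he) (Ne.symm hne)

lemma LT.pow {W : (σ →₀ ℕ) →+ ℕ} {p : MvPolynomial σ K} {e0 : σ →₀ ℕ} (hp : LT W p e0)
    (k : ℕ) : LT W (p ^ k) (k • e0) := by
  induction k with
  | zero => simpa using LT.one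
  | succ k ih =>
    rw [pow_succ, succ_nsmul]
    exact ih.mul hp

lemma LT.prod {W : (σ →₀ ℕ) →+ ℕ} {ι : Type w} {Q : ι → MvPolynomial σ K} {E : ι → σ →₀ ℕ}
    (hT : ∀ s, LT W (Q s) (E s)) (β : ι → ℕ) (A : Finset ι) :
    LT W (∏ s ∈ A, Q s ^ β s) (∑ s ∈ A, β s • E s) := by
  classical
  induction A using Finset.induction_on with
  | empty => simpa using LT.one
  | insert a A ha ih =>
    rw [Finset.prod_insert ha, Finset.sum_insert ha]
    exact ((hT a).pow _).mul ih

lemma LT.XX (W : (σ →₀ ℕ) →+ ℕ) (a b : σ) :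
    LT W (X a * X b : MvPolynomial σ K) (Finsupp.single a 1 + Finsupp.single b 1) := by
  classical
  have hX : ∀ a : σ, LT W (X a : MvPolynomial σ K) (Finsupp.single a 1) := by
    intro a
    constructor
    · simp
    · intro e he hne
      rw [coeff_X] at he
      exact absurd (by simpa using he) (Ne.symm hne)
  exact (hX a).mul (hX b)

lemma Sm.XX {W : (σ →₀ ℕ) →+ ℕ} {a b : σ} {D : ℕ}
    (h : W (Finsupp.single a 1) + W (Finsupp.single b 1) < D) :
    Sm W (X a * X b : MvPolynomial σ K) D := by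
  intro e he
  have := (LT.XX (K := K) W a b).le he
  rw [map_add] at this
  omega

theorem main {W : (σ →₀ ℕ) →+ ℕ} {ι : Type w} {Q : ι → MvPolynomial σ K} {E : ι → σ →₀ ℕ}
    (hT : ∀ s, LT W (Q s) (E s))
    (hinj : ∀ α β : ι →₀ ℕ, (∑ s ∈ α.support, α s • E s) = (∑ s ∈ β.support, β s • E s) →
      α = β) : AlgebraicIndependent K Q := by
  classical
  rw [algebraicIndependent_iff]
  intro f hf
  by_contra hne
  obtain ⟨α, hα, hmax⟩ := f.support.exists_max_image
    (fun β => W (∑ s ∈ β.support, β s • E s)) (Finset.nonempty_of_ne_empty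
      (fun h => hne (support_eq_empty.1 h)))
  have h0 := congrArg (coeff (∑ s ∈ α.support, α s • E s)) hf
  rw [aeval_def, eval₂_eq, coeff_sum, coeff_zero, Finset.sum_eq_single α] at h0
  · rw [algebraMap_eq, coeff_C_mul, (LT.prod hT α α.support).1, mul_one] at h0
    exact (mem_support_iff.1 hα) h0
  · intro β hβ hne'
    rw [algebraMap_eq, coeff_C_mul]
    by_contra h
    have h1 : coeff (∑ s ∈ α.support, α s • E s) (∏ s ∈ β.support, Q s ^ β s) ≠ 0 :=
      fun h' => h (by rw [h', mul_zero])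
    have h2 := (LT.prod hT β β.support).2 _ h1 (fun h' => hne' (hinj α β h').symm)
    have h3 := hmax β hβ
    omega
  · intro h
    exact absurd hα h

end General

/-- The first variable of the leading monomial. -/
def uu {n : ℕ} (i j : Fin n) : Fin 4 × Fin n :=
  if (i : ℕ) = 0 then (0, i) else if (i : ℕ) = 1 then (0, j) else if (i : ℕ) = 2 then (2, i)
  else (2, j)

/-- The other variable of the leading monomial. -/
def vv {n : ℕ} (i j : Fin n) : Fin 4 × Fin n :=
  if (i : ℕ) = 0 then (1, j) else if (i : ℕ) = 1 then (1, i) else if (i : ℕ) = 2 then (3, j)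
  else (3, i)

/-- The weights. -/
def wn (r k : ℕ) : ℕ :=
  if (r = 0 ∧ k = 0) ∨ (r = 1 ∧ k = 1) then 2
  else if (r = 2 ∧ k = 2) ∨ (r = 3 ∧ k = 3) then 1 else 0

/-- The dual functionals. -/
def cc (i j r k : ℕ) : ℤ :=
  if i = 0 then (if j = 1 then (if r = 0 ∧ k = 0 then 1 else if r = 1 ∧ k ≠ 1 then -1 else 0)
    else if r = 1 ∧ k = j then 1 else 0)
  else if i = 1 then (if r = 0 ∧ k = j then 1 else 0)
  else if i = 2 then (if j = 3 then (if r = 2 ∧ k = 2 then 1 else if r = 3 ∧ k ≠ 3 then -1 else 0)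
    else if r = 3 ∧ k = j then 1 else 0)
  else (if r = 2 ∧ k = j then 1 else 0)

lemma cc_nat (i j a b : ℕ) (h : i ≤ j) (h4 : i < 4) (h' : a ≤ b) (h4' : a < 4) :
    cc i j (if a = 0 then 0 else if a = 1 then 0 else 2)
      (if a = 0 then a else if a = 1 then b else if a = 2 then a else b) +
    cc i j (if a = 0 then 1 else if a = 1 then 1 else 3)
      (if a = 0 then b else if a = 1 then a else if a = 2 then b else a) =
      if i = a ∧ j = b then 1 else 0 := by
  unfold cc
  interval_cases i <;> interval_cases a <;> simp <;> omega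

lemma uu1 {n : ℕ} (i j : Fin n) : (((uu i j).1 : Fin 4) : ℕ) =
    if (i : ℕ) = 0 then 0 else if (i : ℕ) = 1 then 0 else 2 := by
  unfold uu; split_ifs <;> rfl

lemma uu2 {n : ℕ} (i j : Fin n) : (((uu i j).2 : Fin n) : ℕ) =
    if (i : ℕ) = 0 then (i : ℕ) else if (i : ℕ) = 1 then (j : ℕ) else
      if (i : ℕ) = 2 then (i : ℕ) else (j : ℕ) := by
  unfold uu; split_ifs <;> rfl

lemma vv1 {n : ℕ} (i j : Fin n) : (((vv i j).1 : Fin 4) : ℕ) =
    if (i : ℕ) = 0 then 1 else if (i : ℕ) = 1 then 1 else 3 := by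
  unfold vv; split_ifs <;> rfl

lemma vv2 {n : ℕ} (i j : Fin n) : (((vv i j).2 : Fin n) : ℕ) =
    if (i : ℕ) = 0 then (j : ℕ) else if (i : ℕ) = 1 then (i : ℕ) else
      if (i : ℕ) = 2 then (j : ℕ) else (i : ℕ) := by
  unfold vv; split_ifs <;> rfl

lemma cc_dual {n : ℕ} (i j i' j' : Fin n) (h : i ≤ j) (h4 : (i : ℕ) < 4)
    (h' : i' ≤ j') (h4' : (i' : ℕ) < 4) :
    cc i j (uu i' j').1 (uu i' j').2 + cc i j (vv i' j').1 (vv i' j').2 =
      if (i, j) = (i', j') then 1 else 0 := by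
  rw [uu1, uu2, vv1, vv2, cc_nat i j i' j' h h4 h' h4']
  simp only [Prod.mk.injEq, Fin.ext_iff]

/-- The weight. -/
def W (n : ℕ) : (Fin 4 × Fin n →₀ ℕ) →+ ℕ :=
  Finsupp.liftAddHom fun x => AddMonoidHom.mulRight (wn (x.1 : ℕ) (x.2 : ℕ))

lemma W_single {n : ℕ} (x : Fin 4 × Fin n) : W n (Finsupp.single x 1) = wn x.1 x.2 := by
  unfold W
  simp

/-- The dual functionals on exponents. -/
def L {n : ℕ} (i j : Fin n) : (Fin 4 × Fin n →₀ ℕ) →+ ℤ :=
  Finsupp.liftAddHom fun x =>
    (AddMonoidHom.mulRight (cc i j (x.1 : ℕ) (x.2 : ℕ))).comp (Nat.castAddMonoidHom ℤ)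

lemma L_single {n : ℕ} (i j : Fin n) (x : Fin 4 × Fin n) :
    L i j (Finsupp.single x 1) = cc i j x.1 x.2 := by
  unfold L
  simp

/-- The index set. -/
abbrev Ix (n : ℕ) := {p : Fin n × Fin n // p.1 ≤ p.2 ∧ (p.1 : ℕ) < 4}

/-- The leading exponents. -/
def EE {n : ℕ} (p : Ix n) : Fin 4 × Fin n →₀ ℕ :=
  Finsupp.single (uu p.1.1 p.1.2) 1 + Finsupp.single (vv p.1.1 p.1.2) 1

lemma L_EE {n : ℕ} (p q : Ix n) : L p.1.1 p.1.2 (EE q) = if p = q then 1 else 0 := by
  unfold EE
  rw [map_add, L_single, L_single, cc_dual _ _ _ _ p.2.1 p.2.2 q.2.1 q.2.2]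
  simp only [Prod.mk.eta, Subtype.ext_iff]

lemma inj {n : ℕ} (α β : Ix n →₀ ℕ)
    (h : (∑ s ∈ α.support, α s • EE s) = (∑ s ∈ β.support, β s • EE s)) : α = β := by
  classical
  have key : ∀ (γ : Ix n →₀ ℕ) (p : Ix n),
      L p.1.1 p.1.2 (∑ s ∈ γ.support, γ s • EE s) = (γ p : ℤ) := by
    intro γ p
    rw [map_sum]
    simp only [map_nsmul, L_EE]
    simp only [smul_ite, nsmul_eq_mul, mul_one, smul_zero]
    rw [Finset.sum_ite_eq]
    split_ifs with hp
    · rfl
    · rw [Finsupp.notMem_support_iff.1 hp]; rfl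
  ext p
  have := key α p
  rw [h, key β p] at this
  exact_mod_cast this.symm

lemma lead {K : Type u} [Field K] {n : ℕ} (p : Ix n) :
    LT (W n) (cfq (fun i => (X (0, i) : MvPolynomial (Fin 4 × Fin n) K)) (fun i => X (1, i))
      (fun i => X (2, i)) (fun i => X (3, i)) p.1.1 p.1.2) (EE p) := by
  obtain ⟨⟨i, j⟩, h, h4⟩ := p
  simp only at h h4
  have hij : (i : ℕ) ≤ j := h
  unfold cfq
  simp only
  unfold EE
  simp only
  have WW : ∀ a b c d : Fin 4 × Fin n, wn a.1 a.2 + wn b.1 b.2 < wn c.1 c.2 + wn d.1 d.2 →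
      Sm (W n) (X a * X b : MvPolynomial (Fin 4 × Fin n) K)
        (W n (Finsupp.single c 1 + Finsupp.single d 1)) := by
    intro a b c d hh
    apply Sm.XX
    rw [map_add, W_single, W_single, W_single, W_single]
    exact hh
  have cases : (i : ℕ) = 0 ∨ (i : ℕ) = 1 ∨ (i : ℕ) = 2 ∨ (i : ℕ) = 3 := by omega
  by_cases e : i = j
  · subst e
    rw [if_pos rfl]
    rcases cases with hi | hi | hi | hi
    · simp only [uu, vv, hi, if_true]
      refine (LT.XX _ _ _).add (WW _ _ _ _ ?_)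
      simp [wn, hi]
    · simp only [uu, vv, hi, if_true, one_ne_zero, if_false]
      refine (LT.XX _ _ _).add (WW _ _ _ _ ?_)
      simp [wn, hi]
    · simp only [uu, vv, hi, if_true, if_false, OfNat.ofNat_ne_zero, OfNat.ofNat_ne_one]
      refine (LT.XX _ _ _).add' (WW _ _ _ _ ?_)
      simp [wn, hi]
    · have h32 : ¬ (3 = 2) := by decide
      simp only [uu, vv, hi, if_false, OfNat.ofNat_ne_zero, OfNat.ofNat_ne_one, h32]
      refine (LT.XX _ _ _).add' (WW _ _ _ _ ?_)
      simp [wn, hi]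
  · have hlt : (i : ℕ) < j := lt_of_le_of_ne hij (fun h => e (Fin.ext h))
    rw [if_neg e]
    rcases cases with hi | hi | hi | hi
    · simp only [uu, vv, hi, if_true]
      refine ((LT.XX _ _ _).add (WW _ _ _ _ ?_)).add ((WW _ _ _ _ ?_).add (WW _ _ _ _ ?_))
      · simp [wn, hi]; split_ifs <;> omega
      · simp [wn, hi]; split_ifs <;> omega
      · simp [wn, hi]; split_ifs <;> omega
    · simp only [uu, vv, hi, if_true, one_ne_zero, if_false]
      refine ((LT.XX _ _ _).add' (WW _ _ _ _ ?_)).add ((WW _ _ _ _ ?_).add (WW _ _ _ _ ?_))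
      · simp [wn, hi]; split_ifs <;> omega
      · simp [wn, hi]; split_ifs <;> omega
      · simp [wn, hi]; split_ifs <;> omega
    · simp only [uu, vv, hi, if_true, if_false, OfNat.ofNat_ne_zero, OfNat.ofNat_ne_one]
      refine ((LT.XX _ _ _).add (WW _ _ _ _ ?_)).add' ((WW _ _ _ _ ?_).add (WW _ _ _ _ ?_))
      · simp [wn, hi]; split_ifs <;> omega
      · simp [wn, hi]; split_ifs <;> omega
      · simp [wn, hi]; split_ifs <;> omega
    · have h32 : ¬ (3 = 2) := by decide
      simp only [uu, vv, hi, if_false, OfNat.ofNat_ne_zero, OfNat.ofNat_ne_one, h32]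
      refine ((LT.XX _ _ _).add' (WW _ _ _ _ ?_)).add' ((WW _ _ _ _ ?_).add (WW _ _ _ _ ?_))
      · simp [wn, hi]; split_ifs <;> omega
      · simp [wn, hi]; split_ifs <;> omega
      · simp [wn, hi]; split_ifs <;> omega

end ALG_

theorem p_ALG : T_ALG.{u} := by
  intro K _ n _
  exact ALG_.main ALG_.lead ALG_.inj

end

end Pool.Agent.EGN.B
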