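import Pool.Agent.EGB.Targets

set_option autoImplicit false
open MvPolynomial hiding R

/-!
# CST: the cost of a linear form
-/

namespace Pool.Agent.EGN.B

open Pool.Agent.EGU Pool.Agent.EGS

universe u

noncomputable section

namespace CST_

lemma card_pairs (k : ℕ) :
    Fintype.card {p : Fin k × Fin k // p.1 < p.2} = k.choose 2 := by
  have h1 : ∀ i : Fin k, (Finset.univ.filter fun j : Fin k => i < j).card = k - 1 - (i : ℕ) := by
    intro i
    have h2 : (Finset.univ.filter fun j : Fin k => i < j) = Finset.Ioi i := by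
      ext j
      simp
    rw [h2, Fin.card_Ioi]
  rw [Fintype.card_subtype, Finset.card_filter, Fintype.sum_prod_type]
  have h3 : ∀ i : Fin k, (∑ j : Fin k, if i < j then 1 else 0) = k - 1 - (i : ℕ) := by
    intro i
    rw [← h1 i, Finset.card_filter]
  rw [Finset.sum_congr rfl fun i _ => h3 i,
    Fin.sum_univ_eq_sum_range (fun i => k - 1 - i) k, Finset.sum_range_reflect (fun i => i) k,
    Finset.sum_range_id, Nat.choose_two_right]

end CST_

open CST_ STP_ in
theorem p_CST (h1 : T_MIN.{u}) (h2 : T_IMG.{u}) : T_CST.{u} := by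
  intro K _ _ n u W hW hN l hl x hx hlx U hU hdim hex
  have hWR : W ≤ Rd K n 2 := by
    obtain ⟨f, -, -, h⟩ := hW
    exact h
  have fU : Module.Finite K U := fin_le hU
  let b : Module.Basis (Fin (u + 1)) K U := Module.finBasisOfFinrankEq K U hdim
  let y : Fin (u + 1) → R K n := fun i => (b i : R K n)
  have hyU : ∀ i, y i ∈ U := fun i => (b i).2
  have hy1 : ∀ i, y i ∈ Rd K n 1 := fun i => hU (hyU i)
  have hyli : LinearIndependent K y :=
    b.linearIndependent.map' U.subtype (Submodule.ker_subtype U)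
  choose z hz1 hzW using fun i => hex (y i) (hyU i)
  have hcond : ∀ (c : Fin (u + 1) → K) (μ : K),
      ∑ i, c i • z i = μ • ∑ i, c i • y i → c = 0 := by
    intro c μ h
    have e1 : (x - μ • l) * (∑ i, c i • y i) = ∑ i, c i • (x * y i - l * z i) := by
      have e2 : ∑ i, c i • (x * y i - l * z i) =
          x * (∑ i, c i • y i) - l * (∑ i, c i • z i) := by
        rw [Finset.mul_sum, Finset.mul_sum, ← Finset.sum_sub_distrib]
        refine Finset.sum_congr rfl fun i _ => ?_
        rw [smul_sub, mul_smul_comm, mul_smul_comm]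
      rw [e2, h, sub_mul, mul_smul_comm, smul_mul_assoc]
    have e3 : (x - μ • l) * (∑ i, c i • y i) ∈ W := by
      rw [e1]
      exact Submodule.sum_mem _ fun i _ => Submodule.smul_mem _ _ (hzW i)
    have e4 : x - μ • l ∈ Rd K n 1 := Submodule.sub_mem _ hx (Submodule.smul_mem _ _ hl)
    have e5 : (∑ i, c i • y i) ∈ Rd K n 1 :=
      Submodule.sum_mem _ fun i _ => Submodule.smul_mem _ _ (hy1 i)
    rcases hN _ e4 _ e5 e3 with h3 | h3
    · exfalso
      have h4 := LinearIndependent.pair_iff.1 hlx (-μ) 1 (by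
        rw [neg_smul, one_smul, neg_add_eq_sub]
        exact h3)
      exact one_ne_zero h4.2
    · have h4 := Fintype.linearIndependent_iff.1 hyli c h3
      funext i
      exact h4 i
  have hli := h1 K n (u + 1) y z hy1 hz1 hyli hcond
  set P : Submodule K (R K n) := Submodule.span K (Set.range
    (fun p : {p : Fin (u + 1) × Fin (u + 1) // p.1 < p.2} =>
      z p.1.1 * y p.1.2 - z p.1.2 * y p.1.1)) with hP
  have hPdim : Module.finrank K P = (u + 1).choose 2 := by
    rw [hP, finrank_span_eq_card hli, card_pairs]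
  have hPU : P ≤ Rd K n 1 * U := by
    rw [hP, Submodule.span_le]
    rintro _ ⟨p, rfl⟩
    exact Submodule.sub_mem _ (Submodule.mul_mem_mul (hz1 _) (hyU _))
      (Submodule.mul_mem_mul (hz1 _) (hyU _))
  have hPq : P ≤ ql l W := by
    rw [hP, Submodule.span_le]
    rintro _ ⟨p, rfl⟩
    refine ⟨Submodule.sub_mem _ (mem2 (hz1 _) (hy1 _)) (mem2 (hz1 _) (hy1 _)), ?_⟩
    change l * (z p.1.1 * y p.1.2 - z p.1.2 * y p.1.1) ∈
      (Rd K n 1 * W : Submodule K (R K n))
    have e : l * (z p.1.1 * y p.1.2 - z p.1.2 * y p.1.1) =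
        y p.1.1 * (x * y p.1.2 - l * z p.1.2) - y p.1.2 * (x * y p.1.1 - l * z p.1.1) := by
      ring
    rw [e]
    exact Submodule.sub_mem _ (Submodule.mul_mem_mul (hy1 _) (hzW _))
      (Submodule.mul_mem_mul (hy1 _) (hzW _))
  have h3 := h2 K n (u + 1) W U P hW hU hdim hPU
  have fq : Module.Finite K (ql l W) := fin_le (ql_le _ _)
  have h4 := Submodule.finrank_mono (sup_le (le_ql hl hWR) hPq)
  rw [hPdim] at h3
  have h5 : (u + 1).choose 2 = u + u.choose 2 := by
    rw [Nat.choose_succ_succ' u 1, Nat.choose_one_right]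
  omega

end

end Pool.Agent.EGN.B
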