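import Pool.Agent.EGB.Targets

/-!
# EGB, EGV: the eigenvalue lemma
-/

set_option autoImplicit false

namespace Pool.Agent.EGN.B

universe u

theorem p_EGV : T_EGV.{u} := by
  intro K _ _ E E' _ _ _ _ _ L Z hZL _ hL
  obtain ⟨x0, hx0⟩ := hL
  obtain ⟨s, hs⟩ := L.rangeRestrict.exists_rightInverse_of_surjective (by
    rw [LinearMap.range_rangeRestrict])
  have hs' : ∀ v : LinearMap.range L, L (s v) = v := fun v => by
    have h := congrArg Subtype.val (LinearMap.congr_fun hs v)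
    exact h
  let N : Module.End K (LinearMap.range L) :=
    LinearMap.codRestrict (LinearMap.range L) (Z ∘ₗ s) fun v => hZL ⟨s v, rfl⟩
  haveI : Nontrivial (LinearMap.range L) :=
    ⟨⟨⟨L x0, ⟨x0, rfl⟩⟩, 0, fun h => hx0 (congrArg Subtype.val h)⟩⟩
  obtain ⟨μ, hμ⟩ := Module.End.exists_eigenvalue N
  obtain ⟨v, hv⟩ := hμ.exists_hasEigenvector
  refine ⟨μ, s v, ?_, ?_⟩
  · rw [hs' v]
    exact fun h => hv.2 (Subtype.ext h)
  · have h1 : N v = μ • v := hv.apply_eq_smul
    have h2 : Z (s v) = ((N v : LinearMap.range L) : E') := rfl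
    rw [h2, h1, hs' v]
    rfl

end Pool.Agent.EGN.B
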