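import Pool.Agent.EGB.Targets

set_option autoImplicit false
open MvPolynomial hiding R

/-!
# Project EGB, target EL2: elimination of a linear form, with the map
-/

namespace Pool.Agent.EGN.B

open Pool.Agent.EGU Pool.Agent.EGS

universe u

open ELM_ in
/-- EL2. -/
theorem p_EL2 : T_EL2.{u} := by
  intro K _ _ n W hW l hl hl0
  obtain ⟨f, hf, hfW, hW2⟩ := hW
  obtain ⟨g, hg0, hg, hgJ⟩ := p_RES p_ACY p_AVO K n f hf l hl hl0
  obtain ⟨c, hc⟩ := RED_.lin l hl
  obtain ⟨i0, h0⟩ : ∃ i0, c i0 ≠ 0 := by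
    by_contra h
    push Not at h
    apply hl0
    rw [hc]
    exact Finset.sum_eq_zero fun i _ => by rw [h i, zero_smul]
  have hdeg : ∀ d, ∀ p ∈ Rd K (n + 1) d, (RED_.el c i0).toLinearMap p ∈ Rd K n d :=
    fun d p hp => RED_.el_deg c i0 d p hp
  have hsurj : ∀ d, ∀ q ∈ Rd K n d, ∃ p ∈ Rd K (n + 1) d, (RED_.el c i0).toLinearMap p = q :=
    fun d q hq => ⟨RED_.sc i0 q, RED_.sc_deg i0 d q hq, RED_.el_sc c i0 q⟩
  have hker : ∀ e, ∀ p ∈ Rd K (n + 1) (e + 1), (RED_.el c i0).toLinearMap p = 0 →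
      ∃ x ∈ Rd K (n + 1) e, l * x = p := by
    intro e p hp h
    rw [hc]
    exact ker_el c i0 h0 e p hp h
  have hlx : ∀ x, (RED_.el c i0).toLinearMap (l * x) = 0 := by
    intro x
    change RED_.el c i0 (l * x) = 0
    rw [map_mul, hc, RED_.el_lin c i0 h0, zero_mul]
  have hR1W : (Rd K (n + 1) 1 * W : Submodule K (R K (n + 1))) ≤ Rd K (n + 1) 3 :=
    Submodule.mul_le.2 fun _ hx _ hw => mul_Rd (d := 1) (e := 2) hx (hW2 hw)
  have hW'2 : W.map (RED_.el c i0).toLinearMap ≤ Rd K n 2 := by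
    rintro _ ⟨w, hw, rfl⟩
    exact hdeg 2 w (hW2 hw)
  have hR1W' : (Rd K n 1 * W.map (RED_.el c i0).toLinearMap : Submodule K (R K n)) ≤ Rd K n 3 :=
    Submodule.mul_le.2 fun _ hx _ hw => mul_Rd (d := 1) (e := 2) hx (hW'2 hw)
  have a2 : Module.finrank K (Rd K n 2) + Module.finrank K (Rd K (n + 1) 1) =
      Module.finrank K (Rd K (n + 1) 2) :=
    dim_Rd (RED_.el c i0).toLinearMap l hl0 hl 1 hdeg hsurj (hker 1) hlx
  have a3 : Module.finrank K (Rd K n 3) + Module.finrank K (Rd K (n + 1) 2) =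
      Module.finrank K (Rd K (n + 1) 3) :=
    dim_Rd (RED_.el c i0).toLinearMap l hl0 hl 2 hdeg hsurj (hker 2) hlx
  have b2 := dim_el (RED_.el c i0).toLinearMap l hl0 1 (hker 1) hlx W hW2
  have b3 := dim_el (RED_.el c i0).toLinearMap l hl0 2 (hker 2) hlx
    (Rd K (n + 1) 1 * W : Submodule K (R K (n + 1))) hR1W
  rw [Submodule.map_mul, TRW_.map_Rd (RED_.el c i0).toLinearMap hdeg hsurj 1] at b3
  rw [dim1 (n + 1)] at a2
  have fR2 : Module.Finite K (Rd K (n + 1) 2) := ELM_.fin _ _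
  have fR3 : Module.Finite K (Rd K (n + 1) 3) := ELM_.fin _ _
  have fS2 : Module.Finite K (Rd K n 2) := ELM_.fin _ _
  have fS3 : Module.Finite K (Rd K n 3) := ELM_.fin _ _
  have fS1 : Module.Finite K (Rd K n 1) := ELM_.fin _ _
  have fR0 : Module.Finite K (Rd K (n + 1) 0) := ELM_.fin _ _
  have c2 := Submodule.finrank_mono hW2
  have c3 := Submodule.finrank_mono hR1W
  have c2' := Submodule.finrank_mono hW'2
  have c3' := Submodule.finrank_mono hR1W'
  refine ⟨RED_.el c i0, hdeg, hsurj, ?_, ?_,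
    ⟨fun i => RED_.el c i0 (g i.succ), ci_el c i0 h0 (tw n) g hg (hg0.trans hc), ?_, hW'2⟩,
    ?_, ?_⟩
  · rw [hc]
    exact RED_.el_lin c i0 h0
  · intro d p hp h
    obtain ⟨x, hx, h1⟩ := hker d p hp h
    exact ⟨x, hx, h1.symm⟩
  · intro p hp
    have h1 := ((t_jd K n n (fun i => RED_.el c i0 (g i.succ)) (tw n)
      (ci_el c i0 h0 (tw n) g hg (hg0.trans hc)).hom).1 2 p).mp hp
    obtain ⟨y, hy, rfl⟩ := h1
    refine Submodule.sum_mem _ fun k _ => ?_
    have h2 : y k ∈ Rd K n 0 := by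
      have := hy k
      unfold Rm at this
      rwa [if_pos le_rfl, Nat.sub_self] at this
    rw [Rd, homogeneousSubmodule_zero, Submodule.mem_one] at h2
    obtain ⟨a, ha⟩ := h2
    have h3 : g k.succ ∈ W := by
      refine hfW ⟨?_, hgJ k⟩
      have := hg.hom k.succ
      rwa [Fin.cons_succ] at this
    refine ⟨a • g k.succ, Submodule.smul_mem _ _ h3, ?_⟩
    rw [← ha, ← Algebra.smul_def, map_smul]
    rfl
  · unfold hh kl
    omega
  · unfold tt ql
    omega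

end Pool.Agent.EGN.B
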