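import Pool.Agent.EGB.Targets

/-!
# Project EGB (MP_e5dae2_al): the dimension count IMG (helper95)
-/

set_option autoImplicit false
open MvPolynomial hiding R

namespace Pool.Agent.EGN.B

open Pool.Agent.EGU Pool.Agent.EGS

universe u

namespace IMG_

variable {K : Type u} [Field K]

lemma mul_le (n : ℕ) (U : Submodule K (R K n)) (hU : U ≤ Rd K n 1) :
    (Rd K n 1 * U : Submodule K (R K n)) ≤ Rd K n 2 := by
  rw [Submodule.mul_le]
  intro x hx y hy
  have h1 : x.IsHomogeneous 1 := (mem_homogeneousSubmodule 1 x).mp hx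
  have h2 : y.IsHomogeneous 1 := (mem_homogeneousSubmodule 1 y).mp (hU hy)
  exact (mem_homogeneousSubmodule 2 (x * y)).mpr (h1.mul h2)

lemma sys (n : ℕ) (W U : Submodule K (R K n)) (hW : Sys K n W) (hU : U ≤ Rd K n 1) :
    Sys K n (W ⊔ (Rd K n 1 * U : Submodule K (R K n))) := by
  obtain ⟨f, hf, h1, h2⟩ := hW
  exact ⟨f, hf, h1.trans le_sup_left, sup_le h2 (mul_le n U hU)⟩

lemma le_soc (n : ℕ) (W U : Submodule K (R K n)) (hU : U ≤ Rd K n 1) :
    U ≤ soc (W ⊔ (Rd K n 1 * U : Submodule K (R K n))) := by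
  intro y hy
  refine ⟨hU hy, ?_⟩
  show y ∈ ⨅ x : Rd K n 1, (W ⊔ (Rd K n 1 * U : Submodule K (R K n))).comap
    (LinearMap.mulLeft K (x : R K n))
  rw [Submodule.mem_iInf]
  intro x
  show (x : R K n) * y ∈ W ⊔ (Rd K n 1 * U : Submodule K (R K n))
  exact (le_sup_right : (Rd K n 1 * U : Submodule K (R K n)) ≤ _)
    (Submodule.mul_mem_mul x.2 hy)

end IMG_

open IMG_ in
theorem p_IMG (h : T_URK.{u}) : T_IMG.{u} := by
  intro K _ _ n k W U P hW hU hk hP
  have f1 : Module.Finite K (Rd K n 1) := (t_dimr K n 1).1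
  have f2 : Module.Finite K (Rd K n 2) := (t_dimr K n 2).1
  have d1 : Module.finrank K (Rd K n 1) = n := (t_dimr K n 1).2.2
  have hkn : k ≤ n := by
    rw [← hk]
    exact (Submodule.finrank_mono hU).trans_eq d1
  have hs := sys n W U hW hU
  have hW2 : W ≤ Rd K n 2 := by
    obtain ⟨f, _, _, h2⟩ := hW
    exact h2
  have hRU := mul_le n U hU
  have f3 : Module.Finite K (Rd K n 1 * U : Submodule K (R K n)) :=
    Submodule.finiteDimensional_of_le hRU
  have f4 : Module.Finite K (W ⊔ P : Submodule K (R K n)) :=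
    Submodule.finiteDimensional_of_le (sup_le hW2 (hP.trans hRU))
  have f5 : Module.Finite K
      (soc (W ⊔ (Rd K n 1 * U : Submodule K (R K n))) : Submodule K (R K n)) :=
    Submodule.finiteDimensional_of_le (inf_le_left : _ ≤ Rd K n 1)
  have e1 := p_SOQ p_ELM K n _ hs
  have e2 : k ≤ Module.finrank K
      (soc (W ⊔ (Rd K n 1 * U : Submodule K (R K n))) : Submodule K (R K n)) := by
    rw [← hk]
    exact Submodule.finrank_mono (le_soc n W U hU)
  have e3 := e1.trans (Nat.choose_le_choose 2 (Nat.sub_le_sub_left e2 n))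
  unfold hh at e3
  obtain ⟨u1, u2⟩ := h K n
  have u3 := u2 k U hU hk
  rw [u1] at e3
  have e4 := Submodule.finrank_sup_add_finrank_inf_eq (W ⊔ P)
    (Rd K n 1 * U : Submodule K (R K n))
  have e5 : (W ⊔ P) ⊔ (Rd K n 1 * U : Submodule K (R K n)) =
      W ⊔ (Rd K n 1 * U : Submodule K (R K n)) := by
    rw [sup_assoc, sup_eq_right.mpr hP]
  rw [e5] at e4
  have e6 : Module.finrank K P ≤ Module.finrank K
      ((W ⊔ P) ⊓ (Rd K n 1 * U : Submodule K (R K n)) : Submodule K (R K n)) := by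
    have f6 : Module.Finite K
        ((W ⊔ P) ⊓ (Rd K n 1 * U : Submodule K (R K n)) : Submodule K (R K n)) :=
      Submodule.finiteDimensional_of_le (inf_le_left : _ ≤ W ⊔ P)
    exact Submodule.finrank_mono (le_inf le_sup_right hP)
  have e7 : (n + 1 - k).choose 2 = (n - k).choose 2 + (n - k) := by
    have : n + 1 - k = (n - k) + 1 := by omega
    rw [this, Nat.choose_succ_succ' (n - k) 1, Nat.choose_one_right, Nat.add_comm]
  omega

end Pool.Agent.EGN.B
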