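import Pool.Agent.EGB.Targets

/-!
# Project EGB (MP_e5dae2_al): IN2, the induction with the seven bounds (helper62)
-/

set_option autoImplicit false
open MvPolynomial hiding R

namespace Pool.Agent.EGN.B

open Pool.Agent.EGU Pool.Agent.EGS

universe u

namespace IN2_

lemma c2_eq (n : ℕ) : c2 n = n.choose 2 := by
  unfold c2
  rw [Nat.choose_two_right]

lemma c2_mono {a b : ℕ} (h : a ≤ b) : c2 a ≤ c2 b := by
  rw [c2_eq, c2_eq]
  exact Nat.choose_le_choose 2 h

/-- monotone up to `H0` -/
lemma mono_of {T : ℕ → ℕ} {H0 : ℕ} (h : ∀ x, x < H0 → T x ≤ T (x + 1)) {a b : ℕ}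
    (hab : a ≤ b) (hb : b ≤ H0) : T a ≤ T b := by
  induction b, hab using Nat.le_induction with
  | base => exact le_refl _
  | succ b hab ih => exact (ih (by omega)).trans (h b (by omega))

/-- `hh W = 0` gives `tt W = 0` -/
lemma tt_zero (K : Type u) [Field K] [Infinite K] (n : ℕ) : ∀ W : Submodule K (R K n),
    Sys K n W → hh W = 0 → tt W = 0 := by
  induction n with
  | zero =>
    intro W hW _
    have h3 := (p_GBQ K 0 W hW).2
    have : (0 : ℕ).choose 3 = 0 := rfl
    omega
  | succ n ih =>
    intro W hW h0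
    rcases p_STP p_ELM (p_SOQ p_ELM) K n W hW with ⟨W', hW', e1, e2⟩ | ⟨ρ, W', hW', e1, e2⟩
    · omega
    · have h1 := ih W' hW' (by omega)
      rw [h0, Nat.zero_sub, Nat.min_zero, h1] at e2
      omega

/-- the three bounds for one number of variables -/
def Bd (t : Tb) (H0 : ℕ) (K : Type u) [Field K] (n : ℕ) : Prop :=
  ∀ W : Submodule K (R K n), Sys K n W → hh W ≤ H0 →
    tt W ≤ t.T (hh W) ∧ (soc W = ⊥ → tt W ≤ t.ns n (hh W)) ∧
      (soc W = ⊥ → NRs W → tt W ≤ t.nr n (hh W))

lemma ns_le {t : Tb} {H0 : ℕ} (hC : t.Cl H0) (n h : ℕ) (hh : h ≤ H0) : t.ns n h ≤ t.T h := by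
  obtain ⟨a, b, c⟩ := hC.lT h hh
  unfold Tb.ns
  split_ifs <;> assumption

/-- the bound after a step -/
lemma stp_le {t : Tb} {H0 : ℕ} {K : Type u} [Field K] {n : ℕ}
    (hB : Bd t H0 K n) (W : Submodule K (R K (n + 1))) (hW : hh W ≤ H0) (ρ : ℕ) (h1 : 1 ≤ ρ)
    (hS : Stp W ρ) : ρ ≤ hh W ∧ tt W ≤ t.rd (n + 1) (hh W) ρ := by
  obtain ⟨W', hs, e1, e2, e3⟩ := hS
  have e4 : hh W - ρ = hh W' := by omega
  have e5 : ρ ≤ hh W := by omega
  refine ⟨e5, ?_⟩
  obtain ⟨b1, b2, -⟩ := hB W' hs (by omega)
  have g1 := (p_GBQ K n W' hs).1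
  rw [← c2_eq] at g1
  unfold Tb.rd
  rw [e4, Nat.add_sub_cancel, if_pos g1]
  rcases e3 with ⟨s1, s2, s3⟩ | s2
  · refine le_trans ?_ (le_max_left _ _)
    have b2' := b2 s1
    rw [← c2_eq] at s2
    split_ifs with hc
    · have s3' := s3 (by omega)
      have : tt W ≤ (hh W' - 1) + tt W' := by omega
      rcases le_total (c2 ρ) (hh W' - 1) with h | h
      · rw [min_eq_left h]
        omega
      · rw [min_eq_right h]
        omega
    · rw [Nat.sub_zero]
      rcases le_total (c2 ρ) (hh W') with h | h
      · rw [min_eq_left h]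
        omega
      · rw [min_eq_right h]
        omega
  · refine le_trans ?_ (le_max_right _ _)
    rw [← c2_eq] at s2
    rcases le_total (c2 (ρ - 1)) (hh W') with h | h
    · rw [min_eq_left h]
      omega
    · rw [min_eq_right h]
      omega

end IN2_

open IN2_ in
theorem p_IN2 (h1 : T_RDS.{u}) (h2 : T_NRS.{u}) (h3 : T_SCL.{u}) (h4 : T_NRB.{u}) :
    T_IN2.{u} := by
  intro t H0 hC K _ _ n W hW hH
  have hinf : Infinite K := inferInstance
  suffices H : ∀ n, Bd t H0 K n from (H n W hW hH).1
  clear hW hH W n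
  intro n
  induction n using Nat.strong_induction_on with
  | _ n ih =>
  -- the case `hh W = 0`
  -- bound (c)
  have key : ∀ W : Submodule K (R K n), Sys K n W → hh W ≤ H0 → soc W = ⊥ →
      tt W ≤ t.ns n (hh W) ∧ (NRs W → tt W ≤ t.nr n (hh W)) := by
    intro W hW hH hs
    rcases Nat.eq_zero_or_pos (hh W) with h0 | hpos
    · have := tt_zero K n W hW h0
      rw [this]
      exact ⟨Nat.zero_le _, fun _ => Nat.zero_le _⟩
    obtain ⟨g1, g2⟩ := p_GBQ K n W hW
    have g1' : hh W ≤ c2 n := by rw [c2_eq]; exact g1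
    have hn : 2 ≤ n := by
      by_contra hc
      have : n = 0 ∨ n = 1 := by omega
      rcases this with rfl | rfl
      · have : c2 0 = 0 := rfl
        omega
      · have : c2 1 = 0 := rfl
        omega
    obtain ⟨k, rfl⟩ : ∃ k, n = k + 2 := ⟨n - 2, by omega⟩
    have ih1 : Bd t H0 K (k + 1) := ih (k + 1) (by omega)
    have ih0 : Bd t H0 K k := ih k (by omega)
    -- reducible case
    have R1 : ¬ NRs W → ∃ ρ, 1 ≤ ρ ∧ ρ ≤ k + 1 ∧ Stp W ρ := by
      intro hr
      obtain ⟨l, -, -, ρ, r1, r2, -, r3⟩ := h1 K (k + 1) W hW hs hr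
      exact ⟨ρ, r1, r2, r3⟩
    have R2 : ¬ NRs W → ∀ X, (∀ r, 1 ≤ r → r + 1 ≤ k + 2 → r ≤ hh W →
        t.rd (k + 2) (hh W) r ≤ X) → tt W ≤ X := by
      intro hr X hX
      obtain ⟨ρ, r1, r2, r3⟩ := R1 hr
      obtain ⟨r4, r5⟩ := stp_le ih1 W hH ρ r1 r3
      exact r5.trans (hX ρ r1 (by omega) r4)
    -- irreducible case
    have N1 : NRs W → ∀ X, t.nrc (k + 2) (hh W) X → tt W ≤ X := by
      intro hr X hX
      have b1 := h4 K (k + 2) W (by omega) hW.choose_spec.2.2 hr
      obtain ⟨x1, x2⟩ := hX b1
      obtain ⟨W', hs', s1, s2, s3, s4⟩ := h2 K k W hW hr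
      have e1 : hh W - (k + 2) = hh W' := by omega
      rcases s4 with ⟨q1, q2⟩ | ⟨ρ, q1, q2, q3, q4⟩
      · have x1' := x1 q2
        have y1 := (ih1 W' hs' (by omega)).2.2 s1 q1
        rw [e1] at x1'
        have : k + 2 - 1 = k + 1 := rfl
        rw [this] at x1'
        omega
      · obtain ⟨y1, y2⟩ := stp_le ih0 W' (by omega) ρ q1 q3
        have x2' := x2 ρ q1 (by omega) (by omega)
        rw [e1] at x2'
        have : k + 2 - 1 = k + 1 := rfl
        rw [this] at x2'
        rw [← c2_eq, ← c2_eq] at q4
        rcases le_total (hh W) (c2 (k + 2) + 1 - c2 (k + 1 - ρ)) with h | h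
        · rw [min_eq_left h] at x2'
          omega
        · rw [min_eq_right h] at x2'
          omega
    have GB : ∀ X, (k + 2).choose 3 ≤ X + g (k + 2) (c2 (k + 2) - hh W) → tt W ≤ X := by
      intro X hX
      rw [c2_eq] at hX
      omega
    have e1 : k + 2 - 1 = k + 1 := rfl
    have e2 : k + 2 - 2 = k := rfl
    by_cases c1 : c2 (k + 1) < hh W
    · -- state 1
      have ens : t.ns (k + 2) (hh W) = t.E (hh W) := by
        unfold Tb.ns
        rw [e1, if_pos c1]
      have enr : t.nr (k + 2) (hh W) = t.A (hh W) := by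
        unfold Tb.nr
        rw [e1, if_pos c1]
      rw [ens, enr]
      have hc : NRs W → tt W ≤ t.A (hh W) := by
        intro hr
        rcases hC.cA (k + 2) (hh W) hn hH c1 g1' with h | h
        · exact GB _ h
        · exact N1 hr _ h
      refine ⟨?_, hc⟩
      rcases hC.cE (k + 2) (hh W) hn hH c1 g1' with h | ⟨h, h'⟩
      · exact GB _ h
      · by_cases hr : NRs W
        · exact (hc hr).trans h
        · exact R2 hr _ h'
    · by_cases c3 : c2 k < hh W
      · -- state 2
        have ens : t.ns (k + 2) (hh W) = t.G (hh W) := by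
          unfold Tb.ns
          rw [e1, e2, if_neg c1, if_pos c3]
        have enr : t.nr (k + 2) (hh W) = t.B (hh W) := by
          unfold Tb.nr
          rw [e1, e2, if_neg c1, if_pos c3]
        rw [ens, enr]
        have hk : 3 ≤ k + 2 := by
          by_contra hc
          have hk0 : k = 0 := by omega
          subst hk0
          have : c2 (0 + 1) = 0 := rfl
          omega
        have hle : hh W ≤ c2 (k + 1) := by omega
        have hc : NRs W → tt W ≤ t.B (hh W) :=
          fun hr => N1 hr _ (hC.cB (k + 2) (hh W) hk hH c3 hle)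
        refine ⟨?_, hc⟩
        obtain ⟨h, h'⟩ := hC.cG (k + 2) (hh W) hk hH c3 hle
        by_cases hr : NRs W
        · exact (hc hr).trans h
        · exact R2 hr _ h'
      · -- state 3
        have ens : t.ns (k + 2) (hh W) = t.H (hh W) := by
          unfold Tb.ns
          rw [e1, e2, if_neg c1, if_neg c3]
        have enr : t.nr (k + 2) (hh W) = t.H (hh W) := by
          unfold Tb.nr
          rw [e1, e2, if_neg c1, if_neg c3]
        rw [ens, enr]
        have hle : hh W ≤ c2 k := by omega
        obtain ⟨m, hm1, hm2⟩ : ∃ m : ℕ, hh W ≤ c2 m ∧ ∀ j < m, ¬ hh W ≤ c2 j := by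
          classical
          have hex : ∃ m, hh W ≤ c2 m := ⟨k, hle⟩
          exact ⟨Nat.find hex, Nat.find_spec hex, fun j hj => Nat.find_min hex hj⟩
        have hm3 : 2 ≤ m := by
          by_contra hc
          have : m = 0 ∨ m = 1 := by omega
          rcases this with rfl | rfl
          · have : c2 0 = 0 := rfl
            omega
          · have : c2 1 = 0 := rfl
            omega
        have hm4 : c2 (m - 1) < hh W := by
          have := hm2 (m - 1) (by omega)
          omega
        have hm5 : m ≤ k := by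
          by_contra hc
          exact hm2 k (by omega) hle
        obtain ⟨x1, x2, x3⟩ := hC.cH m (hh W) hm3 hH hm4 hm1
        -- the bound `ns` for the next system
        have NS : ∀ W' : Submodule K (R K (k + 1)), Sys K (k + 1) W' → soc W' = ⊥ →
            hh W' ≤ hh W → tt W' ≤ t.G (hh W') ∨ tt W' ≤ t.H (hh W') := by
          intro W' s1 s2 s3
          have s4 := (ih1 W' s1 (by omega)).2.1 s2
          unfold Tb.ns at s4
          have e3 : k + 1 - 1 = k := rfl
          rw [e3, if_neg (by omega)] at s4
          split_ifs at s4 with hc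
          · exact Or.inl s4
          · exact Or.inr s4
        have hc : NRs W → tt W ≤ t.H (hh W) := by
          intro hr
          have b1 := h4 K (k + 2) W (by omega) hW.choose_spec.2.2 hr
          obtain ⟨W', hs', s1, s2, s3, -⟩ := h2 K k W hW hr
          have y1 := x1 (by omega)
          have y2 : t.U (hh W') ≤ t.U (hh W - (m + 2)) := mono_of hC.mU (by omega) (by omega)
          obtain ⟨u1, u2⟩ := hC.lU (hh W') (by omega)
          rcases NS W' hs' s1 (by omega) with h | h
          · omega
          · omega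
        refine ⟨?_, hc⟩
        by_cases hr : NRs W
        · exact hc hr
        · obtain ⟨ρ, r1, r2, W', hs', q1, q2, q3⟩ := R1 hr
          have q4 : hh W - ρ = hh W' := by omega
          rcases Nat.lt_or_ge m ρ with hmr | hmr
          · have y1 := x3 (by omega)
            have y2 := (ih1 W' hs' (by omega)).1
            have y3 : t.T (hh W') ≤ t.T (hh W - (m + 1)) := mono_of hC.mT (by omega) (by omega)
            omega
          · obtain ⟨y1, y2⟩ := x2 ρ r1 hmr (by omega)
            rw [q4] at y1 y2
            rcases q3 with ⟨z1, z2, z3⟩ | z2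
            · have z3' := z3 (by omega)
              rw [← c2_eq] at z2
              have z4 : tt W' ≤ max (t.G (hh W')) (t.H (hh W')) := by
                rcases NS W' hs' z1 (by omega) with h | h
                · exact h.trans (le_max_left _ _)
                · exact h.trans (le_max_right _ _)
              rcases le_total (c2 ρ) (hh W' - 1) with h | h
              · rw [min_eq_left h] at y1
                omega
              · rw [min_eq_right h] at y1
                omega
            · rw [← c2_eq] at z2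
              have z4 := (ih1 W' hs' (by omega)).1
              rcases le_total (c2 (ρ - 1)) (hh W') with h | h
              · rw [min_eq_left h] at y2
                omega
              · rw [min_eq_right h] at y2
                omega
  intro W hW hH
  refine ⟨?_, fun hs => (key W hW hH hs).1, fun hs hr => (key W hW hH hs).2 hr⟩
  obtain ⟨m, hm, W', hW', s1, s2, s3⟩ := h3 K n W hW
  rw [← s2, ← s3]
  rcases Nat.lt_or_ge m n with hmn | hmn
  · exact (ih m hmn W' hW' (by omega)).1
  · have : m = n := le_antisymm hm hmn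
    subst this
    exact ((key W' hW' (by omega) s1).1).trans (ns_le hC m _ (by omega))

end Pool.Agent.EGN.B
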