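import Pool.Agent.EGB.Targets

set_option autoImplicit false
open MvPolynomial hiding R

/-!
# Project EGB (MP_e5dae2_al): IN3, the induction on the number of variables for large `hh W`
-/

namespace Pool.Agent.EGN.B

open Pool.Agent.EGU Pool.Agent.EGS

universe u

/-- the induction -/
theorem p_IN3 : T_IN3.{u} := by
  intro F H0 _hF0 hmono hc2 hc1 hc0 K _ _ hbase n
  have h1 : T_STP.{u} := p_STP p_ELM (p_SOQ p_ELM)
  have h2 : T_GBQ.{u} := p_GBQ
  induction n with
  | zero =>
    intro W hW
    have h3 := (h2 K 0 W hW).1
    have h4 : (0 : ℕ).choose 2 = 0 := rfl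
    exact hbase 0 W hW (by omega)
  | succ n ih =>
    intro W hW
    by_cases hH : hh W ≤ H0
    · exact hbase (n + 1) W hW hH
    push Not at hH
    obtain ⟨g1, g2⟩ := h2 K (n + 1) W hW
    rcases h1 K n W hW with ⟨W', hW', e1, e2⟩ | ⟨ρ, W', hW', e1, e2⟩
    · have i1 := ih W' hW'
      have hpos : 1 ≤ hh W := by omega
      have e2' : (tt W : ℤ) ≤ tt W' + hh W := by exact_mod_cast e2
      have e3 : hh W' = hh W - (n + 1) := by omega
      obtain ⟨m, hm1, hm2⟩ : ∃ m : ℕ, hh W ≤ m.choose 2 ∧ ∀ k < m, ¬ hh W ≤ k.choose 2 :=
        ⟨Nat.find (ex_mm (hh W)), Nat.find_spec (ex_mm (hh W)),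
          fun k hk => Nat.find_min (ex_mm (hh W)) hk⟩
      have hm3 : 2 ≤ m := by
        by_contra hc
        have : m = 0 ∨ m = 1 := by omega
        rcases this with rfl | rfl
        · simp at hm1
          omega
        · simp at hm1
          omega
      have hm4 : (m - 1).choose 2 < hh W := by
        have := hm2 (m - 1) (by omega)
        omega
      have hm5 : m ≤ n + 1 := by
        by_contra hc
        exact hm2 (n + 1) (by omega) g1
      rcases Nat.lt_or_ge m (n + 1) with hm6 | hm6
      · have c := hc1 m (hh W) hH hm3 hm4 hm1 (by omega)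
        have c' : F (hh W') ≤ F (hh W - (m + 1)) := hmono (by omega)
        linarith
      · have hm7 : m = n + 1 := by omega
        subst hm7
        rcases hc0 (n + 1) (hh W) hH hm3 hm4 hm1 with c | c
        · have g2' : (tt W : ℤ) + (g (n + 1) ((n + 1).choose 2 - hh W) : ℤ) ≤
              ((n + 1).choose 3 : ℤ) := by exact_mod_cast g2
          linarith
        · have c' := c (by omega)
          rw [← e3] at c'
          linarith
    · have i1 := ih W' hW'
      rcases Nat.eq_zero_or_pos ρ with h0 | h0
      · subst h0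
        have e3 : tt W ≤ tt W' := by
          have : (0 : ℕ).choose 2 = 0 := rfl
          rw [this, Nat.zero_min, add_zero] at e2
          exact e2
        have e4 : hh W' = hh W := by omega
        rw [e4] at i1
        have e3' : (tt W : ℤ) ≤ tt W' := by exact_mod_cast e3
        linarith
      · have c := hc2 (hh W) ρ hH h0 (by omega)
        have e3 : hh W - ρ = hh W' := by omega
        have e2' : (tt W : ℤ) ≤ tt W' + ((min (ρ.choose 2) (hh W - ρ) : ℕ) : ℤ) := by
          exact_mod_cast e2
        rw [e3] at c e2'
        linarith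

end Pool.Agent.EGN.B
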