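import Pool.Agent.EGB.Targets

set_option autoImplicit false

/-!
# EGB, block INQ: integrality by valuation rings
-/

namespace Pool.Agent.EGN.B

open Pool.Agent.EGU Pool.Agent.EGS

universe u

namespace INQ_

lemma map_cfq {A B : Type u} [CommRing A] [CommRing B] (φ : A →+* B) {n : ℕ}
    (l a y b : Fin n → A) (i j : Fin n) :
    φ (cfq l a y b i j) = cfq (fun i => φ (l i)) (fun i => φ (a i)) (fun i => φ (y i))
      (fun i => φ (b i)) i j := by
  unfold cfq
  split_ifs <;> simp

lemma cfq_mul {A : Type u} [CommRing A] {n : ℕ} (t : A) (l a y b : Fin n → A) (i j : Fin n) :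
    cfq (fun i => t * l i) a (fun i => t * y i) b i j = t * cfq l a y b i j := by
  unfold cfq
  split_ifs <;> ring

/-- The main step: every valuation subring containing the constants and the values of the
functionals contains all coefficients. -/
lemma mem_of (h1 : T_VAL.{u}) (h2 : T_TRF.{u}) (K : Type u) [Field K] [IsAlgClosed K]
    (F : Type u) [Field F] [Algebra K F] (n c : ℕ) (lam : Fin c → Fin n → Fin n → K)
    (hT : Tri lam K) (l a y b : Fin n → F) (V : ValuationSubring F)
    (hK : ∀ z : K, algebraMap K F z ∈ V) (hf : ∀ k, fnl (lam k) (cfq l a y b) ∈ V)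
    (i j : Fin n) : cfq l a y b i j ∈ V := by
  by_contra hij
  have : Nonempty (Fin n × Fin n) := ⟨(i, j)⟩
  obtain ⟨⟨i0, j0⟩, hmax⟩ := Finite.exists_max
    (fun p : Fin n × Fin n => V.valuation (cfq l a y b p.1 p.2))
  have h1lt : 1 < V.valuation (cfq l a y b i0 j0) := by
    have h3 : ¬ V.valuation (cfq l a y b i j) ≤ 1 := fun h =>
      hij ((V.valuation_le_one_iff _).1 h)
    exact lt_of_lt_of_le (not_le.1 h3) (hmax (i, j))
  have hQ0 : cfq l a y b i0 j0 ≠ 0 := by
    intro h0
    rw [h0, map_zero] at h1lt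
    exact absurd h1lt (not_lt.2 zero_le_one)
  set q : F := cfq l a y b i0 j0 with hq
  set t : F := q⁻¹ with ht
  have htq : t * q = 1 := inv_mul_cancel₀ hQ0
  have hvtq : V.valuation t * V.valuation q = 1 := by
    rw [← map_mul, htq, map_one]
  have hvt : V.valuation t < 1 := by
    rw [ht, map_inv₀]
    exact inv_lt_one_of_one_lt₀ h1lt
  -- all coefficients of `t Q` are in `V`
  have hin : ∀ i j, cfq (fun i => t * l i) a (fun i => t * y i) b i j ∈ V := by
    intro i j
    rw [cfq_mul, ← V.valuation_le_one_iff, map_mul, ← hvtq]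
    exact mul_le_mul_right (hmax (i, j)) _
  obtain ⟨l', a', y', b', hQ'⟩ := h1 F V n _ _ _ _ hin
  let φ : K →+* V := (algebraMap K F).codRestrict V hK
  have hφ : ∀ z, ((φ z : V) : F) = algebraMap K F z := fun z => rfl
  let ρ : V →+* IsLocalRing.ResidueField V := IsLocalRing.residue V
  let : Algebra K (IsLocalRing.ResidueField V) := (ρ.comp φ).toAlgebra
  have hsm : ∀ (z : K) (x : V), z • ρ x = ρ (φ z * x) := by
    intro z x
    rw [Algebra.smul_def, map_mul]
    rfl
  have hTk := h2 K (IsLocalRing.ResidueField V) n c lam hT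
  have hz : ∀ k, fnl (lam k) (cfq (fun i => ρ (l' i)) (fun i => ρ (a' i)) (fun i => ρ (y' i))
      (fun i => ρ (b' i))) = 0 := by
    intro k
    have e1 : fnl (lam k) (cfq (fun i => ρ (l' i)) (fun i => ρ (a' i)) (fun i => ρ (y' i))
        (fun i => ρ (b' i))) =
        ρ (∑ i, ∑ j, if i ≤ j then φ (lam k i j) * cfq l' a' y' b' i j else 0) := by
      unfold fnl
      rw [map_sum]
      refine Finset.sum_congr rfl fun i _ => ?_
      rw [map_sum]
      refine Finset.sum_congr rfl fun j _ => ?_
      split_ifs with hle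
      · rw [← map_cfq, hsm]
      · rw [map_zero]
    have e2 : ((∑ i, ∑ j, if i ≤ j then φ (lam k i j) * cfq l' a' y' b' i j else 0 : V) : F) =
        t * fnl (lam k) (cfq l a y b) := by
      have hcoe : ∀ x : V, (x : F) = V.subtype x := fun x => rfl
      rw [hcoe, map_sum]
      unfold fnl
      rw [Finset.mul_sum]
      refine Finset.sum_congr rfl fun i _ => ?_
      rw [map_sum, Finset.mul_sum]
      refine Finset.sum_congr rfl fun j _ => ?_
      split_ifs with hle
      · rw [map_mul, ← hcoe, ← hcoe, hQ', cfq_mul, hφ, Algebra.smul_def]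
        ring
      · rw [map_zero, mul_zero]
    rw [e1]
    show IsLocalRing.residue V _ = 0
    rw [IsLocalRing.residue_eq_zero_iff, V.valuation_lt_one_iff, e2, map_mul]
    have hle : V.valuation (fnl (lam k) (cfq l a y b)) ≤ 1 := (V.valuation_le_one_iff _).2 (hf k)
    calc V.valuation t * V.valuation (fnl (lam k) (cfq l a y b))
        ≤ V.valuation t * 1 := mul_le_mul_right hle _
      _ = V.valuation t := mul_one _
      _ < 1 := hvt
  have h0 := hTk _ _ _ _ hz i0 j0
  rw [← map_cfq] at h0
  have e3 : cfq l' a' y' b' i0 j0 = 1 := by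
    apply Subtype.ext
    rw [hQ', cfq_mul]
    exact htq
  rw [e3, map_one] at h0
  exact one_ne_zero h0

end INQ_

theorem p_INQ (h1 : T_VAL.{u}) (h2 : T_TRF.{u}) : T_INQ.{u} := by
  intro K _ _ F _ _ n c lam hT l a y b i j
  have hmem : cfq l a y b i j ∈ (integralClosure (Subring.closure
      (Set.range (algebraMap K F) ∪ Set.range fun k => fnl (lam k) (cfq l a y b))) F).toSubring := by
    rw [← iInf_valuationSubring_superset, Subring.mem_iInf]
    rintro ⟨V, hV⟩
    exact INQ_.mem_of h1 h2 K F n c lam hT l a y b V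
      (fun z => hV (Or.inl ⟨z, rfl⟩)) (fun k => hV (Or.inr ⟨k, rfl⟩)) i j
  have hint : IsIntegral (Subring.closure
      (Set.range (algebraMap K F) ∪ Set.range fun k => fnl (lam k) (cfq l a y b)))
      (cfq l a y b i j) := hmem
  let f : Subring.closure
      (Set.range (algebraMap K F) ∪ Set.range fun k => fnl (lam k) (cfq l a y b)) →+*
      Algebra.adjoin K (Set.range fun k => fnl (lam k) (cfq l a y b)) :=
    (Subring.subtype _).codRestrict (Algebra.adjoin K (Set.range fun k =>
      fnl (lam k) (cfq l a y b))) (fun x => by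
        obtain ⟨z, h3⟩ := x
        rw [← Algebra.adjoin_eq_ring_closure] at h3
        exact h3)
  exact IsIntegral.map_of_comp_eq f (RingHom.id F) (RingHom.ext fun x => rfl) hint

end Pool.Agent.EGN.B
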