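import Pool.Agent.EGB.Targets

set_option autoImplicit false
open MvPolynomial hiding R

/-!
# EGB, target MIN: the minors are linearly independent
-/

namespace Pool.Agent.EGN.B

open Pool.Agent.EGU Pool.Agent.EGS

universe u

namespace MIN_

variable {K : Type u} [Field K] {n k : ℕ}

/-- A linear form as a linear functional. -/
noncomputable def ev (l : R K n) : (Fin n → K) →ₗ[K] K :=
  ∑ i, coeff (Finsupp.single i 1) l • LinearMap.proj i

theorem ev_apply (l : R K n) (p : Fin n → K) :
    ev l p = ∑ i, coeff (Finsupp.single i 1) l * p i := by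
  simp [ev, LinearMap.sum_apply]

theorem form_eq {l : R K n} (hl : l ∈ Rd K n 1) :
    l = ∑ i, coeff (Finsupp.single i 1) l • (X i : R K n) := by
  classical
  rw [Rd, homogeneousSubmodule_one_eq_span_X] at hl
  induction hl using Submodule.span_induction with
  | mem x hx =>
    obtain ⟨j, rfl⟩ := hx
    rw [Finset.sum_eq_single j]
    · simp [coeff_X]
    · intro i _ hij
      rw [coeff_X, if_neg, zero_smul]
      intro h
      exact hij ((Finsupp.single_left_inj one_ne_zero).1 h).symm
    · simp
  | zero => simp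
  | add x y _ _ hx hy =>
    simp only [coeff_add, add_smul, Finset.sum_add_distrib]
    rw [← hx, ← hy]
  | smul a x _ hx =>
    simp only [coeff_smul, smul_assoc, ← Finset.smul_sum]
    rw [← hx]

theorem eval_eq {l : R K n} (hl : l ∈ Rd K n 1) (p : Fin n → K) : eval p l = ev l p := by
  rw [ev_apply]
  conv_lhs => rw [form_eq hl]
  simp [smul_eval]

theorem ev_sum {ι : Type*} (s : Finset ι) (a : ι → K) (f : ι → R K n) (p : Fin n → K) :
    ev (∑ i ∈ s, a i • f i) p = ∑ i ∈ s, a i * ev (f i) p := by
  simp only [ev_apply, coeff_sum, coeff_smul, smul_eq_mul, Finset.sum_mul, Finset.mul_sum]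
  rw [Finset.sum_comm]
  refine Finset.sum_congr rfl fun i _ => Finset.sum_congr rfl fun j _ => by ring

theorem ev_inj {l m : R K n} (hl : l ∈ Rd K n 1) (hm : m ∈ Rd K n 1)
    (h : ∀ p, ev l p = ev m p) : l = m := by
  classical
  rw [form_eq hl, form_eq hm]
  refine Finset.sum_congr rfl fun i _ => ?_
  have := h (Pi.single i 1)
  rw [ev_apply, ev_apply] at this
  simp only [Pi.single_apply, mul_ite, mul_one, mul_zero, Finset.sum_ite_eq', Finset.mem_univ,
    if_true] at this
  rw [this]

/-- The dual family. -/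
theorem dual {y : Fin k → R K n} (hy : ∀ i, y i ∈ Rd K n 1) (hli : LinearIndependent K y) :
    ∃ P : Fin k → (Fin n → K), ∀ i j, ev (y j) (P i) = if i = j then 1 else 0 := by
  classical
  let Y : (Fin n → K) →ₗ[K] (Fin k → K) := LinearMap.pi fun j => ev (y j)
  have hsurj : LinearMap.range Y = ⊤ := by
    by_contra hne
    obtain ⟨f, hf, hle⟩ := Submodule.exists_le_ker_of_lt_top _ (lt_top_iff_ne_top.2 hne)
    apply hf
    have key : ∀ p : Fin n → K, ∑ j, f (Pi.single j 1) * ev (y j) p = 0 := by
      intro p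
      have h1 : f (Y p) = 0 := hle ⟨p, rfl⟩
      have h2 : Y p = ∑ j, ev (y j) p • (Pi.single j (1 : K) : Fin k → K) := by
        ext t
        simp [Y, Finset.sum_apply, Pi.single_apply]
      rw [h2, map_sum] at h1
      rw [← h1]
      refine Finset.sum_congr rfl fun j _ => ?_
      rw [map_smul, smul_eq_mul, mul_comm]
    have h3 : ∑ j, f (Pi.single j 1) • y j = 0 := by
      apply ev_inj (Submodule.sum_mem _ fun j _ => Submodule.smul_mem _ _ (hy j))
        (Submodule.zero_mem _)
      intro p
      rw [ev_sum, key]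
      simp [ev_apply]
    have h4 := Fintype.linearIndependent_iff.1 hli _ h3
    apply LinearMap.pi_ext'
    intro j
    ext
    simp [h4 j]
  have hs : ∀ i : Fin k, ∃ p, Y p = Pi.single i 1 := by
    intro i
    have : (Pi.single i 1 : Fin k → K) ∈ LinearMap.range Y := by rw [hsurj]; trivial
    exact this
  choose P hP using hs
  refine ⟨P, fun i j => ?_⟩
  have := congrFun (hP i) j
  simp only [Y, LinearMap.pi_apply, Pi.single_apply] at this
  rw [this]
  simp [eq_comm]

/-- Skew symmetric matrices: the inclusion of kernels gives the inclusion of ranges. -/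
theorem skew_range (C S : Matrix (Fin k) (Fin k) K) (hC : ∀ i j, C i j = - C j i)
    (hS : ∀ i j, S i j = - S j i)
    (h : LinearMap.ker C.mulVecLin ≤ LinearMap.ker S.mulVecLin) :
    LinearMap.range S.mulVecLin ≤ LinearMap.range C.mulVecLin := by
  classical
  rintro _ ⟨a, rfl⟩
  by_contra hne
  obtain ⟨f, hf, hle⟩ := Submodule.exists_le_ker_of_notMem hne
  have hfe : ∀ v : Fin k → K, f v = ∑ i, f (Pi.single i 1) * v i := by
    intro v
    have h2 : v = ∑ j, v j • (Pi.single j (1 : K) : Fin k → K) := by
      ext t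
      simp [Finset.sum_apply, Pi.single_apply]
    conv_lhs => rw [h2, map_sum]
    refine Finset.sum_congr rfl fun j _ => ?_
    rw [map_smul, smul_eq_mul, mul_comm]
  have key : ∀ M : Matrix (Fin k) (Fin k) K, (∀ i j, M i j = - M j i) →
      ∀ b : Fin k → K, f (M.mulVecLin b) =
        - ∑ j, b j * (M.mulVecLin fun i => f (Pi.single i 1)) j := by
    intro M hM b
    rw [hfe]
    simp only [Matrix.mulVecLin_apply, Matrix.mulVec, dotProduct, Finset.mul_sum]
    rw [Finset.sum_comm, ← Finset.sum_neg_distrib]
    refine Finset.sum_congr rfl fun j _ => ?_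
    rw [← Finset.sum_neg_distrib]
    refine Finset.sum_congr rfl fun i _ => ?_
    rw [hM i j]
    ring
  have hz : (fun i => f (Pi.single i 1)) ∈ LinearMap.ker C.mulVecLin := by
    rw [LinearMap.mem_ker]
    ext j
    have h1 : f (C.mulVecLin (Pi.single j 1)) = 0 := hle ⟨_, rfl⟩
    rw [key C hC] at h1
    simpa [Pi.single_apply] using h1
  have hz2 := LinearMap.mem_ker.1 (h hz)
  apply hf
  rw [key S hS, hz2]
  simp

end MIN_

open MIN_ in
theorem p_MIN (h : T_EGV.{u}) : T_MIN.{u} := by
  classical
  intro K _ _ n k y z hy hz hli hev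
  rw [Fintype.linearIndependent_iff]
  intro c hc
  -- the skew matrix
  let C : Matrix (Fin k) (Fin k) K := fun i j =>
    if h : i < j then c ⟨(i, j), h⟩ else if h : j < i then - c ⟨(j, i), h⟩ else 0
  have hCij : ∀ (i j : Fin k) (hij : i < j), C i j = c ⟨(i, j), hij⟩ := by
    intro i j hij
    simp [C, hij]
  have hCskew : ∀ i j, C i j = - C j i := by
    intro i j
    rcases lt_trichotomy i j with hij | rfl | hij
    · simp [C, hij, hij.not_gt]
    · simp [C]
    · simp [C, hij, hij.not_gt]
  have hCii : ∀ i, C i i = 0 := by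
    intro i
    simp [C]
  suffices hC0 : C = 0 by
    rintro ⟨⟨i, j⟩, hij⟩
    rw [← hCij i j hij, hC0]
    rfl
  have hrel : ∑ i, ∑ j, C i j • (z i * y j) = 0 := by
    let F : Fin k × Fin k → R K n := fun p => C p.1 p.2 • (z p.1 * y p.2)
    have e0 : ∑ i, ∑ j, C i j • (z i * y j) = ∑ p, F p := by
      rw [Fintype.sum_prod_type]
    have e1 : ∑ p : {p : Fin k × Fin k // p.1 < p.2},
        c p • (z p.1.1 * y p.1.2 - z p.1.2 * y p.1.1) =
        ∑ p ∈ (Finset.univ : Finset (Fin k × Fin k)).filter (fun p => p.1 < p.2),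
          (F p + F p.swap) := by
      have h1 : ∀ p : {p : Fin k × Fin k // p.1 < p.2},
          c p • (z p.1.1 * y p.1.2 - z p.1.2 * y p.1.1) = F p.1 + F p.1.swap := by
        rintro ⟨⟨i, j⟩, hij⟩
        change c ⟨(i, j), hij⟩ • (z i * y j - z j * y i) =
          C i j • (z i * y j) + C j i • (z j * y i)
        rw [hCskew j i, hCij i j hij, smul_sub, neg_smul]
        ring
      rw [Finset.sum_congr rfl fun p _ => h1 p]
      exact (Finset.sum_subtype _ (by simp) (fun p => F p + F p.swap)).symm
    have e2 : ∑ p ∈ (Finset.univ : Finset (Fin k × Fin k)).filter (fun p => p.1 < p.2),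
        F p.swap = ∑ p ∈ (Finset.univ : Finset (Fin k × Fin k)).filter (fun p => p.2 < p.1),
        F p := by
      refine Finset.sum_bij' (fun p _ => p.swap) (fun p _ => p.swap) ?_ ?_ ?_ ?_ ?_ <;> simp
    have e3 : ∑ p ∈ (Finset.univ : Finset (Fin k × Fin k)).filter (fun p => ¬ p.1 < p.2), F p =
        ∑ p ∈ (Finset.univ : Finset (Fin k × Fin k)).filter (fun p => p.2 < p.1), F p := by
      symm
      apply Finset.sum_subset
      · intro p hp
        simp only [Finset.mem_filter, Finset.mem_univ, true_and] at hp ⊢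
        exact hp.not_gt
      · rintro ⟨i, j⟩ hp hp'
        simp only [Finset.mem_filter, Finset.mem_univ, true_and] at hp hp'
        have : i = j := le_antisymm (not_lt.1 hp') (not_lt.1 hp)
        subst this
        simp [F, hCii]
    rw [e0, ← Finset.sum_filter_add_sum_filter_not Finset.univ (fun p : Fin k × Fin k => p.1 < p.2),
      e3, ← e2, ← Finset.sum_add_distrib, ← e1, hc]
  -- the combinations of the rows
  let Z : Fin k → R K n := fun j => ∑ i, C i j • z i
  have hZ : ∀ j, Z j ∈ Rd K n 1 := fun j =>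
    Submodule.sum_mem _ fun i _ => Submodule.smul_mem _ _ (hz i)
  have hZy : ∑ j, Z j * y j = 0 := by
    rw [← hrel, Finset.sum_comm]
    refine Finset.sum_congr rfl fun j _ => ?_
    simp only [Z, Finset.sum_mul, smul_mul_assoc]
  have hq1 : ∀ p : Fin n → K, ∑ j, ev (Z j) p * ev (y j) p = 0 := by
    intro p
    have := congrArg (eval p) hZy
    rw [map_sum, map_zero] at this
    rw [← this]
    refine Finset.sum_congr rfl fun j _ => ?_
    rw [map_mul, eval_eq (hZ j), eval_eq (hy j)]
  have hq2 : ∀ p q : Fin n → K, ∑ j, (ev (Z j) p * ev (y j) q + ev (Z j) q * ev (y j) p) = 0 := by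
    intro p q
    have h1 := hq1 (p + q)
    have h2 := hq1 p
    have h3 := hq1 q
    simp only [map_add] at h1
    have h4 : ∑ j, (ev (Z j) p + ev (Z j) q) * (ev (y j) p + ev (y j) q) =
        ∑ j, (ev (Z j) p * ev (y j) q + ev (Z j) q * ev (y j) p) +
          (∑ j, ev (Z j) p * ev (y j) p + ∑ j, ev (Z j) q * ev (y j) q) := by
      rw [← Finset.sum_add_distrib, ← Finset.sum_add_distrib]
      refine Finset.sum_congr rfl fun j _ => by ring
    rw [h4, h2, h3, add_zero, add_zero] at h1
    exact h1
  obtain ⟨P, hP⟩ := dual hy hli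
  let S : Matrix (Fin k) (Fin k) K := fun j t => ev (Z j) (P t)
  have hker : ∀ p : Fin n → K, (∀ j, ev (y j) p = 0) → ∀ i, ev (Z i) p = 0 := by
    intro p hp i
    have := hq2 p (P i)
    simp only [hp, mul_zero, add_zero, hP, mul_ite, mul_one] at this
    simpa using this
  have hSskew : ∀ i j, S i j = - S j i := by
    intro i j
    have := hq2 (P i) (P j)
    simp only [hP, mul_ite, mul_one, mul_zero, Finset.sum_add_distrib, Finset.sum_ite_eq,
      Finset.mem_univ, if_true] at this
    exact eq_neg_of_add_eq_zero_right this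
  have hZS : ∀ j, Z j = ∑ t, S j t • y t := by
    intro j
    apply ev_inj (hZ j) (Submodule.sum_mem _ fun i _ => Submodule.smul_mem _ _ (hy i))
    intro p
    have h1 := hker (p - ∑ t, ev (y t) p • P t) (by
      intro i
      rw [map_sub, map_sum]
      simp [hP]) j
    rw [map_sub, map_sum, sub_eq_zero] at h1
    rw [h1, ev_sum]
    refine Finset.sum_congr rfl fun t _ => ?_
    rw [map_smul, smul_eq_mul, mul_comm]
  have hCz : ∀ a : Fin k → K, ∑ i, (C.mulVecLin a) i • z i = - ∑ i, (S.mulVecLin a) i • y i := by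
    intro a
    have h1 : ∑ i, (C.mulVecLin a) i • z i = ∑ j, a j • Z j := by
      simp only [Matrix.mulVecLin_apply, Matrix.mulVec, dotProduct, Finset.sum_smul, Z,
        Finset.smul_sum, smul_smul]
      rw [Finset.sum_comm]
      refine Finset.sum_congr rfl fun i _ => Finset.sum_congr rfl fun j _ => by rw [mul_comm]
    rw [h1, ← Finset.sum_neg_distrib]
    simp only [hZS, Finset.smul_sum, smul_smul]
    rw [Finset.sum_comm]
    refine Finset.sum_congr rfl fun i _ => ?_
    rw [← Finset.sum_smul, ← neg_smul]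
    congr 1
    simp only [Matrix.mulVecLin_apply, Matrix.mulVec, dotProduct]
    rw [← Finset.sum_neg_distrib]
    refine Finset.sum_congr rfl fun j _ => ?_
    rw [hSskew i j]
    ring
  have hkerle : LinearMap.ker C.mulVecLin ≤ LinearMap.ker S.mulVecLin := by
    intro a ha
    have h1 := hCz a
    rw [LinearMap.mem_ker.1 ha] at h1
    simp only [Pi.zero_apply, zero_smul, Finset.sum_const_zero] at h1
    have h2 : ∑ i, (S.mulVecLin a) i • y i = 0 := by
      rw [← neg_eq_zero, ← h1]
    rw [LinearMap.mem_ker]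
    funext i
    exact Fintype.linearIndependent_iff.1 hli _ h2 i
  have hrange := skew_range C S hCskew hSskew hkerle
  by_contra hne
  obtain ⟨μ, a, ha, hSa⟩ := h K (Fin k → K) (Fin k → K) C.mulVecLin (- S.mulVecLin)
    (by
      rintro _ ⟨b, rfl⟩
      rw [LinearMap.neg_apply]
      exact Submodule.neg_mem _ (hrange ⟨b, rfl⟩))
    (by
      intro b hb
      rw [LinearMap.mem_ker, LinearMap.neg_apply, LinearMap.mem_ker.1 (hkerle hb), neg_zero])
    (by
      by_contra hall
      push Not at hall
      apply hne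
      ext i j
      have := congrFun (hall (Pi.single j 1)) i
      simpa using this)
  apply ha
  apply hev (C.mulVecLin a) μ
  rw [hCz, ← Finset.sum_neg_distrib, Finset.smul_sum]
  refine Finset.sum_congr rfl fun i _ => ?_
  have := congrFun hSa i
  simp only [LinearMap.neg_apply, Pi.neg_apply, Pi.smul_apply, smul_eq_mul] at this
  rw [← neg_smul, this, mul_smul]

end Pool.Agent.EGN.B
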