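import Pool.Agent.EGB.Targets
import Pool.Agent.EGS.P_BLN
import Pool.Agent.EGS.P_BLC

set_option autoImplicit false
open MvPolynomial hiding R

/-!
# NRB: no reducible quadric gives `2 n ≤ hh W + 1` (EGB project)
-/

namespace Pool.Agent.EGN.B

open Pool.Agent.EGU Pool.Agent.EGS

universe u

namespace NRB_

variable {K : Type u} [Field K] {n : ℕ}

/-- The linear form with the coefficients `x`. -/
noncomputable def lin (x : Fin n → K) : R K n := ∑ i, x i • (X i : R K n)

lemma lin_mem (x : Fin n → K) : lin x ∈ Rd K n 1 :=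
  Submodule.sum_mem _ fun i _ => Submodule.smul_mem _ _ (isHomogeneous_X K i)

lemma lin_ne (x : Fin n → K) (hx : x ≠ 0) : lin x ≠ 0 := by
  intro h
  apply hx
  funext i
  have h1 : MvPolynomial.coeff (Finsupp.single i 1) (lin x) = x i := by
    unfold lin
    rw [MvPolynomial.coeff_sum]
    rw [Finset.sum_eq_single i]
    · rw [MvPolynomial.coeff_smul, MvPolynomial.coeff_X, if_pos rfl, smul_eq_mul, mul_one]
    · intro j _ hj
      rw [MvPolynomial.coeff_smul, MvPolynomial.coeff_X, if_neg, smul_zero]
      intro h2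
      exact hj (Finsupp.single_left_injective one_ne_zero h2)
    · intro h2
      exact absurd (Finset.mem_univ i) h2
  rw [h, MvPolynomial.coeff_zero] at h1
  exact h1.symm

lemma mul_eq (x y : Fin n → K) :
    lin x * lin y = ∑ i, ∑ j, (x i * y j) • ((X i : R K n) * X j) := by
  unfold lin
  rw [Finset.sum_mul_sum]
  refine Finset.sum_congr rfl fun i _ => Finset.sum_congr rfl fun j _ => ?_
  rw [smul_mul_smul_comm]

end NRB_

open NRB_ in
theorem p_NRB : T_NRB.{u} := by
  intro K _ _ n W hn hle hN
  classical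
  have hfin : Module.Finite K (Rd K n 2) := (t_dimr K n 2).1
  let V : Submodule K (Rd K n 2) := W.comap (Rd K n 2).subtype
  have hV : Module.finrank K V = Module.finrank K W :=
    LinearEquiv.finrank_eq (Submodule.comapSubtypeEquivOfLe hle)
  have hq := Submodule.finrank_quotient_add_finrank V
  let c := Module.finrank K (Rd K n 2 ⧸ V)
  have hc : c = hh W := by
    have h0 : c + Module.finrank K V = Module.finrank K (Rd K n 2) := hq
    unfold hh
    omega
  let B : Module.Basis (Fin c) K (Rd K n 2 ⧸ V) := Module.finBasis K _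
  have hXX : ∀ i j : Fin n, (X i : R K n) * X j ∈ Rd K n 2 := fun i j =>
    (isHomogeneous_X K i).mul (isHomogeneous_X K j)
  let b : Fin n → Fin n → Fin c → K := fun i j k =>
    B.repr (V.mkQ ⟨(X i : R K n) * X j, hXX i j⟩) k
  have h1 : ∀ (x y : Fin n → K), (∀ k, ∑ i, ∑ j, b i j k * (x i * y j) = 0) →
      x = 0 ∨ y = 0 := by
    intro x y h
    by_contra h2
    push Not at h2
    obtain ⟨hx, hy⟩ := h2
    have h3 : lin x * lin y ∈ Rd K n 2 :=
      MvPolynomial.IsHomogeneous.mul (lin_mem x) (lin_mem y)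
    have h4 : (⟨lin x * lin y, h3⟩ : Rd K n 2) =
        ∑ i, ∑ j, (x i * y j) • (⟨(X i : R K n) * X j, hXX i j⟩ : Rd K n 2) := by
      apply Subtype.ext
      refine (mul_eq x y).trans ?_
      simp
    have h5 : V.mkQ ⟨lin x * lin y, h3⟩ = 0 := by
      apply B.repr.injective
      rw [map_zero]
      ext k
      rw [h4]
      simp only [map_sum, map_smul, Finsupp.coe_finsetSum, Finset.sum_apply, Finsupp.smul_apply,
        smul_eq_mul, Finsupp.zero_apply]
      rw [← h k]
      refine Finset.sum_congr rfl fun i _ => Finset.sum_congr rfl fun j _ => ?_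
      exact mul_comm _ _
    rw [Submodule.mkQ_apply, Submodule.Quotient.mk_eq_zero] at h5
    have h6 : lin x * lin y ∈ W := h5
    rcases hN _ (lin_mem x) _ (lin_mem y) h6 with h7 | h7
    · exact lin_ne x hx h7
    · exact lin_ne y hy h7
  obtain ⟨N, hN2⟩ := p_BLN K n n c b h1
  have h2 := p_BLC K n n c N b hn hn hN2
  omega

end Pool.Agent.EGN.B
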