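import Pool.Agent.EGB.Targets

set_option autoImplicit false
open MvPolynomial hiding R

/-!
# EGB, NRS: one step without reducible quadrics
-/

namespace Pool.Agent.EGN.B

open Pool.Agent.EGU Pool.Agent.EGS

universe u

noncomputable section

namespace NRS_

open Pool.Agent.EGN.STP_

section
variable {K : Type u} [Field K] {n : ℕ}

lemma mem_soc {u : R K n} {W : Submodule K (R K n)} :
    u ∈ soc W ↔ u ∈ Rd K n 1 ∧ ∀ x ∈ Rd K n 1, x * u ∈ W := by
  unfold soc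
  rw [Submodule.mem_inf, Submodule.mem_iInf]
  constructor
  · rintro ⟨h1, h2⟩
    exact ⟨h1, fun x hx => h2 ⟨x, hx⟩⟩
  · rintro ⟨h1, h2⟩
    exact ⟨h1, fun x => h2 x.1 x.2⟩

/-- Relations modulo `l`. -/
lemma lift {W : Submodule K (R K (n + 1))} (hWR : W ≤ Rd K (n + 1) 2) {l : R K (n + 1)}
    {θ : R K (n + 1) →ₐ[K] R K n}
    (hθ4 : ∀ d, ∀ p ∈ Rd K (n + 1) (d + 1), θ p = 0 → ∃ x ∈ Rd K (n + 1) d, p = l * x)
    {z y : R K (n + 1)} (hz : z ∈ Rd K (n + 1) 1) (hy : y ∈ Rd K (n + 1) 1)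
    (h : θ z * θ y ∈ W.map θ.toLinearMap) : ∃ m ∈ Rd K (n + 1) 1, z * y - l * m ∈ W := by
  obtain ⟨w0, hw0, h4⟩ := h
  have h5 : θ (z * y - w0) = 0 := by
    have h4' : θ w0 = θ z * θ y := h4
    rw [map_sub, map_mul, h4', sub_self]
  obtain ⟨m, hm, h6⟩ := hθ4 1 (z * y - w0) (Submodule.sub_mem _ (mem2 hz hy) (hWR hw0)) h5
  refine ⟨m, hm, ?_⟩
  rw [← h6, sub_sub_cancel]
  exact hw0

/-- The kernel in degree one. -/
lemma ker1 {l : R K (n + 1)} {θ : R K (n + 1) →ₐ[K] R K n}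
    (hθ4 : ∀ d, ∀ p ∈ Rd K (n + 1) (d + 1), θ p = 0 → ∃ x ∈ Rd K (n + 1) d, p = l * x)
    {p : R K (n + 1)} (hp : p ∈ Rd K (n + 1) 1) (h : θ p = 0) : ∃ c : K, p = c • l := by
  obtain ⟨x, hx, h1⟩ := hθ4 0 p hp h
  have h2 : x.totalDegree = 0 := by
    have h3 : x.IsHomogeneous 0 := hx
    exact Nat.le_zero.1 h3.totalDegree_le
  rw [totalDegree_eq_zero_iff_eq_C] at h2
  refine ⟨coeff 0 x, ?_⟩
  rw [h1, h2, coeff_C, if_pos rfl, mul_comm, C_mul']

end

/-- Choice of `l`. -/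
lemma choice (h4 : T_NRB.{u}) (h5 : T_QUA.{u}) {K : Type u} [Field K] [IsAlgClosed K] {n : ℕ}
    {W : Submodule K (R K (n + 2))} (hW : Sys K (n + 2) W) (hN : NRs W) :
    ∃ l ∈ Rd K (n + 2) 1, l ≠ 0 ∧ (4 * (n + 2) < hh W + 8 ∨
      ∃ a ∈ Rd K (n + 2) 1, ∃ y ∈ Rd K (n + 2) 1, ∃ b ∈ Rd K (n + 2) 1,
        l * a + y * b ∈ W ∧ (∀ c : K, y ≠ c • l) ∧ ∀ c : K, b ≠ c • l) := by
  by_cases hc : 4 * (n + 2) < hh W + 8
  · exact ⟨X 0, isHomogeneous_X K 0, X_ne_zero 0, Or.inl hc⟩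
  have hWR : W ≤ Rd K (n + 2) 2 := by
    obtain ⟨f, -, -, h⟩ := hW
    exact h
  have e1 := h4 K (n + 2) W (by omega) hWR hN
  have e2 := (p_GBQ K (n + 2) W hW).1
  have hn : 2 ≤ n := by
    by_contra h
    push Not at h
    interval_cases n
    · norm_num [Nat.choose] at e2
      omega
    · norm_num [Nat.choose] at e2
      omega
  obtain ⟨l, hl, a, ha, y, hy, b, hb, hq, hq0⟩ := h5 K (n + 2) W (by omega) hWR (by omega)
  have hl0 : l ≠ 0 := by
    rintro rfl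
    rw [zero_mul, zero_add] at hq hq0
    rcases hN y hy b hb hq with h | h
    · exact hq0 (by rw [h, zero_mul])
    · exact hq0 (by rw [h, mul_zero])
  refine ⟨l, hl, hl0, Or.inr ⟨a, ha, y, hy, b, hb, hq, ?_, ?_⟩⟩
  · rintro c rfl
    have e : l * a + c • l * b = l * (a + c • b) := by
      rw [mul_add, smul_mul_assoc, mul_smul_comm]
    rw [e] at hq hq0
    rcases hN l hl _ (Submodule.add_mem _ ha (Submodule.smul_mem _ c hb)) hq with h | h
    · exact hl0 h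
    · exact hq0 (by rw [h, mul_zero])
  · rintro c rfl
    have e : l * a + y * c • l = l * (a + c • y) := by
      rw [mul_add, mul_smul_comm, mul_smul_comm, mul_comm y l]
    rw [e] at hq hq0
    rcases hN l hl _ (Submodule.add_mem _ ha (Submodule.smul_mem _ c hy)) hq with h | h
    · exact hl0 h
    · exact hq0 (by rw [h, mul_zero])

end NRS_

open NRS_ Pool.Agent.EGN.STP_ in
/-- NRS. -/
theorem p_NRS (h1 : T_EL2.{u}) (h2 : T_NSO.{u}) (h3 : T_RDS.{u}) (h4 : T_NRB.{u})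
    (h5 : T_QUA.{u}) (h6 : T_CST.{u}) (h7 : T_URK.{u}) : T_NRS.{u} := by
  intro K _ _ n W hW hN
  have hWR : W ≤ Rd K (n + 2) 2 := by
    obtain ⟨f, -, -, h⟩ := hW
    exact h
  obtain ⟨l, hl, hl0, hch⟩ := choice h4 h5 hW hN
  obtain ⟨θ, hθ1, hθ2, hθ3, hθ4, hS', e1, e2⟩ := h1 K (n + 1) W hW l hl hl0
  have hk : kl l W = ⊥ := by
    rw [eq_bot_iff]
    intro x hx
    rw [Submodule.mem_bot]
    exact (hN l hl x hx.1 hx.2).resolve_left hl0
  rw [hk, finrank_bot, add_zero] at e1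
  change hh (W.map θ.toLinearMap) + (n + 2) = hh W at e1
  change tt W + Module.finrank K (ql l W) =
    tt (W.map θ.toLinearMap) + Module.finrank K (Rd K (n + 2) 2) at e2
  have f2 : Module.Finite K (Rd K (n + 2) 2) := (t_dimr K (n + 2) 2).1
  have f3 : Module.Finite K (ql l W) := fin_le (ql_le _ _)
  have a1 := Submodule.finrank_mono (le_ql hl hWR)
  have a2 := Submodule.finrank_mono (ql_le l W)
  have hsoc : soc (W.map θ.toLinearMap) = ⊥ := by
    rw [eq_bot_iff]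
    intro w hw
    rw [Submodule.mem_bot]
    rw [mem_soc] at hw
    obtain ⟨z, hz, hzw⟩ := hθ2 1 w hw.1
    obtain ⟨c, hc⟩ := h2 K (n + 2) W hN l hl z hz (by
      intro y hy
      refine lift hWR hθ4 hz hy ?_
      rw [hzw, mul_comm]
      exact hw.2 (θ y) (hθ1 1 y hy))
    rw [← hzw, hc, map_smul, hθ3, smul_zero]
  refine ⟨W.map θ.toLinearMap, hS', hsoc, e1.symm, ?_, ?_⟩
  · unfold hh
    omega
  by_cases hgood : NRs (W.map θ.toLinearMap) ∧ 4 * (n + 2) < hh W + 8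
  · exact Or.inl hgood
  right
  have hN' : ¬ NRs (W.map θ.toLinearMap) := by
    intro hN'
    rcases hch with hch | ⟨a, ha, y, hy, b, hb, hq, hyc, hbc⟩
    · exact hgood ⟨hN', hch⟩
    have hm : θ y * θ b ∈ W.map θ.toLinearMap := by
      refine ⟨_, hq, ?_⟩
      change θ (l * a + y * b) = θ y * θ b
      rw [map_add, map_mul, map_mul, hθ3, zero_mul, zero_add]
    rcases hN' _ (hθ1 1 y hy) _ (hθ1 1 b hb) hm with h | h
    · obtain ⟨c, hc⟩ := ker1 hθ4 hy h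
      exact hyc c hc
    · obtain ⟨c, hc⟩ := ker1 hθ4 hb h
      exact hbc c hc
  obtain ⟨x', hx', hx'0, ρ, hρ1, hρn, hρ, hst⟩ := h3 K n _ hS' hsoc hN'
  refine ⟨ρ, hρ1, hρn, hst, ?_⟩
  obtain ⟨x, hx, hxx⟩ := hθ2 1 x' hx'
  have hli : LinearIndependent K ![l, x] := by
    rw [LinearIndependent.pair_iff]
    intro s t hst'
    have h8 : θ (s • l + t • x) = 0 := by rw [hst', map_zero]
    rw [map_add, map_smul, map_smul, hθ3, smul_zero, zero_add, hxx] at h8
    have ht : t = 0 := (smul_eq_zero.1 h8).resolve_right hx'0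
    rw [ht, zero_smul, add_zero] at hst'
    exact ⟨(smul_eq_zero.1 hst').resolve_right hl0, ht⟩
  let U : Submodule K (R K (n + 2)) :=
    Rd K (n + 2) 1 ⊓ (kl x' (W.map θ.toLinearMap)).comap θ.toLinearMap
  have hU1 : U ≤ Rd K (n + 2) 1 := inf_le_left
  have fU : Module.Finite K U := fin_le hU1
  have a3 := SPLIT_.finrank_map_add θ.toLinearMap U
  have e3 : U.map θ.toLinearMap = kl x' (W.map θ.toLinearMap) := by
    apply le_antisymm
    · rintro _ ⟨y, hy, rfl⟩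
      exact hy.2
    · intro v hv
      obtain ⟨y, hy, hyv⟩ := hθ2 1 v hv.1
      refine ⟨y, ⟨hy, ?_⟩, hyv⟩
      change θ y ∈ kl x' (W.map θ.toLinearMap)
      rw [hyv]
      exact hv
  have e4 : (U ⊓ LinearMap.ker θ.toLinearMap : Submodule K (R K (n + 2))) =
      Submodule.span K {l} := by
    apply le_antisymm
    · rintro p ⟨hp, hp'⟩
      obtain ⟨c, hc⟩ := ker1 hθ4 (hU1 hp) hp'
      rw [hc]
      exact Submodule.smul_mem _ _ (Submodule.mem_span_singleton_self l)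
    · rw [Submodule.span_singleton_le_iff_mem]
      refine ⟨⟨hl, ?_⟩, hθ3⟩
      change θ l ∈ kl x' (W.map θ.toLinearMap)
      rw [hθ3]
      exact Submodule.zero_mem _
  rw [e3, e4, finrank_span_singleton hl0] at a3
  have e5 := h6 K (n + 2) (Module.finrank K (kl x' (W.map θ.toLinearMap))) W hW hN l hl x hx
    hli U hU1 a3.symm (by
      intro y hy
      refine lift hWR hθ4 hx hy.1 ?_
      rw [hxx]
      exact hy.2.2)
  have e6 := (h7 K (n + 2)).1
  have e7 : (n + 2 + 1).choose 2 = (n + 2) + (n + 2).choose 2 := by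
    rw [Nat.choose_succ_succ' (n + 2) 1, Nat.choose_one_right]
  have e8 : Module.finrank K (kl x' (W.map θ.toLinearMap)) = n + 1 - ρ := by omega
  rw [e8] at e5
  omega

end

end Pool.Agent.EGN.B
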