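import Pool.Agent.EGB.Targets

set_option autoImplicit false

/-!
# EGB, job NSO
-/

namespace Pool.Agent.EGN.B

open MvPolynomial hiding R
open Pool.Agent.EGU Pool.Agent.EGS

universe u

theorem p_NSO (h : T_EGV.{u}) : T_NSO.{u} := by
  intro K _ _ n W hW l hl z hz hm
  by_cases hl0 : l = 0
  · obtain ⟨m, _, hm1⟩ := hm z hz
    rw [hl0, zero_mul, sub_zero] at hm1
    refine ⟨0, ?_⟩
    rw [zero_smul]
    rcases hW z hz z hz hm1 with h1 | h1 <;> exact h1
  have hfin : Module.Finite K (Rd K n 1) := (t_dimr K n 1).1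
  let mul : R K n → (Rd K n 1 →ₗ[K] (R K n ⧸ W)) := fun a =>
    (W.mkQ.comp (LinearMap.mulLeft K a)).comp (Rd K n 1).subtype
  have hmul : ∀ (a : R K n) (y : Rd K n 1), mul a y = W.mkQ (a * (y : R K n)) := fun a y => rfl
  have hker : ∀ y : Rd K n 1, mul l y = 0 → y = 0 := by
    intro y hy
    rw [hmul, Submodule.mkQ_apply, Submodule.Quotient.mk_eq_zero] at hy
    rcases hW l hl y y.2 hy with h1 | h1
    · exact absurd h1 hl0
    · exact Subtype.ext h1
  have h1 : LinearMap.range (mul z) ≤ LinearMap.range (mul l) := by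
    rintro _ ⟨y, rfl⟩
    obtain ⟨m, hm1, hm2⟩ := hm y y.2
    refine ⟨⟨m, hm1⟩, ?_⟩
    rw [hmul, hmul]
    exact ((Submodule.Quotient.eq W).2 hm2).symm
  have h2 : LinearMap.ker (mul l) ≤ LinearMap.ker (mul z) := by
    intro y hy
    rw [LinearMap.mem_ker] at hy
    rw [hker y hy]
    exact Submodule.zero_mem _
  have h3 : ∃ x, mul l x ≠ 0 := by
    refine ⟨⟨l, hl⟩, fun h4 => hl0 ?_⟩
    have h5 := hker _ h4
    exact congrArg Subtype.val h5
  obtain ⟨c, x, hx, hc⟩ := h K (Rd K n 1) (R K n ⧸ W) (mul l) (mul z) h1 h2 h3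
  refine ⟨c, ?_⟩
  have h4 : (z - c • l) * (x : R K n) ∈ W := by
    rw [hmul, hmul, ← map_smul] at hc
    have h5 := (Submodule.Quotient.eq W).1 hc
    rwa [sub_mul, smul_mul_assoc]
  rcases hW _ (Submodule.sub_mem _ hz (Submodule.smul_mem _ c hl)) _ x.2 h4 with h5 | h5
  · exact sub_eq_zero.1 h5
  · exact absurd (by rw [hmul, h5, mul_zero, map_zero]) hx

end Pool.Agent.EGN.B

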