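import Pool.Agent.EGB.Targets

set_option autoImplicit false
open MvPolynomial hiding R

/-!
# QUA: existence of a quadric `l a + y b` in `W` (EGB project)
-/

namespace Pool.Agent.EGN.B

open Pool.Agent.EGU Pool.Agent.EGS

universe u

noncomputable section

namespace QUA_

variable {K : Type u} [Field K] {n : ℕ}

/-- The linear form with the coefficients `x`. -/
def lin (x : Fin n → K) : R K n := ∑ i, x i • (X i : R K n)

lemma lin_mem (x : Fin n → K) : lin x ∈ Rd K n 1 :=
  Submodule.sum_mem _ fun i _ => Submodule.smul_mem _ _ (isHomogeneous_X K i)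

lemma eval_lin (x p : Fin n → K) : MvPolynomial.eval p (lin x) = ∑ i, x i * p i := by
  unfold lin
  rw [map_sum]
  refine Finset.sum_congr rfl fun i _ => ?_
  rw [MvPolynomial.smul_eval, MvPolynomial.eval_X]

lemma sym_sum {M : Type u} [AddCommMonoid M] (F : Fin n → Fin n → M) :
    ∑ i, ∑ j, F i j =
      ∑ i, ∑ j, if i ≤ j then (if i = j then F i j else F i j + F j i) else 0 := by
  have h1 : ∀ i j : Fin n, (if i ≤ j then (if i = j then F i j else F i j + F j i) else 0) =
      (if i ≤ j then F i j else 0) + (if i < j then F j i else 0) := by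
    intro i j
    rcases lt_trichotomy i j with h | h | h
    · rw [if_pos h.le, if_neg h.ne, if_pos h.le, if_pos h]
    · subst h
      simp
    · rw [if_neg (not_le.2 h), if_neg (not_le.2 h), if_neg (not_lt.2 h.le), add_zero]
  have h2 : ∑ i, ∑ j, (if i < j then F j i else 0) = ∑ i, ∑ j, (if j < i then F i j else 0) :=
    Finset.sum_comm
  simp_rw [h1, Finset.sum_add_distrib]
  rw [h2, ← Finset.sum_add_distrib]
  refine Finset.sum_congr rfl fun i _ => ?_
  rw [← Finset.sum_add_distrib]
  refine Finset.sum_congr rfl fun j _ => ?_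
  rcases le_or_gt i j with h | h
  · rw [if_pos h, if_neg (not_lt.2 h), add_zero]
  · rw [if_neg (not_le.2 h), if_pos h, zero_add]

lemma mul_eq (l a y b : Fin n → K) :
    lin l * lin a + lin y * lin b =
      ∑ i, ∑ j, if i ≤ j then cfq l a y b i j • ((X i : R K n) * X j) else 0 := by
  have e : lin l * lin a + lin y * lin b =
      ∑ i, ∑ j, (l i * a j + y i * b j) • ((X i : R K n) * X j) := by
    unfold lin
    rw [Finset.sum_mul_sum, Finset.sum_mul_sum, ← Finset.sum_add_distrib]
    refine Finset.sum_congr rfl fun i _ => ?_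
    rw [← Finset.sum_add_distrib]
    refine Finset.sum_congr rfl fun j _ => ?_
    rw [smul_mul_smul_comm, smul_mul_smul_comm, add_smul]
  rw [e, sym_sum]
  refine Finset.sum_congr rfl fun i _ => Finset.sum_congr rfl fun j _ => ?_
  split_ifs with h1 h2
  · subst h2
    simp [cfq]
  · rw [mul_comm (X j : R K n) (X i), ← add_smul]
    unfold cfq
    rw [if_neg h2]
    congr 1
    ring
  · rfl

/-- a quadric which vanishes has zero coefficients -/
lemma cfq_zero (l a y b : Fin n → K) (h : lin l * lin a + lin y * lin b = 0) (i j : Fin n) :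
    cfq l a y b i j = 0 := by
  have hev : ∀ p : Fin n → K,
      (∑ i, l i * p i) * (∑ i, a i * p i) + (∑ i, y i * p i) * (∑ i, b i * p i) = 0 := by
    intro p
    have h1 := congrArg (MvPolynomial.eval p) h
    rw [map_add, map_mul, map_mul, eval_lin, eval_lin, eval_lin, eval_lin, map_zero] at h1
    exact h1
  have hs : ∀ (x : Fin n → K) (i : Fin n), ∑ k, x k * (Pi.single i 1 : Fin n → K) k = x i := by
    intro x i
    simp [Pi.single_apply]
  have hd : ∀ i, l i * a i + y i * b i = 0 := by
    intro i
    have h1 := hev (Pi.single i 1)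
    rwa [hs, hs, hs, hs] at h1
  unfold cfq
  by_cases hij : i = j
  · subst hij
    rw [if_pos rfl]
    exact hd i
  · rw [if_neg hij]
    have h1 := hev (Pi.single i 1 + Pi.single j 1)
    simp only [Pi.add_apply, mul_add, Finset.sum_add_distrib, hs] at h1
    linear_combination h1 - hd i - hd j

/-- the number of algebraically independent elements -/
lemma card_le (K F : Type u) {ι : Type} [Field K] [Field F] [Algebra K F] [Fintype ι] (x : ι → F)
    (hx : AlgebraicIndependent K x) (c : ℕ) (s : Fin c → F)
    (h : ∀ i, IsAlgebraic (Algebra.adjoin K (Set.range s)) (x i)) : Fintype.card ι ≤ c := by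
  have h1 : (AlgebraicIndependent.matroid K F).Indep (Set.range x) := hx.coe_range
  have h2 : Set.range x ⊆ (AlgebraicIndependent.matroid K F).closure (Set.range s) := by
    rw [AlgebraicIndependent.matroid_closure_eq]
    rintro _ ⟨i, rfl⟩
    exact h i
  have h3 := h1.encard_le_eRk_of_subset h2
  rw [Matroid.eRk_closure_eq] at h3
  have h4 := h3.trans (Matroid.eRk_le_encard _ _)
  have e1 : (Set.range x).encard = (Fintype.card ι : ℕ∞) := by
    rw [← Set.image_univ, hx.injective.injOn.encard_image, Set.encard_univ,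
      ENat.card_eq_coe_fintype_card]
  have e2 : (Set.range s).encard ≤ (c : ℕ∞) := by
    rw [← Set.image_univ]
    refine (Set.encard_image_le _ _).trans ?_
    rw [Set.encard_univ, ENat.card_eq_coe_fintype_card, Fintype.card_fin]
  rw [e1] at h4
  exact_mod_cast h4.trans e2

/-- the number of the pairs -/
lemma card_pairs (n : ℕ) (hn : 4 ≤ n) :
    4 * n ≤ Fintype.card {p : Fin n × Fin n // p.1 ≤ p.2 ∧ (p.1 : ℕ) < 4} + 6 := by
  have h1 : Fintype.card (Σ i : Fin 4, Fin (n - i)) ≤
      Fintype.card {p : Fin n × Fin n // p.1 ≤ p.2 ∧ (p.1 : ℕ) < 4} := by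
    refine Fintype.card_le_of_injective (fun q : (Σ i : Fin 4, Fin (n - i)) =>
      (⟨(⟨q.1, by have := q.1.2; omega⟩, ⟨q.1 + q.2, by have := q.2.2; omega⟩), by
        constructor
        · show (q.1 : ℕ) ≤ q.1 + q.2
          omega
        · exact q.1.2⟩ : {p : Fin n × Fin n // p.1 ≤ p.2 ∧ (p.1 : ℕ) < 4})) ?_
    rintro ⟨i, j⟩ ⟨i', j'⟩ h
    simp only [Subtype.mk.injEq, Prod.mk.injEq, Fin.mk.injEq] at h
    obtain ⟨h1, h2⟩ := h
    have h3 : i = i' := Fin.ext h1
    subst h3
    have h4 : j = j' := Fin.ext (by omega)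
    subst h4
    rfl
  rw [Fintype.card_sigma, Fin.sum_univ_four] at h1
  simp only [Fintype.card_fin] at h1
  simp at h1
  omega

/-- the coefficients and ring homomorphisms -/
lemma map_cfq {A B : Type u} [CommRing A] [CommRing B] (f : A →+* B) (l a y b : Fin n → A)
    (i j : Fin n) : f (cfq l a y b i j) =
      cfq (fun i => f (l i)) (fun i => f (a i)) (fun i => f (y i)) (fun i => f (b i)) i j := by
  unfold cfq
  split_ifs <;> simp

end QUA_

open QUA_ in
theorem p_QUA (h1 : T_INQ.{u}) (h2 : T_ALG.{u}) : T_QUA.{u} := by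
  intro K _ _ n W hn hW hh4
  classical
  have hfin : Module.Finite K (Rd K n 2) := (t_dimr K n 2).1
  let V : Submodule K (Rd K n 2) := W.comap (Rd K n 2).subtype
  have hV : Module.finrank K V = Module.finrank K W :=
    LinearEquiv.finrank_eq (Submodule.comapSubtypeEquivOfLe hW)
  have hq := Submodule.finrank_quotient_add_finrank V
  let c := Module.finrank K (Rd K n 2 ⧸ V)
  have hc : c + 7 ≤ 4 * n := by
    have h3 : c + Module.finrank K V = Module.finrank K (Rd K n 2) := hq
    unfold hh at hh4
    omega
  let B : Module.Basis (Fin c) K (Rd K n 2 ⧸ V) := Module.finBasis K _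
  have hXX : ∀ i j : Fin n, (X i : R K n) * X j ∈ Rd K n 2 := fun i j =>
    (isHomogeneous_X K i).mul (isHomogeneous_X K j)
  let lam : Fin c → Fin n → Fin n → K := fun k i j =>
    B.repr (V.mkQ ⟨(X i : R K n) * X j, hXX i j⟩) k
  by_contra hcon
  push Not at hcon
  have hTri : Tri lam K := by
    intro l a y b h
    have h3 : lin l * lin a + lin y * lin b ∈ Rd K n 2 :=
      Submodule.add_mem _ (MvPolynomial.IsHomogeneous.mul (lin_mem l) (lin_mem a))
        (MvPolynomial.IsHomogeneous.mul (lin_mem y) (lin_mem b))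
    have h4 : (⟨lin l * lin a + lin y * lin b, h3⟩ : Rd K n 2) =
        ∑ i, ∑ j, if i ≤ j then cfq l a y b i j • (⟨(X i : R K n) * X j, hXX i j⟩ : Rd K n 2)
          else 0 := by
      apply Subtype.ext
      refine (mul_eq l a y b).trans ?_
      rw [AddSubmonoidClass.coe_finsetSum]
      refine Finset.sum_congr rfl fun i _ => ?_
      rw [AddSubmonoidClass.coe_finsetSum]
      refine Finset.sum_congr rfl fun j _ => ?_
      split_ifs <;> rfl
    have h5 : V.mkQ ⟨lin l * lin a + lin y * lin b, h3⟩ = 0 := by
      apply B.repr.injective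
      rw [map_zero]
      ext k
      rw [h4]
      have h6 := h k
      unfold fnl at h6
      rw [Finsupp.zero_apply, ← h6, map_sum, map_sum, Finsupp.finsetSum_apply]
      refine Finset.sum_congr rfl fun i _ => ?_
      rw [map_sum, map_sum, Finsupp.finsetSum_apply]
      refine Finset.sum_congr rfl fun j _ => ?_
      split_ifs with hij
      · rw [map_smul, map_smul, Finsupp.smul_apply, smul_eq_mul, smul_eq_mul, mul_comm]
      · simp
    rw [Submodule.mkQ_apply, Submodule.Quotient.mk_eq_zero] at h5
    have h6 : lin l * lin a + lin y * lin b ∈ W := h5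
    have h7 := hcon _ (lin_mem l) _ (lin_mem a) _ (lin_mem y) _ (lin_mem b) h6
    exact cfq_zero l a y b h7
  let S := MvPolynomial (Fin 4 × Fin n) K
  let F := FractionRing S
  have hinj : Function.Injective (IsScalarTower.toAlgHom K S F) :=
    IsFractionRing.injective S F
  have halg := (h2 K n hn).map' hinj
  have hint := h1 K F n c lam hTri
    (fun i => algebraMap S F (X (0, i))) (fun i => algebraMap S F (X (1, i)))
    (fun i => algebraMap S F (X (2, i))) (fun i => algebraMap S F (X (3, i)))
  have h3 := card_le K F _ halg c _ (fun p => by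
    have h4 := (hint p.1.1 p.1.2).isAlgebraic
    rw [← map_cfq (algebraMap S F)] at h4
    exact h4)
  have h4 := card_pairs n hn
  omega

end

end Pool.Agent.EGN.B
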