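import Pool.Agent.EGB.Targets

set_option autoImplicit false
open MvPolynomial hiding R

/-!
# EGB, RDS: one step with a reducible quadric
-/

namespace Pool.Agent.EGN.B

open Pool.Agent.EGU Pool.Agent.EGS

universe u

noncomputable section

namespace RDS_

open Pool.Agent.EGN.STP_

section
variable {K : Type u} [Field K] {n : ℕ}

lemma mem_kl {l x : R K n} {W : Submodule K (R K n)} :
    x ∈ kl l W ↔ x ∈ Rd K n 1 ∧ l * x ∈ W := Iff.rfl

lemma mem_ql {l p : R K n} {W : Submodule K (R K n)} :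
    p ∈ ql l W ↔ p ∈ Rd K n 2 ∧ l * p ∈ (Rd K n 1 * W : Submodule K (R K n)) := Iff.rfl

lemma mem_soc {u : R K n} {W : Submodule K (R K n)} :
    u ∈ soc W ↔ u ∈ Rd K n 1 ∧ ∀ x ∈ Rd K n 1, x * u ∈ W := by
  unfold soc
  rw [Submodule.mem_inf, Submodule.mem_iInf]
  constructor
  · rintro ⟨h1, h2⟩
    exact ⟨h1, fun x hx => h2 ⟨x, hx⟩⟩
  · rintro ⟨h1, h2⟩
    exact ⟨h1, fun x => h2 x.1 x.2⟩

/-- For `l ≠ 0` there is `x` with `l x ∉ W`. -/
lemma ex_not {W : Submodule K (R K n)} (hs : soc W = ⊥) {l : R K n} (hl : l ∈ Rd K n 1)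
    (hl0 : l ≠ 0) : ∃ x ∈ Rd K n 1, l * x ∉ W := by
  by_contra h
  push Not at h
  have h1 : l ∈ soc W := mem_soc.2 ⟨hl, fun x hx => by rw [mul_comm]; exact h x hx⟩
  rw [hs, Submodule.mem_bot] at h1
  exact hl0 h1

lemma kl_lt {W : Submodule K (R K n)} (hs : soc W = ⊥) {l : R K n} (hl : l ∈ Rd K n 1)
    (hl0 : l ≠ 0) : Module.finrank K (kl l W) < n := by
  obtain ⟨x, hx, hlx⟩ := ex_not hs hl hl0
  have : Module.Finite K (Rd K n 1) := (t_dimr K n 1).1
  have h1 : kl l W < Rd K n 1 := by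
    refine lt_of_le_of_ne (kl_le l W) fun h => ?_
    have : x ∈ kl l W := h ▸ hx
    exact hlx this.2
  have h2 := Submodule.finrank_lt_finrank_of_lt h1
  rwa [(t_dimr K n 1).2.2] at h2

lemma xR_le {W : Submodule K (R K n)} {l u : R K n} (hu : u ∈ kl l W) : xR u ≤ ql l W := by
  rintro _ ⟨y, hy, rfl⟩
  refine ⟨mem2 hu.1 hy, ?_⟩
  change l * (u * y) ∈ (Rd K n 1 * W : Submodule K (R K n))
  rw [show l * (u * y) = y * (l * u) by ring]
  exact Submodule.mul_mem_mul hy hu.2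

lemma sup_eq {W : Submodule K (R K n)} (hW : W ≤ Rd K n 2) {u : R K n} (hu : u ∈ Rd K n 1)
    (hu0 : u ≠ 0) : Module.finrank K (W ⊔ xR u : Submodule K (R K n)) +
      Module.finrank K (kl u W) = Module.finrank K W + n := by
  have fW : Module.Finite K W := fin_le hW
  have hX : xR u ≤ Rd K n 2 := by
    rintro _ ⟨y, hy, rfl⟩
    exact mem2 hu hy
  have fX : Module.Finite K (xR u) := fin_le hX
  have c1 := Submodule.finrank_sup_add_finrank_inf_eq W (xR u)
  rw [← inf_eq, finrank_map u hu0] at c1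
  have c2 : Module.finrank K (xR u) = n := by
    unfold xR
    rw [finrank_map u hu0, (t_dimr K n 1).2.2]
  omega

/-- The common bound. -/
lemma common {W : Submodule K (R K n)} (hW : W ≤ Rd K n 2) {l u : R K n} (hl : l ∈ Rd K n 1)
    (hu : u ∈ kl l W) (hu0 : u ≠ 0) :
    Module.finrank K W + n ≤ Module.finrank K (ql l W) + Module.finrank K (kl u W) := by
  have fq : Module.Finite K (ql l W) := fin_le (ql_le _ _)
  have c1 := sup_eq hW hu.1 hu0
  have c3 := Submodule.finrank_mono (sup_le (le_ql hl hW) (xR_le hu))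
  omega

lemma kl_soc {W : Submodule K (R K n)} {l : R K n} : kl l W ≤ soc (ql l W) := by
  intro u hu
  refine mem_soc.2 ⟨hu.1, fun y hy => ⟨mem2 hy hu.1, ?_⟩⟩
  change l * (y * u) ∈ (Rd K n 1 * W : Submodule K (R K n))
  rw [show l * (y * u) = y * (l * u) by ring]
  exact Submodule.mul_mem_mul hy hu.2

lemma fin_soc (W : Submodule K (R K n)) : Module.Finite K (soc W) :=
  fin_le (d := 1) inf_le_left

/-- Case (a). -/
lemma soc_ql {W : Submodule K (R K n)} {l z y m : R K n}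
    (hz : ∀ y ∈ Rd K n 1, ∃ m ∈ Rd K n 1, z * y - l * m ∈ W)
    (hy : y ∈ kl l W) (hm : m ∈ Rd K n 1) (h : z * y - l * m ∈ W) : m ∈ soc (ql l W) := by
  refine mem_soc.2 ⟨hm, fun y' hy' => ⟨mem2 hy' hm, ?_⟩⟩
  change l * (y' * m) ∈ (Rd K n 1 * W : Submodule K (R K n))
  obtain ⟨m', hm', h'⟩ := hz y' hy'
  have e : l * (y' * m) = m' * (l * y) + y * (z * y' - l * m') - y' * (z * y - l * m) := by ring
  rw [e]
  exact Submodule.sub_mem _ (Submodule.add_mem _ (Submodule.mul_mem_mul hm' hy.2)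
    (Submodule.mul_mem_mul hy.1 h')) (Submodule.mul_mem_mul hy' h)

/-- The maximal value. -/
lemma ex_max {W : Submodule K (R K n)} (h : ¬ NRs W) : ∃ κ : ℕ, 1 ≤ κ ∧
    (∃ l ∈ Rd K n 1, l ≠ 0 ∧ Module.finrank K (kl l W) = κ) ∧
    ∀ l ∈ Rd K n 1, l ≠ 0 → Module.finrank K (kl l W) ≤ κ := by
  unfold NRs at h
  push Not at h
  obtain ⟨l, hl, x, hx, hlx, hl0, hx0⟩ := h
  let S : Set ℕ := {k | ∃ l ∈ Rd K n 1, l ≠ 0 ∧ Module.finrank K (kl l W) = k}
  have hb : BddAbove S := ⟨n, by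
    rintro _ ⟨l, -, -, rfl⟩
    exact finrank_kl_le l W⟩
  have hS : S.Nonempty := ⟨_, l, hl, hl0, rfl⟩
  have hmax : ∀ l ∈ Rd K n 1, l ≠ 0 → Module.finrank K (kl l W) ≤ sSup S :=
    fun l hl hl0 => le_csSup hb ⟨l, hl, hl0, rfl⟩
  refine ⟨sSup S, ?_, Nat.sSup_mem hS hb, hmax⟩
  refine le_trans ?_ (hmax l hl hl0)
  have f1 : Module.Finite K (kl l W) := fin_le (kl_le l W)
  have h1 : (⟨x, hx, hlx⟩ : kl l W) ≠ 0 := fun h => hx0 (congrArg Subtype.val h)
  have : Nontrivial (kl l W) := ⟨⟨_, 0, h1⟩⟩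
  exact Module.finrank_pos

end

/-- Case (b). -/
lemma caseb (h1 : T_EGV.{u}) {K : Type u} [Field K] [IsAlgClosed K] {n : ℕ}
    {W : Submodule K (R K n)} (hs : soc W = ⊥) {l z : R K n} (hl : l ∈ Rd K n 1) (hl0 : l ≠ 0)
    (hzR : z ∈ Rd K n 1) (hzc : ∀ c : K, z ≠ c • l)
    (hz : ∀ y ∈ Rd K n 1, ∃ m ∈ Rd K n 1, z * y - l * m ∈ W)
    (hb : ∀ y ∈ kl l W, z * y ∈ W) :
    ∃ z' ∈ Rd K n 1, z' ≠ 0 ∧ Module.finrank K (kl l W) < Module.finrank K (kl z' W) := by
  have f1 : Module.Finite K (Rd K n 1) := (t_dimr K n 1).1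
  let L : Rd K n 1 →ₗ[K] (R K n ⧸ W) :=
    W.mkQ ∘ₗ LinearMap.mulLeft K l ∘ₗ (Rd K n 1).subtype
  let Z : Rd K n 1 →ₗ[K] (R K n ⧸ W) :=
    W.mkQ ∘ₗ LinearMap.mulLeft K z ∘ₗ (Rd K n 1).subtype
  have eL : ∀ y, L y = W.mkQ (l * (y : R K n)) := fun _ => rfl
  have eZ : ∀ y, Z y = W.mkQ (z * (y : R K n)) := fun _ => rfl
  have hr : LinearMap.range Z ≤ LinearMap.range L := by
    rintro _ ⟨y, rfl⟩
    obtain ⟨m, hm, h⟩ := hz y.1 y.2
    refine ⟨⟨m, hm⟩, ?_⟩
    rw [eL, eZ, eq_comm, ← sub_eq_zero, ← map_sub, Submodule.mkQ_apply,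
      Submodule.Quotient.mk_eq_zero]
    exact h
  have hk : LinearMap.ker L ≤ LinearMap.ker Z := by
    intro y hy
    rw [LinearMap.mem_ker, eL, Submodule.mkQ_apply, Submodule.Quotient.mk_eq_zero] at hy
    rw [LinearMap.mem_ker, eZ, Submodule.mkQ_apply, Submodule.Quotient.mk_eq_zero]
    exact hb y.1 ⟨y.2, hy⟩
  have hx : ∃ x, L x ≠ 0 := by
    obtain ⟨x, hx, h⟩ := ex_not hs hl hl0
    refine ⟨⟨x, hx⟩, ?_⟩
    rw [eL, Submodule.mkQ_apply, Ne, Submodule.Quotient.mk_eq_zero]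
    exact h
  obtain ⟨μ, x, hx1, hx2⟩ := h1 K (Rd K n 1) (R K n ⧸ W) L Z hr hk hx
  rw [eL, Submodule.mkQ_apply, Ne, Submodule.Quotient.mk_eq_zero] at hx1
  rw [eL, eZ, ← map_smul, ← sub_eq_zero, ← map_sub, Submodule.mkQ_apply,
    Submodule.Quotient.mk_eq_zero] at hx2
  have hz' : z - μ • l ∈ Rd K n 1 := Submodule.sub_mem _ hzR (Submodule.smul_mem _ _ hl)
  refine ⟨z - μ • l, hz', fun h => hzc μ (sub_eq_zero.1 h), ?_⟩
  have f2 : Module.Finite K (kl (z - μ • l) W) := fin_le (kl_le _ W)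
  apply Submodule.finrank_lt_finrank_of_lt
  refine lt_of_le_of_ne ?_ ?_
  · intro y hy
    refine ⟨hy.1, ?_⟩
    change (z - μ • l) * y ∈ W
    rw [sub_mul, smul_mul_assoc]
    exact Submodule.sub_mem _ (hb y hy) (Submodule.smul_mem _ _ hy.2)
  · intro h
    have h2 : (x : R K n) ∈ kl (z - μ • l) W := by
      refine ⟨x.2, ?_⟩
      change (z - μ • l) * (x : R K n) ∈ W
      rw [sub_mul, smul_mul_assoc]
      exact hx2
    rw [← h] at h2
    exact hx1 h2.2

end RDS_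

open RDS_ Pool.Agent.EGN.STP_ in
/-- RDS. -/
theorem p_RDS (h1 : T_EGV.{u}) (h2 : T_EL2.{u}) : T_RDS.{u} := by
  intro K _ _ n W hW hs hN
  obtain ⟨κ, hκ, ⟨l0, hl0R, hl00, hl0κ⟩, hmax⟩ := ex_max hN
  have hsys := hW
  obtain ⟨f, hf1, hf2, hWR⟩ := hsys
  have f2 : Module.Finite K (Rd K (n + 1) 2) := (t_dimr K (n + 1) 2).1
  have hSq : ∀ l ∈ Rd K (n + 1) 1, Sys K (n + 1) (ql l W) := fun l hl =>
    ⟨f, hf1, hf2.trans (le_ql hl hWR), ql_le _ _⟩
  have hκn := kl_lt hs hl0R hl00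
  rw [hl0κ] at hκn
  have hex : ∀ l ∈ Rd K (n + 1) 1, Module.finrank K (kl l W) = κ →
      ∃ u ∈ kl l W, u ≠ 0 := by
    intro l _ hlκ
    have hne : kl l W ≠ ⊥ := by
      intro h
      rw [h, finrank_bot] at hlκ
      omega
    obtain ⟨u, hu, hu0⟩ := Submodule.exists_mem_ne_zero_of_ne_bot hne
    exact ⟨u, hu, hu0⟩
  by_cases hii : ∃ l ∈ Rd K (n + 1) 1, l ≠ 0 ∧ Module.finrank K (kl l W) = κ ∧
      ∃ z ∈ Rd K (n + 1) 1, (∀ c : K, z ≠ c • l) ∧
        ∀ y ∈ Rd K (n + 1) 1, ∃ m ∈ Rd K (n + 1) 1, z * y - l * m ∈ W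
  · obtain ⟨l, hl, hl0, hlκ, z, hzR, hzc, hz⟩ := hii
    obtain ⟨θ, -, -, -, -, hS', e1, e2⟩ := h2 K n W hW l hl hl0
    obtain ⟨u, hu, hu0⟩ := hex l hl hlκ
    have c0 := hmax u hu.1 hu0
    have c1 := common hWR hl hu hu0
    have aq := Submodule.finrank_mono (ql_le l W)
    have aW := Submodule.finrank_mono hWR
    by_cases ha : ∀ y ∈ kl l W, ∀ m ∈ Rd K (n + 1) 1, z * y - l * m ∈ W → m ∈ kl l W
    · exfalso
      have hb : ∀ y ∈ kl l W, z * y ∈ W := by
        intro y hy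
        obtain ⟨m, hm, h⟩ := hz y hy.1
        have h3 := (ha y hy m hm h).2
        have h4 := Submodule.add_mem _ h h3
        change z * y - l * m + l * m ∈ W at h4
        rwa [sub_add_cancel] at h4
      obtain ⟨z', hz', hz'0, hlt⟩ := caseb h1 hs hl hl0 hzR hzc hz hb
      have := hmax z' hz' hz'0
      omega
    · push Not at ha
      obtain ⟨y, hy, m, hm, h, hmk⟩ := ha
      have hlt : kl l W < soc (ql l W) := by
        refine lt_of_le_of_ne kl_soc fun h3 => hmk ?_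
        rw [h3]
        exact soc_ql hz hy hm h
      have fs := fin_soc (ql l W)
      have d1 := Submodule.finrank_lt_finrank_of_lt hlt
      have d2 := p_SOQ p_ELM K (n + 1) _ (hSq l hl)
      refine ⟨l, hl, hl0, n + 1 - κ, by omega, by omega, by omega, W.map θ.toLinearMap, hS',
        by omega, ?_, Or.inr ?_⟩
      · unfold hh
        omega
      · have d3 : (n + 1 - Module.finrank K (soc (ql l W))).choose 2 ≤
            (n + 1 - κ - 1).choose 2 := Nat.choose_le_choose 2 (by omega)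
        unfold hh at d2
        omega
  · push Not at hii
    have hii' : ∀ l ∈ Rd K (n + 1) 1, l ≠ 0 → Module.finrank K (kl l W) = κ →
        ∀ z ∈ Rd K (n + 1) 1,
          (∀ y ∈ Rd K (n + 1) 1, ∃ m ∈ Rd K (n + 1) 1, z * y - l * m ∈ W) →
          ∃ c : K, z = c • l := by
      intro l hl hl0 hlκ z hz h
      by_contra hc
      push Not at hc
      obtain ⟨y, hy, h3⟩ := hii l hl hl0 hlκ z hz hc
      obtain ⟨m, hm, h4⟩ := h y hy
      exact h3 m hm h4
    obtain ⟨θ, hθ1, hθ2, hθ3, hθ4, hS', e1, e2⟩ := h2 K n W hW l0 hl0R hl00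
    obtain ⟨u, hu, hu0⟩ := hex l0 hl0R hl0κ
    have c0 := hmax u hu.1 hu0
    have c1 := common hWR hl0R hu hu0
    have aq := Submodule.finrank_mono (ql_le l0 W)
    have aW := Submodule.finrank_mono hWR
    have fs := fin_soc (ql l0 W)
    have d1 := Submodule.finrank_mono (kl_soc (W := W) (l := l0))
    have d2 := p_SOQ p_ELM K (n + 1) _ (hSq l0 hl0R)
    refine ⟨l0, hl0R, hl00, n + 1 - κ, by omega, by omega, by omega, W.map θ.toLinearMap, hS',
      by omega, ?_, Or.inl ⟨?_, ?_, ?_⟩⟩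
    · unfold hh
      omega
    · rw [eq_bot_iff]
      intro w hw
      rw [Submodule.mem_bot]
      rw [mem_soc] at hw
      obtain ⟨z, hz, hzw⟩ := hθ2 1 w hw.1
      obtain ⟨c, hc⟩ := hii' l0 hl0R hl00 hl0κ z hz (by
        intro y hy
        have h3 := hw.2 (θ y) (hθ1 1 y hy)
        obtain ⟨w0, hw0, h4⟩ := h3
        have h5 : θ (z * y - w0) = 0 := by
          have h4' : θ w0 = θ y * w := h4
          rw [map_sub, map_mul, h4', hzw]
          ring
        obtain ⟨m, hm, h6⟩ := hθ4 1 (z * y - w0)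
          (Submodule.sub_mem _ (mem2 hz hy) (hWR hw0)) h5
        refine ⟨m, hm, ?_⟩
        rw [← h6, sub_sub_cancel]
        exact hw0)
      rw [← hzw, hc, map_smul, hθ3, smul_zero]
    · have d3 : (n + 1 - Module.finrank K (soc (ql l0 W))).choose 2 ≤
          (n + 1 - κ).choose 2 := Nat.choose_le_choose 2 (by omega)
      unfold hh at d2
      omega
    · intro hρ
      have fq : Module.Finite K (ql l0 W) := fin_le (ql_le _ _)
      suffices hq : Module.finrank K W + (n + 1 - κ) + 1 ≤ Module.finrank K (ql l0 W) by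
        unfold hh
        omega
      by_cases hc : Module.finrank K (kl u W) = κ
      · have hex2 : ∃ u2 ∈ kl l0 W, ∀ c : K, u2 ≠ c • u := by
          by_contra h
          push Not at h
          have h3 : kl l0 W ≤ Submodule.span K {u} := by
            intro x hx
            obtain ⟨c, hc⟩ := h x hx
            rw [hc]
            exact Submodule.smul_mem _ _ (Submodule.mem_span_singleton_self u)
          have h4 := Submodule.finrank_mono h3
          rw [finrank_span_singleton hu0] at h4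
          omega
        obtain ⟨u2, hu2, hu2c⟩ := hex2
        have h3 : ¬ ∀ y ∈ Rd K (n + 1) 1, ∃ m ∈ Rd K (n + 1) 1, u2 * y - u * m ∈ W := by
          intro h
          obtain ⟨c, hc'⟩ := hii' u hu.1 hu0 hc u2 hu2.1 h
          exact hu2c c hc'
        push Not at h3
        obtain ⟨y, hy, h4⟩ := h3
        have h5 : W ⊔ xR u < ql l0 W := by
          refine lt_of_le_of_ne (sup_le (le_ql hl0R hWR) (xR_le hu)) fun h6 => ?_
          have h7 : u2 * y ∈ ql l0 W := xR_le hu2 ⟨y, hy, rfl⟩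
          rw [← h6, Submodule.mem_sup] at h7
          obtain ⟨w, hw, v, ⟨m, hm, hv⟩, h8⟩ := h7
          refine h4 m hm ?_
          have hv' : u * m = v := hv
          rw [hv', ← h8, add_sub_cancel_right]
          exact hw
        have h6 := Submodule.finrank_lt_finrank_of_lt h5
        have h7 := sup_eq hWR hu.1 hu0
        omega
      · omega

end

end Pool.Agent.EGN.B
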