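import Pool.Agent.EGB.Targets

/-!
# EGB, SCL: reduction to socle zero
-/

set_option autoImplicit false
open MvPolynomial hiding R

namespace Pool.Agent.EGN.B

open Pool.Agent.EGU Pool.Agent.EGS

universe u

namespace SCL_

/-- Quadrics are sums of products of linear forms. -/
theorem rd2 {K : Type u} [Field K] {n : ℕ} :
    Rd K n 2 = (Rd K n 1 * Rd K n 1 : Submodule K (R K n)) := by
  have h := homogeneousSubmodule_one_pow (σ := Fin n) (R := K) 2
  rw [pow_two] at h
  exact h.symm

/-- A socle element kills all quadrics modulo the cubics of `W`. -/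
theorem ql_soc {K : Type u} [Field K] {n : ℕ} (W : Submodule K (R K n)) (l : R K n)
    (hl : l ∈ soc W) : ql l W = Rd K n 2 := by
  unfold ql
  rw [inf_eq_left]
  intro p hp
  show l * p ∈ (Rd K n 1 * W : Submodule K (R K n))
  have h1 : l ∈ ⨅ y : Rd K n 1, W.comap (LinearMap.mulLeft K (y : R K n)) := hl.2
  rw [Submodule.mem_iInf] at h1
  rw [rd2] at hp
  refine Submodule.mul_induction_on hp ?_ ?_
  · intro x hx y hy
    have h2 : x * l ∈ W := h1 ⟨x, hx⟩
    have h3 := Submodule.mul_mem_mul hy h2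
    have e : l * (x * y) = y * (x * l) := by ring
    rw [e]
    exact h3
  · intro x y hx hy
    rw [mul_add]
    exact Submodule.add_mem _ hx hy

end SCL_

open SCL_ in
/-- SCL. -/
theorem p_SCL (h : T_EL2.{u}) : T_SCL.{u} := by
  intro K _ _ n
  induction n with
  | zero =>
    intro W hW
    refine ⟨0, le_rfl, W, hW, ?_, rfl, rfl⟩
    have h1 : soc W ≤ Rd K 0 1 := inf_le_left
    have h2 : Module.Finite K (Rd K 0 1) := (t_dimr K 0 1).1
    have h3 := Submodule.finrank_mono h1
    rw [(t_dimr K 0 1).2.2] at h3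
    have h4 : Module.Finite K (soc W) := Submodule.finiteDimensional_of_le h1
    exact Submodule.finrank_eq_zero.1 (by omega)
  | succ n ih =>
    intro W hW
    by_cases h0 : soc W = ⊥
    · exact ⟨n + 1, le_rfl, W, hW, h0, rfl, rfl⟩
    · obtain ⟨l, hl, hl0⟩ := Submodule.exists_mem_ne_zero_of_ne_bot h0
      have hl1 : l ∈ Rd K (n + 1) 1 := hl.1
      obtain ⟨θ, _, _, _, _, hS, e1, e2⟩ := h K n W hW l hl1 hl0
      rw [SOQ_.kl_soc W l hl, (t_dimr K (n + 1) 1).2.2] at e1
      rw [ql_soc W l hl] at e2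
      obtain ⟨m, hm, W', hW', hs', a1, a2⟩ := ih (W.map θ.toLinearMap) hS
      exact ⟨m, by omega, W', hW', hs', by omega, by omega⟩

end Pool.Agent.EGN.B
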