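import Pool.Agent.EGB.TabDefs

set_option autoImplicit false

/-!
# Project EGB: evaluation of the tables, second part
-/

namespace Pool.Agent.EGN.B.TAB_

theorem kB : allB 60 (fun k => allB (k + 1) (fun j => chkB (k + 3) (c2 (k + 1) + 1 + j))) = true := by
  decide +kernel

/-- The blocks `60` and `61` and the values at the binomials. -/
def chkP (m r : ℕ) : Bool :=
  Nat.ble (8 * lk nT (c2 m - r) + r * (4 * m + 2)) (8 * c3 m + r * r) &&
  Nat.ble (8 * lk nT (c2 m - r) + 6 * m * r + 5) (8 * c3 m + m * m + r * r + 4 * m + 4 * r)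

theorem kP : (allB 60 (fun r => chkP 60 r) && allB 61 (fun r => chkP 61 r)) = true := by
  decide +kernel

theorem kQ : allB 62 (fun m => Nat.ble (lk nT (c2 m)) (c3 m)) = true := by decide +kernel

end Pool.Agent.EGN.B.TAB_
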