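import Pool.Agent.EGB.TabChk1
import Pool.Agent.EGB.TabChk2

set_option autoImplicit false

/-!
# Project EGB, target TAB
-/

namespace Pool.Agent.EGN.B

namespace TAB_

theorem c2_succ (n : ℕ) : c2 (n + 1) = c2 n + n := by
  have h1 : c2 (n + 1) = (n + 1).choose 2 := (Nat.choose_two_right (n + 1)).symm
  have h2 : c2 n = n.choose 2 := (Nat.choose_two_right n).symm
  have h3 : (n + 1).choose 2 = n.choose 1 + n.choose 2 := Nat.choose_succ_succ n 1
  rw [h1, h2, h3, Nat.choose_one_right]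
  omega

theorem c2_mono {a b : ℕ} (h : a ≤ b) : c2 a ≤ c2 b := by
  have h1 : c2 a = a.choose 2 := (Nat.choose_two_right a).symm
  have h2 : c2 b = b.choose 2 := (Nat.choose_two_right b).symm
  rw [h1, h2]
  exact Nat.choose_le_choose 2 h

theorem c2_61 : c2 61 = 1830 := by decide

theorem c3_eq (n : ℕ) : n.choose 3 = c3 n := by
  rw [Nat.choose_eq_descFactorial_div_factorial]
  have h1 : n.descFactorial 3 = n * (n - 1) * (n - 2) := by
    rw [Nat.descFactorial_succ, Nat.descFactorial_succ, Nat.descFactorial_succ,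
      Nat.descFactorial_zero]
    rw [Nat.sub_zero]
    ring
  rw [h1]
  rfl

theorem g_val (n : ℕ) : ∀ w : ℕ, 2 * w ≤ n → w * (n - 1 - w) ≤ g n w := by
  intro w
  induction w with
  | zero => intro _; simp
  | succ w ih =>
    intro h
    have h1 := ih (by omega)
    have h2 : g n (w + 1) = g n w + (n - (2 + 2 * w)) := by
      unfold g
      rw [Finset.sum_range_succ]
    rw [h2]
    obtain ⟨k, rfl⟩ : ∃ k, n = 2 * (w + 1) + k := ⟨n - 2 * (w + 1), by omega⟩
    have e1 : 2 * (w + 1) + k - 1 - w = w + 1 + k := by omega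
    have e2 : 2 * (w + 1) + k - 1 - (w + 1) = w + k := by omega
    have e3 : 2 * (w + 1) + k - (2 + 2 * w) = k := by omega
    rw [e1] at h1
    rw [e2, e3]
    nlinarith

theorem g_mono (n : ℕ) {a b : ℕ} (h : a ≤ b) : g n a ≤ g n b := by
  unfold g
  apply Finset.sum_le_sum_of_subset
  intro x hx
  rw [Finset.mem_range] at hx ⊢
  omega

theorem gB_le (n v : ℕ) : gB n v ≤ g n v := by
  unfold gB
  rw [mn_eq]
  refine (g_val n (min v (n / 2)) ?_).trans (g_mono n (min_le_left _ _))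
  have h1 : min v (n / 2) ≤ n / 2 := min_le_right _ _
  omega

theorem cond_or (b : Bool) (x : Bool) (h : (bif b then x else true) = true) (hb : b = true) :
    x = true := by
  subst hb
  exact h

theorem ble_iff (a b : ℕ) : Nat.ble a b = true ↔ a ≤ b :=
  ⟨Nat.le_of_ble_eq_true, Nat.ble_eq_true_of_le⟩

theorem bnot (a b : ℕ) (h : b < a) : Nat.ble a b = false := by
  rw [Bool.eq_false_iff]
  intro h1
  have := Nat.le_of_ble_eq_true h1
  omega

theorem nsB_eq (n h : ℕ) : nsB n h = tt0.ns n h := by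
  unfold nsB Tb.ns
  rcases Nat.lt_or_ge (c2 (n - 1)) h with h1 | h1
  · rw [bnot _ _ h1, cond_false, if_pos h1]
    rfl
  · rw [(ble_iff _ _).mpr h1, cond_true, if_neg (by omega)]
    rcases Nat.lt_or_ge (c2 (n - 2)) h with h2 | h2
    · rw [bnot _ _ h2, cond_false, if_pos h2]
      rfl
    · rw [(ble_iff _ _).mpr h2, cond_true, if_neg (by omega)]
      rfl

theorem nrB_eq (n h : ℕ) : nrB n h = tt0.nr n h := by
  unfold nrB Tb.nr
  rcases Nat.lt_or_ge (c2 (n - 1)) h with h1 | h1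
  · rw [bnot _ _ h1, cond_false, if_pos h1]
    rfl
  · rw [(ble_iff _ _).mpr h1, cond_true, if_neg (by omega)]
    rcases Nat.lt_or_ge (c2 (n - 2)) h with h2 | h2
    · rw [bnot _ _ h2, cond_false, if_pos h2]
      rfl
    · rw [(ble_iff _ _).mpr h2, cond_true, if_neg (by omega)]
      rfl

theorem eps_eq (r n : ℕ) : (bif Nat.ble (r + 2) n then 1 else 0) = (if r + 2 ≤ n then 1 else 0) := by
  rcases Nat.lt_or_ge n (r + 2) with h | h
  · rw [bnot _ _ h, cond_false, if_neg (by omega)]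
  · rw [(ble_iff _ _).mpr h, cond_true, if_pos h]

theorem rdB_spec (n h r X : ℕ) (hb : rdB n h r X = true) : tt0.rd n h r ≤ X := by
  unfold rdB at hb
  rw [Bool.and_eq_true] at hb
  obtain ⟨h1, h2⟩ := hb
  unfold Tb.rd
  apply max_le
  · split_ifs with h3 h4
    · have h5 := cond_or _ _ h1 ((ble_iff _ _).mpr h3)
      rw [ble_iff, mn_eq, nsB_eq, eps_eq, if_pos h4] at h5
      exact h5
    · have h5 := cond_or _ _ h1 ((ble_iff _ _).mpr h3)
      rw [ble_iff, mn_eq, nsB_eq, eps_eq, if_neg h4] at h5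
      exact h5
    · exact Nat.zero_le _
  · rw [ble_iff, mn_eq] at h2
    exact h2

theorem rdsB_spec (n h X : ℕ) (hb : rdsB n h X = true) :
    ∀ r, 1 ≤ r → r + 1 ≤ n → r ≤ h → tt0.rd n h r ≤ X := by
  intro r h1 h2 h3
  unfold rdsB at hb
  have h4 := allB_spec _ _ hb (r - 1) (by omega)
  have h5 : r - 1 + 1 = r := by omega
  have h6 := cond_or _ _ h4 ((ble_iff _ _).mpr (by omega))
  rw [h5] at h6
  exact rdB_spec n h r X h6

theorem nrcB_spec (n h X : ℕ) (hb : nrcB n h X = true) : tt0.nrc n h X := by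
  unfold nrcB at hb
  intro h1
  have h2 := cond_or _ _ hb ((ble_iff _ _).mpr h1)
  rw [Bool.and_eq_true] at h2
  obtain ⟨h3, h4⟩ := h2
  refine ⟨fun h5 => ?_, fun r h5 h6 h7 => ?_⟩
  · have h8 := cond_or _ _ h3 ((ble_iff _ _).mpr (by omega))
    rw [ble_iff, nrB_eq] at h8
    exact h8
  · have h8 := allB_spec _ _ h4 (r - 1) (by omega)
    have h9 : r - 1 + 1 = r := by omega
    have h10 : n - 2 - (r - 1) = n - 1 - r := by omega
    have h11 := cond_or _ _ h8 ((ble_iff _ _).mpr (by omega))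
    rw [Bool.and_eq_true, h9, h10] at h11
    obtain ⟨h12, h13⟩ := h11
    rw [ble_iff] at h12
    have h14 := rdB_spec _ _ _ _ h13
    rw [mn_eq] at h12 h14
    omega

theorem blk_spec (a b : ℕ) (f : ℕ → ℕ → Bool) (hb : blk a b f = true) (ha : 1 ≤ a) (n h : ℕ)
    (h1 : a ≤ n) (h2 : n < a + b) (h3 : c2 (n - 1) < h) (h4 : h ≤ c2 n) : f n h = true := by
  unfold blk at hb
  have h5 := allB_spec _ _ hb (n - a) (by omega)
  have h6 : a + (n - a) = n := by omega
  rw [h6] at h5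
  have h7 : c2 n = c2 (n - 1) + (n - 1) := by
    obtain ⟨k, rfl⟩ : ∃ k, n = k + 1 := ⟨n - 1, by omega⟩
    rw [c2_succ, Nat.add_sub_cancel]
  have h8 := allB_spec _ _ h5 (h - c2 (n - 1) - 1) (by omega)
  have h9 : c2 (n - 1) + 1 + (h - c2 (n - 1) - 1) = h := by omega
  rw [h9] at h8
  exact h8

theorem blk2_spec (f : ℕ → ℕ → Bool)
    (hb : allB 60 (fun k => allB (k + 1) (fun j => f (k + 3) (c2 (k + 1) + 1 + j))) = true)
    (n h : ℕ) (h1 : 3 ≤ n) (h2 : n < 63) (h3 : c2 (n - 2) < h) (h4 : h ≤ c2 (n - 1)) :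
    f n h = true := by
  have h5 := allB_spec _ _ hb (n - 3) (by omega)
  have h6 : n - 3 + 3 = n := by omega
  have h6' : n - 3 + 1 = n - 2 := by omega
  rw [h6, h6'] at h5
  have h7 : c2 (n - 1) = c2 (n - 2) + (n - 2) := by
    obtain ⟨k, rfl⟩ : ∃ k, n = k + 2 := ⟨n - 2, by omega⟩
    have e1 : k + 2 - 1 = k + 1 := by omega
    rw [e1, c2_succ, Nat.add_sub_cancel]
  have h8 := allB_spec _ _ h5 (h - c2 (n - 2) - 1) (by omega)
  have h9 : c2 (n - 2) + 1 + (h - c2 (n - 2) - 1) = h := by omega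
  rw [h9] at h8
  exact h8

theorem lt62 {n h : ℕ} (h1 : h ≤ 1830) (h2 : c2 (n - 1) < h) : n < 62 := by
  by_contra h3
  have h4 : c2 61 ≤ c2 (n - 1) := c2_mono (by omega)
  rw [c2_61] at h4
  omega

theorem lt63 {n h : ℕ} (h1 : h ≤ 1830) (h2 : c2 (n - 2) < h) : n < 63 := by
  by_contra h3
  have h4 : c2 61 ≤ c2 (n - 2) := c2_mono (by omega)
  rw [c2_61] at h4
  omega

theorem cl : tt0.Cl 1830 := by
  refine ⟨?_, ?_, ?_, ?_, ?_, ?_, ?_, ?_, ?_⟩
  · intro h hh
    have h1 := allB_spec _ _ kM h hh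
    unfold chkM at h1
    rw [Bool.and_eq_true, ble_iff, ble_iff] at h1
    exact h1.1
  · intro h hh
    have h1 := allB_spec _ _ kM h hh
    unfold chkM at h1
    rw [Bool.and_eq_true, ble_iff, ble_iff] at h1
    exact h1.2
  · intro h hh
    have h1 := allB_spec _ _ kL h (by omega)
    unfold chkL at h1
    simp only [Bool.and_eq_true, ble_iff] at h1
    exact ⟨h1.1, h1.2.1, h1.2.2.1⟩
  · intro h hh
    have h1 := allB_spec _ _ kL h (by omega)
    unfold chkL at h1
    simp only [Bool.and_eq_true, ble_iff] at h1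
    exact ⟨h1.2.2.2.1, h1.2.2.2.2⟩
  · intro n h h1 h2 h3 h4
    have h5 := blk_spec 2 60 chkE kE (by omega) n h h1 (lt62 h2 h3) h3 h4
    unfold chkE at h5
    rw [Bool.or_eq_true, Bool.and_eq_true, ble_iff, ble_iff] at h5
    rcases h5 with h5 | h5
    · left
      rw [c3_eq]
      exact h5.trans (Nat.add_le_add_left (gB_le _ _) _)
    · right
      exact ⟨h5.1, rdsB_spec _ _ _ h5.2⟩
  · intro n h h1 h2 h3 h4
    have h5 := blk_spec 2 60 chkA kA (by omega) n h h1 (lt62 h2 h3) h3 h4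
    unfold chkA at h5
    rw [Bool.or_eq_true, ble_iff] at h5
    rcases h5 with h5 | h5
    · left
      rw [c3_eq]
      exact h5.trans (Nat.add_le_add_left (gB_le _ _) _)
    · right
      exact nrcB_spec _ _ _ h5
  · intro n h h1 h2 h3 h4
    have h5 := blk2_spec chkG kG n h h1 (lt63 h2 h3) h3 h4
    unfold chkG at h5
    rw [Bool.and_eq_true, ble_iff] at h5
    exact ⟨h5.1, rdsB_spec _ _ _ h5.2⟩
  · intro n h h1 h2 h3 h4
    have h5 := blk2_spec chkB kB n h h1 (lt63 h2 h3) h3 h4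
    exact nrcB_spec _ _ _ h5
  · intro m h h1 h2 h3 h4
    have h5 := blk_spec 2 60 chkH kH (by omega) m h h1 (lt62 h2 h3) h3 h4
    unfold chkH at h5
    rw [Bool.and_eq_true, Bool.and_eq_true] at h5
    obtain ⟨h6, h7, h8⟩ := h5
    refine ⟨fun h9 => ?_, fun r h9 h10 h11 => ?_, fun h9 => ?_⟩
    · have h10 := cond_or _ _ h6 ((ble_iff _ _).mpr h9)
      rw [ble_iff] at h10
      exact h10
    · have h12 := allB_spec _ _ h7 (r - 1) (by omega)
      have h13 : r - 1 + 1 = r := by omega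
      have h14 := cond_or _ _ h12 ((ble_iff _ _).mpr (by omega))
      simp only [Bool.and_eq_true, ble_iff, mn_eq, h13] at h14
      obtain ⟨h15, h16, h17⟩ := h14
      refine ⟨?_, h17⟩
      change min (c2 r) (h - r - 1) + max (lk nG (h - r)) (lk nH (h - r)) ≤ lk nH h
      rw [← max_add_add_left]
      exact max_le h15 h16
    · have h10 := cond_or _ _ h8 ((ble_iff _ _).mpr h9)
      rw [ble_iff] at h10
      exact h10

theorem tbl : Tbl tt0.T := by
  refine ⟨cl.mT, ?_, ?_⟩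
  · intro m r h1 h2 h3
    have h4 : chkP m r = true := by
      have h5 := kP
      rw [Bool.and_eq_true] at h5
      have h6 : m = 60 ∨ m = 61 := by omega
      rcases h6 with h6 | h6
      · subst h6
        exact allB_spec _ _ h5.1 r (by omega)
      · subst h6
        exact allB_spec _ _ h5.2 r (by omega)
    unfold chkP at h4
    rw [Bool.and_eq_true, ble_iff, ble_iff] at h4
    obtain ⟨h5, h6⟩ := h4
    have e2 : m.choose 2 = c2 m := Nat.choose_two_right m
    unfold Psi2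
    rw [e2, c3_eq]
    change 8 * ((lk nT (c2 m - r) : ℕ) : ℤ) ≤ _
    have h5' : ((8 * lk nT (c2 m - r) + r * (4 * m + 2) : ℕ) : ℤ) ≤
        ((8 * c3 m + r * r : ℕ) : ℤ) := by exact_mod_cast h5
    have h6' : ((8 * lk nT (c2 m - r) + 6 * m * r + 5 : ℕ) : ℤ) ≤
        ((8 * c3 m + m * m + r * r + 4 * m + 4 * r : ℕ) : ℤ) := by exact_mod_cast h6
    push_cast at h5' h6'
    have h7 : max (qA (m : ℤ) (r : ℤ)) (qB m r) ≤
        8 * (c3 m : ℤ) - 8 * ((lk nT (c2 m - r) : ℕ) : ℤ) := by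
      apply max_le
      · unfold qA
        nlinarith
      · unfold qB
        nlinarith
    linarith
  · intro m hm
    have h1 := allB_spec _ _ kQ m (by omega)
    rw [ble_iff] at h1
    rw [c3_eq, Nat.choose_two_right]
    exact h1

end TAB_

/-- TAB. -/
theorem p_TAB : T_TAB := ⟨TAB_.tt0, TAB_.cl, TAB_.tbl⟩

end Pool.Agent.EGN.B
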