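import Pool.Agent.EGB.Targets

set_option autoImplicit false
open MvPolynomial hiding R

namespace Pool.Agent.EGN.B

open Pool.Agent.EGU Pool.Agent.EGS

universe u

namespace TRF_

variable {K : Type u} [Field K]

theorem map_cfq {A B : Type u} [CommRing A] [CommRing B] (f : A →+* B) {n : ℕ}
    (l a y b : Fin n → A) (i j : Fin n) :
    f (cfq l a y b i j) =
      cfq (fun s => f (l s)) (fun s => f (a s)) (fun s => f (y s)) (fun s => f (b s)) i j := by
  unfold cfq
  split_ifs <;> simp only [map_add, map_mul]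

theorem map_fnl {A B : Type u} [CommRing A] [CommRing B] [Algebra K A] [Algebra K B]
    (f : A →ₐ[K] B) {n : ℕ} (lam : Fin n → Fin n → K) (q : Fin n → Fin n → A) :
    f (fnl lam q) = fnl lam (fun i j => f (q i j)) := by
  unfold fnl
  simp only [map_sum]
  refine Finset.sum_congr rfl fun i _ => Finset.sum_congr rfl fun j _ => ?_
  split_ifs
  · exact map_smul f _ _
  · exact map_zero f

theorem map_fc {A B : Type u} [CommRing A] [CommRing B] [Algebra K A] [Algebra K B]
    (f : A →ₐ[K] B) {n : ℕ} (lam : Fin n → Fin n → K) (l a y b : Fin n → A) :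
    f (fnl lam (cfq l a y b)) =
      fnl lam (cfq (fun s => f (l s)) (fun s => f (a s)) (fun s => f (y s)) (fun s => f (b s))) := by
  rw [map_fnl]
  congr 1
  funext i j
  exact map_cfq (f : A →+* B) l a y b i j

/-- The generic vectors. -/
noncomputable def gen (K : Type u) [Field K] (n : ℕ) (r : Fin 4) :
    Fin n → MvPolynomial (Fin 4 × Fin n) K :=
  fun i => X (r, i)

end TRF_

open TRF_ in
/-- TRF. -/
theorem p_TRF : T_TRF.{u} := by
  intro K _ _ k _ _ n c lam hK l a y b h i j
  have hmem : cfq (gen K n 0) (gen K n 1) (gen K n 2) (gen K n 3) i j ∈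
      (Ideal.span (Set.range fun κ : Fin c =>
        fnl (lam κ) (cfq (gen K n 0) (gen K n 1) (gen K n 2) (gen K n 3)))).radical := by
    rw [← MvPolynomial.vanishingIdeal_zeroLocus_eq_radical (K := K),
      MvPolynomial.mem_vanishingIdeal_iff]
    intro z hz
    rw [MvPolynomial.mem_zeroLocus_iff] at hz
    have h1 : ∀ κ, fnl (lam κ) (cfq (fun s => z (0, s)) (fun s => z (1, s))
        (fun s => z (2, s)) (fun s => z (3, s))) = 0 := by
      intro κ
      have h2 := hz _ (Ideal.subset_span ⟨κ, rfl⟩)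
      rw [map_fc] at h2
      simpa [gen] using h2
    have h3 := hK _ _ _ _ h1 i j
    have h4 := map_cfq ((MvPolynomial.aeval z : MvPolynomial (Fin 4 × Fin n) K →ₐ[K] K) :
      MvPolynomial (Fin 4 × Fin n) K →+* K) (gen K n 0) (gen K n 1) (gen K n 2) (gen K n 3) i j
    rw [RingHom.coe_coe] at h4
    rw [h4]
    simpa [gen] using h3
  obtain ⟨m, hm⟩ := hmem
  let p : Fin 4 × Fin n → k := fun s =>
    if s.1 = 0 then l s.2 else if s.1 = 1 then a s.2 else if s.1 = 2 then y s.2 else b s.2
  let f : MvPolynomial (Fin 4 × Fin n) K →ₐ[K] k := MvPolynomial.aeval p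
  have e0 : (fun s => f (gen K n 0 s)) = l := by
    funext s
    simp [f, gen, p]
  have e1 : (fun s => f (gen K n 1 s)) = a := by
    funext s
    simp [f, gen, p]
  have e2 : (fun s => f (gen K n 2 s)) = y := by
    funext s
    simp [f, gen, p]
  have e3 : (fun s => f (gen K n 3 s)) = b := by
    funext s
    simp [f, gen, p]
  have hI : (Ideal.span (Set.range fun κ : Fin c =>
        fnl (lam κ) (cfq (gen K n 0) (gen K n 1) (gen K n 2) (gen K n 3)))) ≤
      RingHom.ker (f : MvPolynomial (Fin 4 × Fin n) K →+* k) := by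
    rw [Ideal.span_le]
    rintro _ ⟨κ, rfl⟩
    simp only [SetLike.mem_coe, RingHom.mem_ker, RingHom.coe_coe]
    rw [map_fc, e0, e1, e2, e3]
    exact h κ
  have h5 := hI hm
  rw [RingHom.mem_ker, RingHom.coe_coe, map_pow] at h5
  have h6 : f (cfq (gen K n 0) (gen K n 1) (gen K n 2) (gen K n 3) i j) = 0 :=
    eq_zero_of_pow_eq_zero h5
  have h7 := map_cfq (f : MvPolynomial (Fin 4 × Fin n) K →+* k)
    (gen K n 0) (gen K n 1) (gen K n 2) (gen K n 3) i j
  simp only [RingHom.coe_coe] at h7
  rw [e0, e1, e2, e3] at h7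
  rw [← h7]
  exact h6

end Pool.Agent.EGN.B
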