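import Pool.Agent.EGB.Targets

set_option autoImplicit false
open MvPolynomial hiding R

/-!
# Project EGB, target URK: the dimensions of `R_2` and `R_1 U`
-/

namespace Pool.Agent.EGN.B

open Pool.Agent.EGU Pool.Agent.EGS Pool.Agent.EGN

universe u

namespace URK_

section
variable {K : Type u} [Field K] {n : ℕ}

/-- Quadrics. -/
theorem dim2 (n : ℕ) : Module.finrank K (Rd K n 2) = (n + 1).choose 2 := by
  rw [(t_dimr K n 2).2.1, Finset.card_finsuppAntidiag_nat_eq_choose, Finset.card_univ,
    Fintype.card_fin]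
  congr 1

/-- One more linear form. -/
theorem step (U' : Submodule K (R K n)) (hU' : U' ≤ Rd K n 1) (x : R K n) (hx : x ∈ Rd K n 1)
    (hx0 : x ≠ 0) :
    Module.finrank K (Rd K n 1 * (K ∙ x ⊔ U') : Submodule K (R K n)) + Module.finrank K U' ≤
      Module.finrank K (Rd K n 1 * U' : Submodule K (R K n)) + n := by
  have hR1 : ∀ V : Submodule K (R K n), V ≤ Rd K n 1 →
      (Rd K n 1 * V : Submodule K (R K n)) ≤ Rd K n 2 := fun V hV =>
    Submodule.mul_le.2 fun _ hy _ hz => STP_.mem2 hy (hV hz)
  have hA : (Rd K n 1 * (K ∙ x) : Submodule K (R K n)) = STP_.xR x := by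
    ext p
    rw [STP_.xR, Submodule.mem_mul_span_singleton, Submodule.mem_map]
    constructor
    · rintro ⟨y, hy, rfl⟩
      exact ⟨y, hy, by rw [LinearMap.mulLeft_apply, mul_comm]⟩
    · rintro ⟨y, hy, rfl⟩
      exact ⟨y, hy, by rw [LinearMap.mulLeft_apply, mul_comm]⟩
  have f1 : Module.Finite K (STP_.xR x) := by
    rw [← hA]
    exact STP_.fin_le (hR1 _ (by
      rw [Submodule.span_singleton_le_iff_mem]
      exact hx))
  have f2 : Module.Finite K (Rd K n 1 * U' : Submodule K (R K n)) := STP_.fin_le (hR1 _ hU')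
  have h1 := Submodule.finrank_sup_add_finrank_inf_eq (STP_.xR x)
    (Rd K n 1 * U' : Submodule K (R K n))
  have h2 : Module.finrank K (STP_.xR x) = n := by
    rw [STP_.xR, STP_.finrank_map x hx0, (t_dimr K n 1).2.2]
  have h3 : U'.map (LinearMap.mulLeft K x) ≤
      STP_.xR x ⊓ (Rd K n 1 * U' : Submodule K (R K n)) := by
    rintro _ ⟨y, hy, rfl⟩
    exact ⟨⟨y, hU' hy, rfl⟩, Submodule.mul_mem_mul hx hy⟩
  have f3 : Module.Finite K
      (STP_.xR x ⊓ (Rd K n 1 * U' : Submodule K (R K n)) : Submodule K (R K n)) :=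
    Submodule.finiteDimensional_of_le inf_le_left
  have h4 := Submodule.finrank_mono h3
  rw [STP_.finrank_map x hx0] at h4
  rw [Submodule.mul_sup, hA]
  omega

end

end URK_

open URK_ in
/-- URK. -/
theorem p_URK : T_URK.{u} := by
  intro K _ n
  refine ⟨dim2 n, ?_⟩
  intro k
  induction k with
  | zero =>
    intro U hU hk
    have f1 : Module.Finite K U := STP_.fin_le hU
    have h1 : U = ⊥ := Submodule.finrank_eq_zero.1 hk
    rw [h1, Submodule.mul_bot, finrank_bot]
    simp
  | succ k ih =>
    intro U hU hk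
    have f1 : Module.Finite K U := STP_.fin_le hU
    obtain ⟨v, hv, hvs⟩ : ∃ v : Fin (k + 1) → R K n, LinearIndependent K v ∧
        Submodule.span K (Set.range v) = U := by
      let b := Module.finBasisOfFinrankEq K U hk
      refine ⟨fun i => (b i : R K n), ?_, ?_⟩
      · exact b.linearIndependent.map' U.subtype (Submodule.ker_subtype U)
      · have h1 := b.span_eq
        have h2 : Set.range (fun i => (b i : R K n)) = U.subtype '' Set.range b := by
          rw [← Set.range_comp]
          rfl
        rw [h2, Submodule.span_image, h1, Submodule.map_top, Submodule.range_subtype]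
    have hv0 : v 0 ∈ Rd K n 1 := hU (by
      rw [← hvs]
      exact Submodule.subset_span ⟨0, rfl⟩)
    have hv0' : v 0 ≠ 0 := hv.ne_zero 0
    have hli : LinearIndependent K (v ∘ Fin.succ) := hv.comp _ (Fin.succ_injective _)
    have hc : Module.finrank K (Submodule.span K (Set.range (v ∘ Fin.succ))) = k := by
      rw [finrank_span_eq_card hli, Fintype.card_fin]
    have hle : Submodule.span K (Set.range (v ∘ Fin.succ)) ≤ Rd K n 1 := by
      refine le_trans ?_ hU
      rw [← hvs]
      apply Submodule.span_mono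
      rintro _ ⟨i, rfl⟩
      exact ⟨i.succ, rfl⟩
    have hUeq : U = (K ∙ v 0) ⊔ Submodule.span K (Set.range (v ∘ Fin.succ)) := by
      rw [← Submodule.span_insert, ← hvs]
      congr 1
      ext p
      constructor
      · rintro ⟨i, rfl⟩
        refine Fin.cases ?_ (fun j => ?_) i
        · exact Set.mem_insert _ _
        · exact Set.mem_insert_of_mem _ ⟨j, rfl⟩
      · rintro (rfl | ⟨i, rfl⟩)
        · exact ⟨0, rfl⟩
        · exact ⟨i.succ, rfl⟩
    have h1 := ih _ hle hc
    have h2 := step _ hle (v 0) hv0 hv0'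
    rw [← hUeq, hc] at h2
    have h3 : k + 1 ≤ n := by
      have f2 : Module.Finite K (Rd K n 1) := (t_dimr K n 1).1
      have h4 := Submodule.finrank_mono hU
      rwa [(t_dimr K n 1).2.2, hk] at h4
    obtain ⟨m, rfl⟩ : ∃ m, n = k + 1 + m := ⟨n - (k + 1), by omega⟩
    have e1 : k + 1 + m + 1 - (k + 1) = m + 1 := by omega
    have e2 : k + 1 + m + 1 - k = m + 1 + 1 := by omega
    have h5 : (m + 1 + 1).choose 2 = (m + 1) + (m + 1).choose 2 := by
      have h6 := Nat.choose_succ_succ (m + 1) 1
      rw [Nat.choose_one_right] at h6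
      exact h6
    rw [e2, h5] at h1
    rw [e1]
    omega

end Pool.Agent.EGN.B
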