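import Pool.Agent.EGB.Targets

set_option autoImplicit false

/-!
# EGB: VAL (quadrics of rank at most four over a valuation ring)
-/

namespace Pool.Agent.EGN.B

open Pool.Agent.EGU Pool.Agent.EGS

universe u

namespace VAL_

variable {F : Type u} [Field F] (V : ValuationSubring F)

theorem exists_max {ι : Type} [Finite ι] (f : ι → F) (h : ∃ i, f i ≠ 0) :
    ∃ i, f i ≠ 0 ∧ ∀ k, f k / f i ∈ V := by
  obtain ⟨i0, hi0⟩ := h
  have : Nonempty ι := ⟨i0⟩
  obtain ⟨i, hi⟩ := Finite.exists_max (fun i => V.valuation (f i))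
  have hne : f i ≠ 0 := by
    intro h0
    have h1 := hi i0
    rw [h0, map_zero, le_zero_iff, map_eq_zero] at h1
    exact hi0 h1
  refine ⟨i, hne, fun k => ?_⟩
  rw [← V.valuation_le_one_iff, map_div₀]
  have hpos : 0 < V.valuation (f i) := by
    rw [zero_lt_iff]
    exact (map_ne_zero _).2 hne
  exact (div_le_one₀ hpos).2 (hi k)

theorem lift {n : ℕ} (l a y b l' a' y' b' : Fin n → F) (hl : ∀ k, l' k ∈ V)
    (ha : ∀ k, a' k ∈ V) (hy : ∀ k, y' k ∈ V) (hb : ∀ k, b' k ∈ V)
    (h : ∀ i j, cfq l' a' y' b' i j = cfq l a y b i j) :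
    ∃ l' a' y' b' : Fin n → V, ∀ i j,
      ((cfq l' a' y' b' i j : V) : F) = cfq l a y b i j := by
  refine ⟨fun k => ⟨l' k, hl k⟩, fun k => ⟨a' k, ha k⟩, fun k => ⟨y' k, hy k⟩,
    fun k => ⟨b' k, hb k⟩, ?_⟩
  intro i j
  rw [← h i j]
  unfold cfq
  split_ifs <;> simp

/-- the case of one product -/
theorem one {n : ℕ} (w c : Fin n → F) (hw : ∃ i, w i ≠ 0)
    (hQ : ∀ i j, cfq w c 0 0 i j ∈ V) :
    ∃ w' c' : Fin n → F, (∀ k, w' k ∈ V) ∧ (∀ k, c' k ∈ V) ∧
      ∀ i j, cfq w' c' 0 0 i j = cfq w c 0 0 i j := by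
  obtain ⟨i, hi, hV⟩ := exists_max V w hw
  have hc : ∀ k, w i * c k ∈ V := by
    have h0 : w i * c i ∈ V := by
      have := hQ i i
      simpa [cfq] using this
    intro k
    by_cases hk : i = k
    · rw [← hk]; exact h0
    · have h1 := hQ i k
      rw [cfq, if_neg hk] at h1
      simp only [Pi.zero_apply, zero_mul, add_zero] at h1
      have h2 : w i * c k = (w i * c k + w k * c i) - (w k / w i) * (w i * c i) := by
        field_simp
        ring
      rw [h2]
      exact sub_mem h1 (mul_mem (hV k) h0)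
  refine ⟨fun k => w k / w i, fun k => w i * c k, hV, hc, ?_⟩
  intro p q
  unfold cfq
  split_ifs
  · simp only [Pi.zero_apply, zero_mul, add_zero]
    field_simp
  · simp only [Pi.zero_apply, zero_mul, add_zero]
    field_simp

end VAL_

open VAL_ in
/-- VAL. -/
theorem p_VAL : T_VAL.{u} := by
  intro F _ V n l a y b hQ
  by_cases hD : ∃ p : Fin n × Fin n, l p.1 * y p.2 - l p.2 * y p.1 ≠ 0
  · obtain ⟨⟨i, j⟩, hne, hV⟩ :=
      exists_max V (fun p : Fin n × Fin n => l p.1 * y p.2 - l p.2 * y p.1) hD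
    simp only at hne hV
    set D := l i * y j - l j * y i with hDdef
    obtain ⟨L, hL⟩ : ∃ L : Fin n → F, ∀ k, L k = (l k * y j - l j * y k) / D := ⟨_, fun _ => rfl⟩
    obtain ⟨Y, hY⟩ : ∃ Y : Fin n → F, ∀ k, Y k = (l i * y k - l k * y i) / D := ⟨_, fun _ => rfl⟩
    have hLV : ∀ k, L k ∈ V := fun k => by rw [hL]; exact hV (k, j)
    have hYV : ∀ k, Y k ∈ V := fun k => by rw [hY]; exact hV (i, k)
    have hLi : L i = 1 := by rw [hL]; exact div_self hne
    have hLj : L j = 0 := by rw [hL, sub_self, zero_div]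
    have hYi : Y i = 0 := by rw [hY, sub_self, zero_div]
    have hYj : Y j = 1 := by rw [hY]; exact div_self hne
    have hij : i ≠ j := by
      intro h
      rw [h] at hLi
      rw [hLi] at hLj
      exact one_ne_zero hLj
    have el : ∀ k, l k = l i * L k + l j * Y k := by
      intro k
      rw [hL, hY]
      field_simp
      rw [hDdef]
      ring
    have ey : ∀ k, y k = y i * L k + y j * Y k := by
      intro k
      rw [hL, hY]
      field_simp
      rw [hDdef]
      ring
    obtain ⟨B, hB⟩ : ∃ B : Fin n → F, ∀ k, B k = l j * a k + y j * b k := ⟨_, fun _ => rfl⟩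
    obtain ⟨A', hA'⟩ : ∃ A' : Fin n → F, ∀ k, A' k = l i * a k + y i * b k + B i * Y k :=
      ⟨_, fun _ => rfl⟩
    obtain ⟨B', hB'⟩ : ∃ B' : Fin n → F, ∀ k, B' k = B k - B i * L k := ⟨_, fun _ => rfl⟩
    have key : ∀ p q, cfq L A' Y B' p q = cfq l a y b p q := by
      intro p q
      unfold cfq
      split_ifs with hpq
      · rw [hA', hB', hB p, el p, ey p]
        ring
      · rw [hA' p, hA' q, hB' p, hB' q, hB p, hB q, el p, ey p, el q, ey q]
        ring
    have hB'i : B' i = 0 := by rw [hB', hLi]; ring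
    have a0 : A' i ∈ V := by
      have h1 := hQ i i
      rw [← key, cfq, if_pos rfl, hLi, hYi] at h1
      simpa using h1
    have aV : ∀ k, A' k ∈ V := by
      intro k
      by_cases hk : i = k
      · rw [← hk]; exact a0
      · have h1 := hQ i k
        rw [← key, cfq, if_neg hk, hLi, hYi, hB'i] at h1
        have h2 : A' k = (1 * A' k + L k * A' i + (0 * B' k + Y k * 0)) - L k * A' i := by ring
        rw [h2]
        exact sub_mem h1 (mul_mem (hLV k) a0)
    have b0 : B' j ∈ V := by
      have h1 := hQ j j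
      rw [← key, cfq, if_pos rfl, hLj, hYj] at h1
      simpa using h1
    have bV : ∀ k, B' k ∈ V := by
      intro k
      by_cases hk : j = k
      · rw [← hk]; exact b0
      · have h1 := hQ j k
        rw [← key, cfq, if_neg hk, hLj, hYj] at h1
        have h2 : B' k = (0 * A' k + L k * A' j + (1 * B' k + Y k * B' j)) -
            (L k * A' j + Y k * B' j) := by ring
        rw [h2]
        exact sub_mem h1 (add_mem (mul_mem (hLV k) (aV j))
          (mul_mem (hYV k) b0))
    exact lift V l a y b L A' Y B' hLV aV hYV bV key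
  · push Not at hD
    have hD' : ∀ p q, l p * y q = l q * y p := fun p q => sub_eq_zero.1 (hD (p, q))
    by_cases hw : ∃ (w : Fin n → F) (α β : F), (∃ i, w i ≠ 0) ∧ (∀ k, l k = α * w k) ∧
        ∀ k, y k = β * w k
    · obtain ⟨w, α, β, hw0, hlw, hyw⟩ := hw
      have e1 : ∀ i j, cfq w (fun k => α * a k + β * b k) 0 0 i j = cfq l a y b i j := by
        intro p q
        unfold cfq
        simp only [Pi.zero_apply, zero_mul, add_zero]
        split_ifs
        · rw [hlw, hyw]; ring
        · rw [hlw p, hyw p, hlw q, hyw q]; ring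
      obtain ⟨w', c', h1, h2, h3⟩ := one V w (fun k => α * a k + β * b k) hw0
        (fun i j => by rw [e1]; exact hQ i j)
      exact lift V l a y b w' c' 0 0 h1 h2 (fun _ => V.zero_mem) (fun _ => V.zero_mem)
        (fun i j => (h3 i j).trans (e1 i j))
    · have hl0 : ∀ k, l k = 0 := by
        by_contra hc
        push Not at hc
        obtain ⟨i, hi⟩ := hc
        apply hw
        refine ⟨l, 1, y i / l i, ⟨i, hi⟩, fun k => (one_mul _).symm, fun k => ?_⟩
        have := hD' i k
        field_simp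
        linear_combination this
      have hy0 : ∀ k, y k = 0 := by
        by_contra hc
        push Not at hc
        obtain ⟨i, hi⟩ := hc
        apply hw
        exact ⟨y, 0, 1, ⟨i, hi⟩, fun k => by rw [hl0 k, zero_mul], fun k => (one_mul _).symm⟩
      refine lift V l a y b 0 0 0 0 (fun _ => V.zero_mem) (fun _ => V.zero_mem)
        (fun _ => V.zero_mem) (fun _ => V.zero_mem) ?_
      intro p q
      unfold cfq
      split_ifs <;> simp [hl0, hy0]

end Pool.Agent.EGN.B
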