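import Pool.Agent.EGB.Targets

/-!
# EGB: the inequality XC1 (port of `Pool/Agent/EGN/P_C1.lean`, without the constant `236`)
-/

set_option autoImplicit false

namespace Pool.Agent.EGN.B

open Pool.Agent.EGN

namespace XC1_

theorem ch2 (k : ℕ) : (k + 1).choose 2 = k + k.choose 2 := by
  rw [Nat.choose_succ_succ' k 1, Nat.choose_one_right]

theorem ch3 (k : ℕ) : (k + 1).choose 3 = k.choose 2 + k.choose 3 :=
  Nat.choose_succ_succ' k 2

theorem two_ch2 (k : ℕ) : 2 * ((k.choose 2 : ℕ) : ℤ) = k ^ 2 - k := by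
  induction k with
  | zero => simp
  | succ k ih =>
    rw [ch2]
    push_cast
    linarith [ih]

/-- The basic inequality in integers. -/
theorem main (k r a b : ℤ) (hk : 17 ≤ k) (_hr0 : 0 ≤ r) (hr : r + 2 ≤ k)
    (hb : b = max (qA (k + 2) r) (qB (k + 2) r)) :
    8 * (a + (k + 1) - r) + (8 * (0 : ℤ) - max (qA (k + 1) (r + 2)) (qB (k + 1) (r + 2))) ≤
      8 * a - b := by
  have h1 : b + 8 * (k + 1 - r) ≤ max (qA (k + 1) (r + 2)) (qB (k + 1) (r + 2)) := by
    rw [hb]
    rcases le_total (qA (k + 2) r) (qB (k + 2) r) with h | h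
    · rw [max_eq_right h]
      refine le_trans ?_ (le_max_right _ _)
      unfold qB
      nlinarith
    · rw [max_eq_left h]
      refine le_trans ?_ (le_max_left _ _)
      unfold qA
      nlinarith
  linarith

end XC1_

open XC1_ in
theorem p_XC1 (h2 : T_XEX) : T_XC1 := by
  intro tb htb m h hh hm1 hm2
  obtain ⟨hE1, hE2, -⟩ := h2 tb htb
  have hm : 62 ≤ m := by
    by_contra hlt
    have h3 : m.choose 2 ≤ (61 : ℕ).choose 2 := Nat.choose_le_choose 2 (by omega)
    have h4 : (61 : ℕ).choose 2 = 1830 := by decide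
    omega
  obtain ⟨k, rfl⟩ : ∃ k, m = k + 2 := ⟨m - 2, by omega⟩
  have hk : 17 ≤ k := by omega
  have e0 : k + 2 - 1 = k + 1 := by omega
  rw [e0] at hm1
  have e1 := ch2 (k + 1)
  have e2 := ch2 k
  have e3 := ch3 (k + 1)
  have e4 := ch3 k
  have e5 := two_ch2 k
  have e1' : k + 1 + 1 = k + 2 := rfl
  rw [e1'] at e1 e3
  have hka : k ≤ k.choose 2 := by
    have : (2 * k : ℤ) ≤ 2 * ((k.choose 2 : ℕ) : ℤ) := by
      rw [e5]
      have : (17 : ℤ) ≤ k := by exact_mod_cast hk
      nlinarith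
    omega
  obtain ⟨r, hr⟩ : ∃ r, h = (k + 2).choose 2 - r ∧ r ≤ k := by
    refine ⟨(k + 2).choose 2 - h, ?_, ?_⟩ <;> omega
  obtain ⟨hr, hrk⟩ := hr
  have hF : F2 tb h = Psi2 (k + 2) r := by
    rw [hr]
    exact hE1 (k + 2) r hm (by omega)
  have hhZ : (h : ℤ) = (k.choose 2 : ℕ) + k + (k + 1) - r := by
    rw [hr, Nat.cast_sub (by omega), e1, e2]
    push_cast
    ring
  have hkZ : (17 : ℤ) ≤ k := by exact_mod_cast hk
  have hkk : 17 * (k : ℤ) ≤ (k : ℤ) * k := by nlinarith
  have hrZ : (0 : ℤ) ≤ r := by positivity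
  have e2Z : (((k + 1).choose 2 : ℕ) : ℤ) = k + (k.choose 2 : ℕ) := by
    rw [e2]
    push_cast
    ring
  have e3Z : (((k + 2).choose 3 : ℕ) : ℤ) = ((k + 1).choose 2 : ℕ) + ((k + 1).choose 3 : ℕ) := by
    rw [e3]
    push_cast
    ring
  have e4Z : (((k + 1).choose 3 : ℕ) : ℤ) = (k.choose 2 : ℕ) + (k.choose 3 : ℕ) := by
    rw [e4]
    push_cast
    ring
  rw [hF]
  by_cases hc : r + 2 ≤ k
  · have h5 : h - (k + 2 + 1) = (k + 1).choose 2 - (r + 2) := by omega
    have h6 := hE2 (k + 1) (r + 2) (by omega) (by omega)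
    rw [h5]
    generalize F2 tb ((k + 1).choose 2 - (r + 2)) = y at h6 ⊢
    have h7 := main k r ((k.choose 2 : ℕ) + k) _ hkZ hrZ (by exact_mod_cast hc) rfl
    unfold Psi2 at h6 ⊢
    push_cast at h6 h7 ⊢
    linarith
  · rcases (by omega : r + 1 = k ∨ r = k) with h8 | h8
    · have h5 : h - (k + 2 + 1) = k.choose 2 - 1 := by omega
      have h6 := hE2 k 1 (by omega) (by omega)
      rw [h5]
      generalize F2 tb (k.choose 2 - 1) = y at h6 ⊢
      have h9 : (r : ℤ) = k - 1 := by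
        have : ((r + 1 : ℕ) : ℤ) = k := by exact_mod_cast h8
        push_cast at this
        linarith
      have h10 : qA (k : ℤ) 1 ≤ max (qA (k : ℤ) 1) (qB (k : ℤ) 1) := le_max_left _ _
      have a1 : qA ((k : ℤ) + 2) (k - 1) = 3 * (k * k) + 8 * k - 11 := by
        unfold qA
        ring
      have a2 : qB ((k : ℤ) + 2) (k - 1) = 4 * (k * k) - 4 * k - 16 := by
        unfold qB
        ring
      have h11 : max (qA ((k : ℤ) + 2) (k - 1)) (qB ((k : ℤ) + 2) (k - 1)) ≤
          4 * (k * k) - 15 := by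
        rw [a1, a2]
        exact max_le (by linarith) (by linarith)
      have h12 : qA (k : ℤ) 1 = 4 * k + 1 := by
        unfold qA
        ring
      unfold Psi2 at h6 ⊢
      push_cast at h6 ⊢
      rw [hhZ, h9]
      linarith [e5, pow_two (k : ℤ)]
    · have h5 : h - (k + 2 + 1) = k.choose 2 - 2 := by omega
      have h6 := hE2 k 2 (by omega) (by omega)
      rw [h5]
      generalize F2 tb (k.choose 2 - 2) = y at h6 ⊢
      have h9 : (r : ℤ) = k := by exact_mod_cast h8
      have h10 : qA (k : ℤ) 2 ≤ max (qA (k : ℤ) 2) (qB (k : ℤ) 2) := le_max_left _ _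
      have a1 : qA ((k : ℤ) + 2) k = 3 * (k * k) + 10 * k := by
        unfold qA
        ring
      have a2 : qB ((k : ℤ) + 2) k = 4 * (k * k) - 7 := by
        unfold qB
        ring
      have h11 : max (qA ((k : ℤ) + 2) k) (qB ((k : ℤ) + 2) k) ≤
          4 * (k * k) + 4 * k - 8 := by
        rw [a1, a2]
        exact max_le (by linarith) (by linarith)
      have h12 : qA (k : ℤ) 2 = 8 * k := by
        unfold qA
        ring
      unfold Psi2 at h6 ⊢
      push_cast at h6 ⊢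
      rw [hhZ, h9]
      linarith [e5, pow_two (k : ℤ)]

end Pool.Agent.EGN.B
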