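import Pool.Agent.EGB.Targets

/-!
# EGB, block XC2: the closure property with `min`, exact version (helper51)

Port of `Pool/Agent/EGN/P_C2.lean` (helper61) to the bound without the constant `236`.
-/

set_option autoImplicit false

namespace Pool.Agent.EGN.B

namespace XC2_

theorem two_choose (k : ℕ) : 2 * ((k.choose 2 : ℕ) : ℤ) = k * (k - 1) := by
  induction k with
  | zero => simp
  | succ k ih =>
    rw [Nat.choose_succ_succ' k 1, Nat.choose_one_right]
    push_cast
    linarith

theorem iii {m r0 : ℤ} (hm : 0 ≤ m) (h0 : 0 ≤ r0) :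
    max (qA (m + 1) r0) (qB (m + 1) r0) ≤ 8 * r0 + max (qA m r0) (qB m r0) := by
  have h1 := le_max_left (qA m r0) (qB m r0)
  have h2 := le_max_right (qA m r0) (qB m r0)
  refine max_le ?_ ?_
  · have : qA (m + 1) r0 = qA m r0 + 4 * r0 := by unfold qA; ring
    linarith
  · have : qB (m + 1) r0 = qB m r0 + (6 * r0 - 2 * m - 5) := by unfold qB; ring
    linarith

theorem i {m r0 r : ℤ} (h0 : 0 ≤ r0) (h1 : 1 ≤ r) (h2 : r0 + r ≤ m - 1) :
    4 * (r * (r - 1)) + max (qA m r0) (qB m r0) ≤ max (qA m (r0 + r)) (qB m (r0 + r)) := by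
  have a1 := le_max_left (qA m (r0 + r)) (qB m (r0 + r))
  have a2 := le_max_right (qA m (r0 + r)) (qB m (r0 + r))
  rcases le_total (qA m r0) (qB m r0) with h | h
  · rw [max_eq_right h]
    have e1 : qB m (r0 + r) - qB m r0 - 4 * (r * (r - 1)) = r * (6 * m - 2 * r0 - 5 * r) := by
      unfold qB; ring
    have e2 : 0 ≤ r * (6 * m - 2 * r0 - 5 * r) := mul_nonneg (by linarith) (by linarith)
    linarith
  · rw [max_eq_left h]
    by_cases h5 : 5 * r ≤ 4 * m - 2 * r0 + 6
    · have e1 : qA m (r0 + r) - qA m r0 - 4 * (r * (r - 1)) =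
          r * (4 * m - 2 * r0 + 6 - 5 * r) := by
        unfold qA; ring
      have e2 : 0 ≤ r * (4 * m - 2 * r0 + 6 - 5 * r) := mul_nonneg (by linarith) (by linarith)
      linarith
    · push Not at h5
      have e1 : qB m (r0 + r) - qA m r0 - 4 * (r * (r - 1)) =
          (m - 1 - (r0 + r)) * (5 * (r0 + r) - m - 5) +
            r0 * (8 * (r0 + r) - 4 * m - 6 - 3 * r0) := by
        unfold qB qA; ring
      have e2 : 0 ≤ (m - 1 - (r0 + r)) * (5 * (r0 + r) - m - 5) :=
        mul_nonneg (by linarith) (by linarith)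
      have e3 : 0 ≤ r0 * (8 * (r0 + r) - 4 * m - 6 - 3 * r0) :=
        mul_nonneg h0 (by linarith)
      linarith

theorem ii {k t s : ℤ} (hk : 18 ≤ k) (ht : 1 ≤ t) (hs : 0 ≤ s) (hst : s + t ≤ k - 1) :
    max (qA (k + 1) (s + t)) (qB (k + 1) (s + t)) + 4 * ((k - t) * (k - t - 1)) ≤
      max (qA k s) (qB k s) + 4 * (k * (k - 1)) := by
  have a1 := le_max_left (qA k s) (qB k s)
  have a2 := le_max_right (qA k s) (qB k s)
  rcases le_total (qB (k + 1) (s + t)) (qA (k + 1) (s + t)) with h | h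
  · rw [max_eq_left h]
    have e1 : qA k s + 4 * (k * (k - 1)) - qA (k + 1) (s + t) - 4 * ((k - t) * (k - t - 1)) =
        3 * (t * (k - 1 - s - t)) + t * (k - 18) + 4 * (s * (t - 1)) + s * t + 11 * t := by
      unfold qA; ring
    have e2 : 0 ≤ t * (k - 1 - s - t) := mul_nonneg (by linarith) (by linarith)
    have e3 : 0 ≤ t * (k - 18) := mul_nonneg (by linarith) (by linarith)
    have e4 : 0 ≤ s * (t - 1) := mul_nonneg (by linarith) (by linarith)
    have e5 : 0 ≤ s * t := mul_nonneg (by linarith) (by linarith)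
    linarith
  · rw [max_eq_right h]
    obtain ⟨w, hw⟩ : ∃ w, w = k - 1 - s - t := ⟨_, rfl⟩
    obtain ⟨τ, hτ⟩ : ∃ τ, τ = t - 1 := ⟨_, rfl⟩
    have hk' : k = w + 2 + s + τ := by linarith
    have ht' : t = τ + 1 := by linarith
    have hw0 : 0 ≤ w := by linarith
    have hτ0 : 0 ≤ τ := by linarith
    have hwτ : 0 ≤ w * τ := mul_nonneg hw0 hτ0
    have hsτ : 0 ≤ s * τ := mul_nonneg hs hτ0
    by_cases h5 : s ≤ 10 + 4 * τ
    · have e1 : qA k s + 4 * (k * (k - 1)) - qB (k + 1) (s + t) -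
          4 * ((k - t) * (k - t - 1)) =
          11 + 12 * w + w ^ 2 + 4 * τ + 4 * (w * τ) + s * (10 + 4 * τ - s) := by
        rw [hk', ht']
        unfold qA qB; ring
      have e2 : 0 ≤ s * (10 + 4 * τ - s) := mul_nonneg hs (by linarith)
      have e3 : 0 ≤ w ^ 2 := sq_nonneg w
      linarith
    · push Not at h5
      have e1 : qB k s + 4 * (k * (k - 1)) - qB (k + 1) (s + t) -
          4 * ((k - t) * (k - t - 1)) =
          4 * (w + 1) + τ * (4 * s + 2 * w - 4 - τ) := by
        rw [hk', ht']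
        unfold qB; ring
      have e2 : 0 ≤ τ * (4 * s + 2 * w - 4 - τ) := mul_nonneg hτ0 (by linarith)
      linarith

end XC2_

open XC2_ in
theorem p_XC2 (hx : T_XEX) : T_XC2 := by
  intro tb htb h r hh hr1 hrh
  obtain ⟨e1, e2, hmono⟩ := hx tb htb
  obtain ⟨k, hk, hlo, hhi⟩ : ∃ k, 61 ≤ k ∧ k.choose 2 < h ∧ h ≤ (k + 1).choose 2 := by
    have f1 : h ≤ (mm h).choose 2 := Nat.find_spec (ex_mm h)
    have f2 : 61 < mm h := by
      by_contra hc
      push Not at hc
      have f3 : (mm h).choose 2 ≤ Nat.choose 61 2 := Nat.choose_le_choose 2 hc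
      have f4 : Nat.choose 61 2 = 1830 := by decide
      omega
    have f3 : ¬ h ≤ (mm h - 1).choose 2 := Nat.find_min (ex_mm h) (m := mm h - 1) (by
      show mm h - 1 < mm h
      omega)
    refine ⟨mm h - 1, by omega, by omega, ?_⟩
    rwa [Nat.sub_add_cancel (by omega)]
  have hc : (k + 1).choose 2 = k + k.choose 2 := by
    rw [Nat.choose_succ_succ' k 1, Nat.choose_one_right]
  have hc3 : (((k + 1).choose 3 : ℕ) : ℤ) = (k.choose 2 : ℕ) + (k.choose 3 : ℕ) := by
    rw [Nat.choose_succ_succ' k 2]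
    push_cast
    ring
  have hk2 := two_choose k
  obtain ⟨r0, hr0⟩ : ∃ r0, h + r0 = (k + 1).choose 2 := ⟨(k + 1).choose 2 - h, by omega⟩
  have hr0k : r0 < k := by omega
  have hF : F2 tb h = Psi2 (k + 1) r0 := by
    have := e1 (k + 1) r0 (by omega) (by omega)
    rwa [show (k + 1).choose 2 - r0 = h by omega] at this
  have hhz : (h : ℤ) = k + (k.choose 2 : ℕ) - r0 := by
    have : (h : ℤ) + r0 = (k : ℤ) + (k.choose 2 : ℕ) := by
      rw [hc] at hr0
      exact_mod_cast hr0
    linarith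
  have hkz : (61 : ℤ) ≤ k := by exact_mod_cast hk
  have hr0z : (r0 : ℤ) + 1 ≤ k := by exact_mod_cast hr0k
  have hr0n : (0 : ℤ) ≤ r0 := Int.natCast_nonneg r0
  have hr1z : (1 : ℤ) ≤ r := by exact_mod_cast hr1
  rw [hF]
  rcases le_or_gt k r with hkr | hkr
  · -- large `r`
    have a1 : F2 tb (h - r) ≤ F2 tb (h - k) := hmono (by omega)
    have a2 : F2 tb (h - k) ≤ Psi2 k r0 := by
      have := e2 k r0 (by omega) (by omega)
      rwa [show k.choose 2 - r0 = h - k by omega] at this
    have a3 : ((min (r.choose 2) (h - r) : ℕ) : ℤ) ≤ h - k := by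
      have : min (r.choose 2) (h - r) ≤ h - k := (min_le_right _ _).trans (by omega)
      have b1 : k ≤ h := by omega
      calc ((min (r.choose 2) (h - r) : ℕ) : ℤ) ≤ ((h - k : ℕ) : ℤ) := by exact_mod_cast this
        _ = h - k := by rw [Nat.cast_sub b1]
    have a4 := iii (m := (k : ℤ)) (r0 := r0) (by linarith) hr0n
    generalize ((min (r.choose 2) (h - r) : ℕ) : ℤ) = μ at a3 ⊢
    unfold Psi2 at a2 ⊢
    rw [hc3]
    push_cast
    linarith
  · rcases le_or_gt (r0 + r) k with hs | hs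
    · -- the same block
      have a2 : F2 tb (h - r) ≤ Psi2 (k + 1) (r0 + r) := by
        have := e2 (k + 1) (r0 + r) (by omega) (by omega)
        rwa [show (k + 1).choose 2 - (r0 + r) = h - r by omega] at this
      have a3 : ((min (r.choose 2) (h - r) : ℕ) : ℤ) ≤ (r.choose 2 : ℕ) := by
        exact_mod_cast min_le_left _ _
      have hr2 := two_choose r
      have a4 := i (m := (k : ℤ) + 1) (r0 := r0) (r := r) hr0n hr1z (by
        have : (r0 : ℤ) + r ≤ k := by exact_mod_cast hs
        linarith)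
      generalize ((min (r.choose 2) (h - r) : ℕ) : ℤ) = μ at a3 ⊢
      unfold Psi2 at a2 ⊢
      push_cast at a2 ⊢
      linarith
    · -- the next block
      have hrk : r + 1 ≤ k := hkr
      obtain ⟨t, ht⟩ : ∃ t, r + t = k := ⟨k - r, by omega⟩
      obtain ⟨s, hsd⟩ : ∃ s, r0 = s + t := ⟨r0 - t, by omega⟩
      have a2 : F2 tb (h - r) ≤ Psi2 k s := by
        have := e2 k s (by omega) (by omega)
        rwa [show k.choose 2 - s = h - r by omega] at this
      have a3 : ((min (r.choose 2) (h - r) : ℕ) : ℤ) ≤ (r.choose 2 : ℕ) := by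
        exact_mod_cast min_le_left _ _
      have hr2 := two_choose r
      have htz : (1 : ℤ) ≤ t := by
        have : 1 ≤ t := by omega
        exact_mod_cast this
      have hsz : (0 : ℤ) ≤ s := Int.natCast_nonneg s
      have hrz : (r : ℤ) = k - t := by
        have : (r : ℤ) + t = k := by exact_mod_cast ht
        linarith
      have hr0e : (r0 : ℤ) = s + t := by exact_mod_cast hsd
      have a4 := ii (k := (k : ℤ)) (t := t) (s := s) (by linarith) htz hsz (by linarith)
      generalize ((min (r.choose 2) (h - r) : ℕ) : ℤ) = μ at a3 ⊢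
      unfold Psi2 at a2 ⊢
      rw [hc3]
      push_cast at a2 ⊢
      rw [hr0e]
      rw [hrz] at hr2
      linarith

end Pool.Agent.EGN.B
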