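import Pool.Agent.EGB.Targets

/-!
# MP_e5dae2_al, EGB: XEX
-/

set_option autoImplicit false

namespace Pool.Agent.EGN.B

namespace XEX_

/-- Pascal, degree 2. -/
theorem ch2 {m : ℕ} (hm : 1 ≤ m) : m.choose 2 = (m - 1).choose 2 + (m - 1) := by
  obtain ⟨k, rfl⟩ : ∃ k, m = k + 1 := ⟨m - 1, by omega⟩
  rw [Nat.choose_succ_succ' k 1, Nat.choose_one_right]
  simp [Nat.add_comm]

/-- Pascal, degree 3. -/
theorem ch3 {m : ℕ} (hm : 1 ≤ m) : m.choose 3 = (m - 1).choose 3 + (m - 1).choose 2 := by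
  obtain ⟨k, rfl⟩ : ∃ k, m = k + 1 := ⟨m - 1, by omega⟩
  rw [Nat.choose_succ_succ' k 2]
  simp [Nat.add_comm]

theorem two_ch {m : ℕ} : 2 * (m.choose 2 : ℤ) = m * (m - 1) := by
  induction m with
  | zero => simp
  | succ n ih =>
    have h : (n + 1).choose 2 = n + n.choose 2 := by
      rw [Nat.choose_succ_succ' n 1, Nat.choose_one_right]
    rw [h]
    push_cast
    linarith

theorem mono2 {a b : ℕ} (h : a ≤ b) : a.choose 2 ≤ b.choose 2 := Nat.choose_le_choose 2 h

/-- `mm h = m` if `C(m-1,2) < h ≤ C(m,2)`. -/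
theorem mm_eq {m h : ℕ} (h1 : (m - 1).choose 2 < h) (h2 : h ≤ m.choose 2) : mm h = m := by
  unfold mm
  rw [Nat.find_eq_iff]
  refine ⟨h2, ?_⟩
  intro k hk hk'
  have := mono2 (show k ≤ m - 1 by omega)
  omega

theorem c61 : (61 : ℕ).choose 2 = 1830 := by decide

theorem ge62 {m : ℕ} (h : 1830 < m.choose 2) : 62 ≤ m := by
  by_contra hc
  have h1 := mono2 (show m ≤ 61 by omega)
  have h2 := c61
  omega

theorem c62 {m : ℕ} (h : 62 ≤ m) : 1830 ≤ (m - 1).choose 2 := by
  have h1 := mono2 (show 61 ≤ m - 1 by omega)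
  have h2 := c61
  omega

theorem part1 (t : ℕ → ℕ) {m r : ℕ} (hm : 62 ≤ m) (hr : r ≤ m - 2) :
    F2 t (m.choose 2 - r) = Psi2 m r := by
  have h1 := ch2 (show 1 ≤ m by omega)
  have h2 := c62 hm
  have h3 : mm (m.choose 2 - r) = m := mm_eq (by omega) (by omega)
  have h4 : ¬ (m.choose 2 - r ≤ 1830) := by omega
  unfold F2
  rw [if_neg h4, h3]
  congr 1
  omega

theorem psi_step {m r : ℕ} (h0 : 1 ≤ m) (hr : r ≤ m) : Psi2 m (r + 1) ≤ Psi2 m r := by
  have hrm : (r : ℤ) ≤ m := by exact_mod_cast hr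
  have hr0 : (0 : ℤ) ≤ r := by positivity
  have hm1 : (1 : ℤ) ≤ m := by exact_mod_cast h0
  have hA : qA m r ≤ qA m ((r + 1 : ℕ) : ℤ) := by
    unfold qA
    push_cast
    nlinarith
  have hB : qB m r ≤ qB m ((r + 1 : ℕ) : ℤ) ∨ qB m r ≤ qA m ((r + 1 : ℕ) : ℤ) := by
    by_cases hc : 5 ≤ 6 * (m : ℤ) - 2 * r
    · left
      unfold qB
      push_cast
      nlinarith
    · right
      unfold qB qA
      push_cast
      nlinarith
  have : max (qA m r) (qB m r) ≤ max (qA m ((r + 1 : ℕ) : ℤ)) (qB m ((r + 1 : ℕ) : ℤ)) := by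
    apply max_le
    · exact le_max_of_le_left hA
    · rcases hB with h | h
      · exact le_max_of_le_right h
      · exact le_max_of_le_left h
  unfold Psi2
  linarith

/-- The end of a block. -/
theorem psi_end {m : ℕ} (hm : 20 ≤ m) : 8 * ((m - 1).choose 3 : ℤ) ≤ Psi2 m (m - 1) := by
  have h4 := ch3 (show 1 ≤ m by omega)
  have h5 : (m.choose 3 : ℤ) = ((m - 1).choose 3 : ℤ) + ((m - 1).choose 2 : ℤ) := by
    exact_mod_cast h4
  have h6 := two_ch (m := m - 1)
  have h7 : ((m - 1 : ℕ) : ℤ) = (m : ℤ) - 1 := by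
    rw [Nat.cast_sub (by omega)]
    rfl
  have hmz : (20 : ℤ) ≤ m := by exact_mod_cast hm
  have hA : qA m ((m - 1 : ℕ) : ℤ) ≤ 4 * (((m : ℤ) - 1) * ((m : ℤ) - 2)) := by
    rw [h7]
    unfold qA
    nlinarith
  have hB : qB m ((m - 1 : ℕ) : ℤ) ≤ 4 * (((m : ℤ) - 1) * ((m : ℤ) - 2)) := by
    rw [h7]
    unfold qB
    nlinarith
  have hM := max_le hA hB
  rw [h7] at h6
  unfold Psi2
  rw [h5]
  nlinarith

theorem psi_zero (m : ℕ) : Psi2 m 0 ≤ 8 * (m.choose 3 : ℤ) := by
  have h0 : (0 : ℤ) ≤ max (qA (m : ℤ) ((0 : ℕ) : ℤ)) (qB (m : ℤ) ((0 : ℕ) : ℤ)) := by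
    apply le_max_of_le_left
    simp [qA]
  unfold Psi2
  linarith

theorem part2 (t : ℕ → ℕ) (h : Tbl t) {m r : ℕ} (hm : 60 ≤ m) (hr : r ≤ m - 1) :
    F2 t (m.choose 2 - r) ≤ Psi2 m r := by
  have h1 := ch2 (show 1 ≤ m by omega)
  by_cases hc : m.choose 2 - r ≤ 1830
  · by_cases h61 : m ≤ 61
    · unfold F2
      rw [if_pos hc]
      exact h.2.1 m r hm h61 (by omega)
    · have h2 := c62 (m := m) (by omega)
      have hr3 : r = m - 1 := by omega
      have h3 : m - 1 ≤ 61 := by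
        by_contra hcc
        have h4 := mono2 (show 62 ≤ m - 1 by omega)
        have h5 : (62 : ℕ).choose 2 = 1891 := by decide
        omega
      have h62 : m = 62 := by omega
      subst h62
      subst hr3
      have h4 := h.2.2 61 (by omega)
      have h5 := psi_end (m := 62) (by omega)
      have h6 : (62 : ℕ).choose 2 - (62 - 1) = (61 : ℕ).choose 2 := by decide
      rw [h6]
      unfold F2
      rw [if_pos (by rw [c61])]
      have h7 : (t ((61 : ℕ).choose 2) : ℤ) ≤ ((61 : ℕ).choose 3 : ℤ) := by exact_mod_cast h4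
      have h8 : (62 - 1 : ℕ) = 61 := rfl
      rw [h8] at h5
      rw [h8]
      linarith
  · have h62 := ge62 (m := m) (by omega)
    by_cases hr2 : r ≤ m - 2
    · exact (part1 t h62 hr2).le
    · have hr3 : r = m - 1 := by omega
      subst hr3
      have h2 : m.choose 2 - (m - 1) = (m - 1).choose 2 - 0 := by omega
      have h3 := ge62 (m := m - 1) (by omega)
      rw [h2, part1 t h3 (by omega)]
      exact (psi_zero (m - 1)).trans (psi_end (by omega))

theorem part3 (t : ℕ → ℕ) (h : Tbl t) : Monotone (F2 t) := by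
  apply monotone_nat_of_le_succ
  intro n
  by_cases hn : n + 1 ≤ 1830
  · have h1 := h.1 n (by omega)
    have h2 : ((t n : ℕ) : ℤ) ≤ ((t (n + 1) : ℕ) : ℤ) := by exact_mod_cast h1
    unfold F2
    rw [if_pos (show n ≤ 1830 by omega), if_pos hn]
    linarith
  · have hx := Nat.find_spec (ex_mm (n + 1))
    set m := Nat.find (ex_mm (n + 1)) with hmdef
    have h62 := ge62 (m := m) (by omega)
    have hlt : (m - 1).choose 2 < n + 1 := by
      have := Nat.find_min (ex_mm (n + 1)) (show m - 1 < Nat.find (ex_mm (n + 1)) by omega)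
      omega
    have h1 := ch2 (show 1 ≤ m by omega)
    obtain ⟨r, hr⟩ : ∃ r, r = m.choose 2 - (n + 1) := ⟨_, rfl⟩
    have e1 : n + 1 = m.choose 2 - r := by omega
    have e2 : n = m.choose 2 - (r + 1) := by omega
    have p1 := part1 t (m := m) (r := r) h62 (by omega)
    have p2 := part2 t h (m := m) (r := r + 1) (by omega) (by omega)
    have p3 := psi_step (m := m) (r := r) (by omega) (by omega)
    rw [← e1] at p1
    rw [← e2] at p2
    rw [p1]
    exact p2.trans p3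

end XEX_

theorem p_XEX : T_XEX := fun t h =>
  ⟨fun _ _ hm hr => XEX_.part1 t hm hr, fun _ _ hm hr => XEX_.part2 t h hm hr,
    XEX_.part3 t h⟩

end Pool.Agent.EGN.B
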