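import Pool.Agent.EGB.TabDefs

set_option autoImplicit false

/-!
# Project EGB: evaluation of the tables, first part
-/

namespace Pool.Agent.EGN.B.TAB_

theorem kM : allB 1830 chkM = true := by decide +kernel

theorem kL : allB 1831 chkL = true := by decide +kernel

theorem kE : blk 2 60 chkE = true := by decide +kernel

theorem kA : blk 2 60 chkA = true := by decide +kernel

theorem kG : allB 60 (fun k => allB (k + 1) (fun j => chkG (k + 3) (c2 (k + 1) + 1 + j))) = true := by
  decide +kernel

theorem kH : blk 2 60 chkH = true := by decide +kernel

end Pool.Agent.EGN.B.TAB_
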