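import Pool.Agent.EGN.Fin
import Pool.Agent.EGN.P_ELM
import Pool.Agent.EGN.P_SOQ
import Pool.Agent.EGN.P_STP
import Pool.Agent.EGN.P_GBQ
import Pool.Agent.EGN.P_IND
import Pool.Agent.EGN.P_BCH
import Pool.Agent.EGN.P_DEG

set_option autoImplicit false
open MvPolynomial hiding R

/-!
# Project EGB (MP_e5dae2_al): the conjecture in the degrees 2 and 3 at all binomials

THEOREM. `K` any field, `I` a homogeneous ideal of `R = K[x_1, ..., x_n]` which contains a regular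
sequence of `n` quadrics, `h_d = dim (R/I)_d`. Then `h_2 ≤ C(m,2)` implies `h_3 ≤ C(m,3)`, for all
`m` and `n`.

This is the landed theorem `DegreeTwoGrowth` (project EGN) with the constant `0` instead of `29`.
Namespace of this project: `Pool.Agent.EGN.B`; a job proves
`theorem Pool.Agent.EGN.B.p_XXX (h1 : T_A) ... : T_XXX` in the file `Pool/Agent/EGB/P_XXX.lean`.
The definitions of EGN are used: `Sys K n W`, `hh W = dim R_2 / W`, `tt W = dim R_3 / R_1 W`,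
`kl l W = {x ∈ R_1 : l x ∈ W}`, `ql l W = {p ∈ R_2 : l p ∈ R_1 W}`,
`soc W = {u ∈ R_1 : R_1 u ⊆ W}`, `g`, `mm`, `qA`, `qB`. Proved targets of EGN (`p_ELM`, `p_SOQ`,
`p_STP`, `p_GBQ`, `p_IND`, `p_BCH`, `p_DEG`) may be used and their files may be copied from.
-/

namespace Pool.Agent.EGN.B

open Pool.Agent.EGU Pool.Agent.EGS

universe u

noncomputable section

/-! ## A. Linear algebra -/

/-- EGV. Eigenvalue lemma. PROOF. `V = range L ≠ 0` is finite dimensional. `N (L x) = Z x` defines an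
endomorphism `N` of `V` (`ker L ≤ ker Z`, `range Z ≤ range L`), which has an eigenvector `L x`
(`Module.End.exists_eigenvalue`). -/
def T_EGV : Prop := ∀ (K : Type u) [Field K] [IsAlgClosed K] (E E' : Type u) [AddCommGroup E]
  [Module K E] [AddCommGroup E'] [Module K E'] [Module.Finite K E] (L Z : E →ₗ[K] E'),
  LinearMap.range Z ≤ LinearMap.range L → LinearMap.ker L ≤ LinearMap.ker Z → (∃ x, L x ≠ 0) →
  ∃ (μ : K) (x : E), L x ≠ 0 ∧ Z x = μ • L x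

/-- `W` contains no product of two nonzero linear forms. -/
def NRs {K : Type u} [Field K] {n : ℕ} (W : Submodule K (R K n)) : Prop :=
  ∀ l ∈ Rd K n 1, ∀ x ∈ Rd K n 1, l * x ∈ W → l = 0 ∨ x = 0

/-- NSO. PROOF. If `l = 0`: `z * z ∈ W`, so `z = 0`. Let `l ≠ 0` (so `Rd K n 1 ≠ 0`). T_EGV with
`E = Rd K n 1`, `E' = R K n ⧸ W`, `L y = [l y]`, `Z y = [z y]`: `ker L = 0` by `NRs`,
`range Z ≤ range L` is the hypothesis. So there are `μ` and `y ≠ 0` with `(z - μ l) y ∈ W`. -/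
def T_NSO : Prop := ∀ (K : Type u) [Field K] [IsAlgClosed K] (n : ℕ)
  (W : Submodule K (R K n)), NRs W → ∀ l ∈ Rd K n 1, ∀ z ∈ Rd K n 1,
  (∀ y ∈ Rd K n 1, ∃ m ∈ Rd K n 1, z * y - l * m ∈ W) → ∃ c : K, z = c • l

/-- MIN. The `2 × 2` minors of a matrix with rows `y`, `z` of linear forms without eigenvectors are
linearly independent. PROOF. A relation `∑_{i<j} c_ij (z_i y_j - z_j y_i) = 0` is
`∑_{i,j} C_ij z_i y_j = 0` with `C` skew (`C_ij = c_ij`, `C_ji = - c_ij` for `i < j`, `C_ii = 0`).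
Put `Z_j = ∑_i C_ij z_i` (linear forms): `∑_j Z_j y_j = 0`. View linear forms as linear functionals
on `K^n` (`MvPolynomial.eval`). For `p, q ∈ K^n`: `∑_j Z_j(p) y_j(p) = 0` and (take `p + q`)
`∑_j (Z_j(p) y_j(q) + Z_j(q) y_j(p)) = 0`. The `y_j` are independent functionals: there are
`p_1, ..., p_k ∈ K^n` with `y_j (p_i) = δ_ij`. If all `y_j (p) = 0` then
`0 = ∑_j Z_j(p) y_j(p_i) = Z_i (p)`; so `Z_j` is in the span of the `y`, `Z_j = ∑_k S_jk y_k` with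
`S_jk = Z_j (p_k)`; `S_ii = 0`, `S_ik + S_ki = 0`. So for `a ∈ K^k`:
`∑_i (C a)_i z_i = ∑_k (Sᵀ a)_k y_k = - ∑_k (S a)_k y_k`. If `C a = 0` then `S a = 0` (`y`
independent): `ker C ≤ ker S`; taking annihilators and using `Cᵀ = -C`, `Sᵀ = -S`:
`range S ≤ range C`. If `C ≠ 0`, T_EGV (`E = E' = Fin k → K`, `L = C`, `Z = -S`) gives `μ`, `a` with
`- S a = μ C a`, `c = C a ≠ 0`, so `∑ c_i z_i = μ ∑ c_i y_i`, a contradiction. So `C = 0`. -/
def T_MIN : Prop := ∀ (K : Type u) [Field K] [IsAlgClosed K] (n k : ℕ) (y z : Fin k → R K n),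
  (∀ i, y i ∈ Rd K n 1) → (∀ i, z i ∈ Rd K n 1) → LinearIndependent K y →
  (∀ (c : Fin k → K) (μ : K), ∑ i, c i • z i = μ • ∑ i, c i • y i → c = 0) →
  LinearIndependent K (fun p : {p : Fin k × Fin k // p.1 < p.2} =>
    z p.1.1 * y p.1.2 - z p.1.2 * y p.1.1)

/-- URK. PROOF. `dim R_2 = C(n+1,2)`: number of monomials of degree 2 (`t_dimr`), or induction by
`dim R_2 (n+1) = dim R_2 (n) + (n + 1)` (`ELM_.dim_Rd`, see `Pool/Agent/EGN/P_ELM.lean`). Second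
part: a basis `u_1, ..., u_k` of `U`, extended to a basis `u_1, ..., u_n` of `R_1`: `R_1 U` is spanned
by the products `u_i u_j`, `i ≤ k`, `i ≤ j ≤ n`, and their number is `C(n+1,2) - C(n+1-k,2)`.
(Another way: induction on `k`: `U = U' + K u`, `R_1 U = R_1 U' + R_1 u` and
`R_1 U' ∩ R_1 u ⊇ u U'` has dimension at least `k - 1`, so `dim R_1 U ≤ dim R_1 U' + n - (k - 1)`.) -/
def T_URK : Prop := ∀ (K : Type u) [Field K] (n : ℕ),
  Module.finrank K (Rd K n 2) = (n + 1).choose 2 ∧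
  ∀ (k : ℕ) (U : Submodule K (R K n)), U ≤ Rd K n 1 → Module.finrank K U = k →
    Module.finrank K (Rd K n 1 * U : Submodule K (R K n)) + (n + 1 - k).choose 2 ≤
      (n + 1).choose 2

/-! ## B. Elimination -/

/-- EL2. Elimination of a linear form, with the map. PROOF. The proof of `p_ELM` in
`Pool/Agent/EGN/P_ELM.lean`, with `θ = RED_.el c i0` (`hdeg`, `hsurj`, `hker`, `hlx`, `W' = W.map θ`,
and the two dimension formulas are all there). -/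
def T_EL2 : Prop := ∀ (K : Type u) [Field K] [Infinite K] (n : ℕ)
  (W : Submodule K (R K (n + 1))), Sys K (n + 1) W → ∀ l ∈ Rd K (n + 1) 1, l ≠ 0 →
  ∃ θ : R K (n + 1) →ₐ[K] R K n,
    (∀ d, ∀ p ∈ Rd K (n + 1) d, θ p ∈ Rd K n d) ∧
    (∀ d, ∀ q ∈ Rd K n d, ∃ p ∈ Rd K (n + 1) d, θ p = q) ∧ θ l = 0 ∧
    (∀ d, ∀ p ∈ Rd K (n + 1) (d + 1), θ p = 0 → ∃ x ∈ Rd K (n + 1) d, p = l * x) ∧
    Sys K n (W.map θ.toLinearMap) ∧
    hh (W.map θ.toLinearMap) + (n + 1) = hh W + Module.finrank K (kl l W) ∧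
    tt W + Module.finrank K (ql l W) =
      tt (W.map θ.toLinearMap) + Module.finrank K (Rd K (n + 1) 2)

/-- SCL. Reduction to `soc = ⊥`. PROOF. Induction on `n`. If `soc W ≠ ⊥` then `n = n' + 1`
(`soc W ≤ R_1`); take `u ≠ 0` in `soc W`, T_EL2 with `l = u`: `kl u W = R_1` has dimension `n`, so
`hh` does not change; `ql u W = R_2` (`u (x y) = y (u x) ∈ R_1 W`, `R_2 = R_1 R_1`), so `tt` does not
change. -/
def T_SCL : Prop := ∀ (K : Type u) [Field K] [Infinite K] (n : ℕ) (W : Submodule K (R K n)),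
  Sys K n W → ∃ m ≤ n, ∃ W' : Submodule K (R K m), Sys K m W' ∧ soc W' = ⊥ ∧ hh W' = hh W ∧
    tt W' = tt W

/-- IMG. PROOF. `W2 = W ⊔ R_1 U`: `Sys K n W2`, `U ≤ soc W2`, so by `p_SOQ p_ELM`
`dim R_2 - dim W2 ≤ C(n - dim (soc W2), 2) ≤ C(n - k, 2)`. `W2 = (W ⊔ P) ⊔ R_1 U` and
`P ≤ (W ⊔ P) ⊓ R_1 U`, so `dim W2 ≤ dim (W ⊔ P) + dim (R_1 U) - dim P`. With T_URK:
`dim (W ⊔ P) - dim P ≥ C(n+1,2) - C(n-k,2) - (C(n+1,2) - C(n+1-k,2)) = n - k` (`k ≤ n`). -/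
def T_IMG : Prop := ∀ (K : Type u) [Field K] [Infinite K] (n k : ℕ)
  (W U P : Submodule K (R K n)), Sys K n W → U ≤ Rd K n 1 → Module.finrank K U = k →
  P ≤ Rd K n 1 * U →
  Module.finrank K P + n ≤ Module.finrank K (W ⊔ P : Submodule K (R K n)) + k

/-- CST. The cost of a linear form `l`. PROOF. Choose a basis `y_0, ..., y_u` of `U` and `z_i ∈ R_1`
with `x y_i - l z_i ∈ W`. T_MIN (`k = u + 1`): if `∑ c_i z_i = μ ∑ c_i y_i = μ y` then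
`(x - μ l) y ∈ W`, so `y = 0` (`x - μ l ≠ 0`) and `c = 0`. So the span `P` of the
`p_ij = z_i y_j - z_j y_i`, `i < j`, has dimension `C(u+1,2)`; `P ≤ R_1 U`; and `P ≤ ql l W`:
`l p_ij = (l z_i) y_j - (l z_j) y_i ≡ x y_i y_j - x y_j y_i = 0` modulo `R_1 W`. Also `W ≤ ql l W`.
T_IMG: `C(u+1,2) + n ≤ dim (W ⊔ P) + u + 1`, and `C(u+1,2) = C(u,2) + u`. -/
def T_CST : Prop := ∀ (K : Type u) [Field K] [IsAlgClosed K] (n u : ℕ)
  (W : Submodule K (R K n)), Sys K n W → NRs W → ∀ l ∈ Rd K n 1, ∀ x ∈ Rd K n 1,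
  LinearIndependent K ![l, x] → ∀ U : Submodule K (R K n), U ≤ Rd K n 1 →
  Module.finrank K U = u + 1 → (∀ y ∈ U, ∃ z ∈ Rd K n 1, x * y - l * z ∈ W) →
  n + u.choose 2 ≤ Module.finrank K (ql l W) + 1

/-- One step with rank `ρ`. -/
def Stp {K : Type u} [Field K] {n : ℕ} (W : Submodule K (R K (n + 1))) (ρ : ℕ) : Prop :=
  ∃ W' : Submodule K (R K n), Sys K n W' ∧ hh W = hh W' + ρ ∧ tt W + ρ ≤ tt W' + hh W ∧
    ((soc W' = ⊥ ∧ tt W ≤ tt W' + ρ.choose 2 ∧ (ρ + 1 ≤ n → tt W + ρ + 1 ≤ tt W' + hh W)) ∨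
      tt W ≤ tt W' + (ρ - 1).choose 2)

/-- RDS. Reducible quadrics. PROOF. `κ (l) = dim (kl l W)`. `S` = the `l ∈ R_1`, `l ≠ 0`, with
`κ (l) ≥ 1`; nonempty since `W` is not `NRs`; `κ (l) ≤ n` for `l ≠ 0` since `soc W = ⊥`. Let `κ` be
the maximum of `κ (l)` on `S`, `ρ = n + 1 - κ`. For `l ∈ S` with `κ (l) = κ`, T_EL2 gives `θ`,
`W' = W.map θ`, `hh W = hh W' + ρ`, `tt W = tt W' + cost`, `cost = dim R_2 - dim (ql l W)`.
COMMON: for `0 ≠ u ∈ kl l W`: `u ∈ S` (`l ∈ kl u W`), so `κ (u) ≤ κ`; `W ⊔ u R_1 ≤ ql l W`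
(`l (u y) = y (l u)`) and `dim (W ⊔ u R_1) = dim W + (n + 1) - κ (u) ≥ dim W + ρ` (compare
`Pool/Agent/EGN/P_STP.lean`), so `cost ≤ hh W - ρ`.
CASE (ii): for some `l ∈ S` with `κ (l) = κ` there is `z ∈ R_1`, `z ∉ K l`, with
`z R_1 ⊆ W + l R_1`. (a) Suppose that for some `y ∈ kl l W` there is `m ∈ R_1` with
`z y - l m ∈ W`, `m ∉ kl l W`. Then `R_1 m ⊆ ql l W`: for `y' ∈ R_1`, `z y' - l m' ∈ W`, and modulo
`R_1 W`: `l m y' ≡ z y y' ≡ l m' y = m' (l y) ≡ 0`. Also `R_1 (kl l W) ⊆ ql l W`. So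
`dim soc (ql l W) ≥ κ + 1`; `Sys (ql l W)` (it contains `W`); `p_SOQ`:
`cost = hh (ql l W) ≤ C(n + 1 - (κ + 1), 2) = C(ρ - 1, 2)`. (b) Otherwise `z y ∈ W` for all
`y ∈ kl l W` (`z y - l m ∈ W` with `m ∈ kl l W`). T_EGV with `E = R_1`, `E' = R / W`, `L y = [l y]`,
`Z y = [z y]`: there are `λ` and `y ∉ kl l W` with `(z - λ l) y ∈ W`. `z - λ l ≠ 0`, and
`kl (z - λ l) W` contains `kl l W` and `y`: `κ (z - λ l) > κ`, a contradiction.
CASE (i): not (ii). Take any `l ∈ S` with `κ (l) = κ`. `soc W' = ⊥`: a nonzero element of `soc W'` is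
`θ z`, `z ∉ K l`, `z R_1 ⊆ W + l R_1`. `cost ≤ C(ρ, 2)`: `kl l W ≤ soc (ql l W)` and `p_SOQ`. Let
`ρ + 1 ≤ n`, that is `κ ≥ 2`: take `u ≠ 0` in `kl l W`. If `κ (u) < κ` then
`dim (W ⊔ u R_1) ≥ dim W + ρ + 1`. If `κ (u) = κ` take `u2 ∈ kl l W`, `u2 ∉ K u`: by (not ii) for
`u`, `u2 R_1` is not contained in `W ⊔ u R_1`, so `dim (W ⊔ u R_1 ⊔ u2 R_1) ≥ dim W + ρ + 1`. -/
def T_RDS : Prop := ∀ (K : Type u) [Field K] [IsAlgClosed K] (n : ℕ)
  (W : Submodule K (R K (n + 1))), Sys K (n + 1) W → soc W = ⊥ → ¬ NRs W →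
  ∃ l ∈ Rd K (n + 1) 1, l ≠ 0 ∧ ∃ ρ, 1 ≤ ρ ∧ ρ ≤ n ∧
    Module.finrank K (kl l W) + ρ = n + 1 ∧ Stp W ρ

/-- NRB. PROOF. As `p_PRD` (`Pool/Agent/EGS/P_PRD.lean`): choose `c = hh W` linear functionals `λ_k`
on the polynomial ring whose common kernel in `R_2` is `W`; `b i j k = λ_k (X_i X_j)`. By `NRs`,
`∑ b i j k x_i y_j = 0` for all `k` only if `x = 0` or `y = 0`; `p_BLN` and `p_BLC` (`p = q = n`)
give `n + n ≤ c + 1`. -/
def T_NRB : Prop := ∀ (K : Type u) [Field K] [IsAlgClosed K] (n : ℕ) (W : Submodule K (R K n)),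
  1 ≤ n → W ≤ Rd K n 2 → NRs W → 2 * n ≤ hh W + 1

/-! ## C. Quadrics of rank at most four -/

/-- The coefficient of `X_i X_j` in `l a + y b`. -/
def cfq {A : Type u} [CommRing A] {n : ℕ} (l a y b : Fin n → A) (i j : Fin n) : A :=
  if i = j then l i * a i + y i * b i else l i * a j + l j * a i + (y i * b j + y j * b i)

/-- A linear functional on quadrics. -/
def fnl {K A : Type u} [Field K] [CommRing A] [Algebra K A] {n : ℕ} (lam : Fin n → Fin n → K)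
    (q : Fin n → Fin n → A) : A :=
  ∑ i, ∑ j, if i ≤ j then lam i j • q i j else 0

/-- No nonzero `l a + y b` is killed by all functionals `lam k`. -/
def Tri {K : Type u} [Field K] {n c : ℕ} (lam : Fin c → Fin n → Fin n → K) (A : Type u)
    [CommRing A] [Algebra K A] : Prop :=
  ∀ l a y b : Fin n → A, (∀ k, fnl (lam k) (cfq l a y b) = 0) → ∀ i j, cfq l a y b i j = 0

/-- VAL. PROOF. Write `Q i j = cfq l a y b i j`. CASE 1: all `D i j = l_i y_j - l_j y_i` are zero. If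
`l = y = 0` then `Q = 0`, take zeros. Otherwise `(l, y) = (α w, β w)` for a vector `w ≠ 0` and
`α, β ∈ F` (`w = l` or `w = y`), and `l a + y b = w a1`, `a1 = α a + β b`. Choose `i` with
`w_k / w_i ∈ V` for all `k` (a maximal element of the finite set of values of the valuation), replace
`w` by `w / w_i` and `a1` by `w_i a1`: `w_i = 1`, `w ∈ V^n`, `a1_i = Q i i ∈ V`,
`a1_k = Q i k - w_k a1_i ∈ V`. Take `l' = w`, `a' = a1`, `y' = b' = 0`. CASE 2: choose `i, j` with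
`D i j ≠ 0` and `D p q / D i j ∈ V` for all `p, q`. `l'_k = D k j / D i j`, `y'_k = D i k / D i j`:
in `V`, `l'_i = 1`, `l'_j = 0`, `y'_i = 0`, `y'_j = 1`, `l = l_i l' + l_j y'`, `y = y_i l' + y_j y'`
(check). So `l a + y b = l' a1 + y' b1` with `a1 = l_i a + y_i b`, `b1 = l_j a + y_j b`. Put
`a' = a1 + (b1_i) y'`, `b' = b1 - (b1_i) l'`: again `l a + y b = l' a' + y' b'`, and `b'_i = 0`. Then
`a'_i = Q i i`, `a'_k = Q i k - l'_k a'_i` (`k ≠ i`), `b'_j = Q j j`,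
`b'_k = Q j k - l'_k a'_j - y'_k b'_j` (`k ≠ j`) are in `V`. -/
def T_VAL : Prop := ∀ (F : Type u) [Field F] (V : ValuationSubring F) (n : ℕ)
  (l a y b : Fin n → F), (∀ i j, cfq l a y b i j ∈ V) →
  ∃ l' a' y' b' : Fin n → V, ∀ i j, ((cfq l' a' y' b' i j : V) : F) = cfq l a y b i j

/-- TRF. PROOF. `S = MvPolynomial (Fin 4 × Fin n) K`, generic `l i = X (0, i)`, `a i = X (1, i)`,
`y i = X (2, i)`, `b i = X (3, i)`; `I` the ideal generated by the `fnl (lam k) (cfq l a y b)`. By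
`Tri lam K` the element `cfq l a y b i j` vanishes on the zero locus of `I`; by the Nullstellensatz
(`MvPolynomial.vanishingIdeal_zeroLocus_eq_radical`, see `Pool/Agent/EGS/P_BLN.lean`) a power of it
is in `I`. Apply the evaluation `S → k` at the given point. -/
def T_TRF : Prop := ∀ (K : Type u) [Field K] [IsAlgClosed K] (k : Type u) [Field k] [Algebra K k]
  (n c : ℕ) (lam : Fin c → Fin n → Fin n → K), Tri lam K → Tri lam k

/-- INQ. PROOF. `B` = the set of the `fnl (lam k) (cfq l a y b)` and of the elements of `K` in `F`.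
By `iInf_valuationSubring_superset` (Mathlib, `RingTheory/Valuation/LocalSubring`) it is enough to
show `Q i j = cfq l a y b i j ∈ V` for every valuation subring `V ⊇ B` of `F`. Suppose not. Choose
`(i0, j0)` with `Q i j / Q i0 j0 ∈ V` for all `i, j`; `t = 1 / Q i0 j0` is a nonunit of `V`. T_VAL for
`t l, a, t y, b` (`cfq (t l) a (t y) b = t Q`) gives `l', a', y', b'` over `V`. Reduce modulo the
maximal ideal, `k` = residue field, a field extension of `K`: all `fnl (lam κ)` vanish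
(`t fnl (lam κ) Q` is in the maximal ideal), but the coefficient `(i0, j0)` is `1`: against `Tri lam k`
(T_TRF). -/
def T_INQ : Prop := ∀ (K : Type u) [Field K] [IsAlgClosed K] (F : Type u) [Field F] [Algebra K F]
  (n c : ℕ) (lam : Fin c → Fin n → Fin n → K), Tri lam K → ∀ (l a y b : Fin n → F) (i j : Fin n),
  IsIntegral (Algebra.adjoin K (Set.range fun k => fnl (lam k) (cfq l a y b)))
    (cfq l a y b i j)

/-- ALG. PROOF. Number the variables `0, 1, 2, ...`; `l i = X (0, i)` and so on, `i0, i1, i2, i3` the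
first four indices. Use a lexicographic monomial order with `l i0 > a i1 > y i2 > b i3 >` all other
variables (for instance the linear order on `Fin 4 × Fin n` by a suitable injection into `ℕ`, or
weights `2, 2, 1, 1` and `0`). The leading monomials are: `l_0 a_j` for `Q 0 j` (all `j`); `l_j a_1`
for `Q 1 j`, `j ≥ 1`; `y_2 b_j` for `Q 2 j`, `j ≥ 2`; `y_j b_3` for `Q 3 j`, `j ≥ 3` (the other
monomials of `Q 0 j` do not contain `l_0`, those of `Q 1 j` contain neither `l_0` nor `a_1`, and so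
on); all coefficients are `1`. The exponent vector `e` of `∏ lead (Q s) ^ α_s` determines `α`:
`α_(0,j) = e (a_j)` for `j ≠ 1`, `α_(1,j) = e (l_j)` for `j ≥ 1`, `α_(0,1) = e (l_0) - ∑_{j ≠ 1} e (a_j)`,
`α_(2,j) = e (b_j)` for `j ≥ 2`, `j ≠ 3`, `α_(3,j) = e (y_j)` for `j ≥ 3`,
`α_(2,3) = e (y_2) - ∑_{j ≥ 2, j ≠ 3} e (b_j)`. So the monomials in the `Q s` have distinct leading
monomials and are linearly independent. (With weights: if `f (Q) = 0`, take the component of the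
largest weighted degree `d` of `f`, the variable `s` having the weight of `lead (Q s)`: it is
`f_d (lead Q)`, so `f_d (lead Q) = 0` and `f_d = 0`.) -/
def T_ALG : Prop := ∀ (K : Type u) [Field K] (n : ℕ), 4 ≤ n →
  AlgebraicIndependent K (fun p : {p : Fin n × Fin n // p.1 ≤ p.2 ∧ (p.1 : ℕ) < 4} =>
    cfq (fun i => (X (0, i) : MvPolynomial (Fin 4 × Fin n) K)) (fun i => X (1, i))
      (fun i => X (2, i)) (fun i => X (3, i)) p.1.1 p.1.2)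

/-- QUA. PROOF. Choose `c = hh W` functionals `λ_k` on the polynomial ring with common kernel `W` in
`R_2`, `lam k i j = λ_k (X_i X_j)`. If the claim is false then `Tri lam K` (`l = ∑ l_i X_i` and so on,
`l a + y b = ∑_{i ≤ j} cfq l a y b i j X_i X_j`). Take `F` = the fraction field of
`MvPolynomial (Fin 4 × Fin n) K` and the generic `l, a, y, b`: by T_INQ all `cfq i j` are integral
over the algebra generated by `c` elements, by T_ALG `4 n - 6` of them are algebraically independent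
(`n + (n-1) + (n-2) + (n-3)` pairs). So `4 n - 6 ≤ c` (transcendence degree; compare the end of
`Pool/Agent/EGS/P_BLC.lean`: `Algebra.IsAlgebraic.trdeg_le_cardinalMk` for the algebra generated by
all `cfq i j`). -/
def T_QUA : Prop := ∀ (K : Type u) [Field K] [IsAlgClosed K] (n : ℕ) (W : Submodule K (R K n)),
  4 ≤ n → W ≤ Rd K n 2 → hh W + 7 ≤ 4 * n →
  ∃ l ∈ Rd K n 1, ∃ a ∈ Rd K n 1, ∃ y ∈ Rd K n 1, ∃ b ∈ Rd K n 1,
    l * a + y * b ∈ W ∧ l * a + y * b ≠ 0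

/-- NRS. PROOF. `N = n + 2`. By T_NRB `2 N ≤ hh W + 1`. CHOICE of `l ≠ 0`: if `4 N < hh W + 8` any
`l`; otherwise (`hh W + 8 ≤ 4 N`; `N ≥ 4`, since `hh W ≤ C(N,2)` by `p_GBQ`) T_QUA gives
`l a + y b ∈ W`, `≠ 0`; by `NRs` `l ≠ 0` and `y, b ∉ K l` (otherwise `l a + y b` is a product, see
below), take this `l`. T_EL2: `θ`, `W' = W.map θ`; `kl l W = ⊥` by `NRs`, so `hh W = hh W' + N`;
`W ≤ ql l W`, so `tt W ≤ tt W' + hh W`. `soc W' = ⊥` by T_NSO: a nonzero element is `θ z`, `z ∈ R_1`,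
and for `y ∈ R_1` there is `w ∈ W` with `θ (z y - w) = 0`, so `z y - w = l m`. If `NRs W'` and
`4 N < hh W + 8` we are done. If `hh W + 8 ≤ 4 N` then `W'` is not `NRs`: `θ y θ b ∈ W'`, and
`θ y ≠ 0`, `θ b ≠ 0` (if `y = c l` then `l a + y b = l (a + c b)`, so `a + c b = 0` by `NRs` and
`l a + y b = 0`; the same for `b`). If `W'` is not `NRs`: T_RDS for `W'` gives `x' ≠ 0`, `ρ`,
`dim (kl x' W') = n + 1 - ρ = u`, `Stp W' ρ`. Let `x' = θ x`, `x ∈ R_1`; `l, x` are independent.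
`U = {y ∈ R_1 : θ y ∈ kl x' W'}` has dimension `u + 1` (`θ : R_1 → R_1` surjective with kernel `K l`),
and for `y ∈ U` there is `z ∈ R_1` with `x y - l z ∈ W`. T_CST: `N + C(u,2) ≤ dim (ql l W) + 1`, and
`tt W + dim (ql l W) = tt W' + C(N+1,2)` (T_URK), `C(N+1,2) = C(N,2) + N`. -/
def T_NRS : Prop := ∀ (K : Type u) [Field K] [IsAlgClosed K] (n : ℕ)
  (W : Submodule K (R K (n + 2))), Sys K (n + 2) W → NRs W →
  ∃ W' : Submodule K (R K (n + 1)), Sys K (n + 1) W' ∧ soc W' = ⊥ ∧ hh W = hh W' + (n + 2) ∧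
    tt W ≤ tt W' + hh W ∧
    ((NRs W' ∧ 4 * (n + 2) < hh W + 8) ∨
      ∃ ρ, 1 ≤ ρ ∧ ρ ≤ n ∧ Stp W' ρ ∧
        tt W + (n + 1 - ρ).choose 2 ≤ tt W' + (n + 2).choose 2 + 1)

/-! ## D. The numbers -/

/-- `C(n,2)`, computable. -/
def c2 (n : ℕ) : ℕ := n * (n - 1) / 2

/-- Bounds: `T` (all systems), `U` (`soc = ⊥`, many variables, monotone), `E`, `G`, `H`
(`soc = ⊥`; `n = m`, `n = m + 1`, `n ≥ m + 2`, where `m` is the least number with `h ≤ C(m,2)`),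
`A`, `B` (`NRs`; `n = m`, `n = m + 1`). -/
structure Tb where
  T : ℕ → ℕ
  U : ℕ → ℕ
  E : ℕ → ℕ
  G : ℕ → ℕ
  H : ℕ → ℕ
  A : ℕ → ℕ
  B : ℕ → ℕ

/-- The bound for `soc = ⊥` and `n` variables. -/
def Tb.ns (t : Tb) (n h : ℕ) : ℕ :=
  if c2 (n - 1) < h then t.E h else if c2 (n - 2) < h then t.G h else t.H h

/-- The bound for `NRs` and `n` variables. -/
def Tb.nr (t : Tb) (n h : ℕ) : ℕ :=
  if c2 (n - 1) < h then t.A h else if c2 (n - 2) < h then t.B h else t.H h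

/-- The bound after one step of rank `r`. -/
def Tb.rd (t : Tb) (n h r : ℕ) : ℕ :=
  max (if h - r ≤ c2 (n - 1) then
      min (c2 r) (h - r - (if r + 2 ≤ n then 1 else 0)) + t.ns (n - 1) (h - r) else 0)
    (min (c2 (r - 1)) (h - r) + t.T (h - r))

/-- `X` is a bound for `NRs` systems. -/
def Tb.nrc (t : Tb) (n h X : ℕ) : Prop :=
  2 * n ≤ h + 1 → (4 * n < h + 8 → h + t.nr (n - 1) (h - n) ≤ X) ∧
    ∀ r, 1 ≤ r → r + 2 ≤ n → r ≤ h - n →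
      min h (c2 n + 1 - c2 (n - 1 - r)) + t.rd (n - 1) (h - n) r ≤ X

/-- Closure properties up to `H0`. -/
structure Tb.Cl (t : Tb) (H0 : ℕ) : Prop where
  mT : ∀ h, h < H0 → t.T h ≤ t.T (h + 1)
  mU : ∀ h, h < H0 → t.U h ≤ t.U (h + 1)
  lT : ∀ h, h ≤ H0 → t.E h ≤ t.T h ∧ t.G h ≤ t.T h ∧ t.H h ≤ t.T h
  lU : ∀ h, h ≤ H0 → t.G h ≤ t.U h ∧ t.H h ≤ t.U h
  cE : ∀ n h, 2 ≤ n → h ≤ H0 → c2 (n - 1) < h → h ≤ c2 n →
    n.choose 3 ≤ t.E h + g n (c2 n - h) ∨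
      (t.A h ≤ t.E h ∧ ∀ r, 1 ≤ r → r + 1 ≤ n → r ≤ h → t.rd n h r ≤ t.E h)
  cA : ∀ n h, 2 ≤ n → h ≤ H0 → c2 (n - 1) < h → h ≤ c2 n →
    n.choose 3 ≤ t.A h + g n (c2 n - h) ∨ t.nrc n h (t.A h)
  cG : ∀ n h, 3 ≤ n → h ≤ H0 → c2 (n - 2) < h → h ≤ c2 (n - 1) →
    t.B h ≤ t.G h ∧ ∀ r, 1 ≤ r → r + 1 ≤ n → r ≤ h → t.rd n h r ≤ t.G h
  cB : ∀ n h, 3 ≤ n → h ≤ H0 → c2 (n - 2) < h → h ≤ c2 (n - 1) → t.nrc n h (t.B h)
  cH : ∀ m h, 2 ≤ m → h ≤ H0 → c2 (m - 1) < h → h ≤ c2 m →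
    (2 * (m + 2) ≤ h + 1 → h + t.U (h - (m + 2)) ≤ t.H h) ∧
    (∀ r, 1 ≤ r → r ≤ m → r ≤ h →
      min (c2 r) (h - r - 1) + max (t.G (h - r)) (t.H (h - r)) ≤ t.H h ∧
      min (c2 (r - 1)) (h - r) + t.T (h - r) ≤ t.H h) ∧
    (m + 1 ≤ h → h - (m + 1) + t.T (h - (m + 1)) ≤ t.H h)

/-- IN2. PROOF. Fix `K`. By strong induction on `n`, for all `W` with `Sys K n W` and
`h = hh W ≤ H0`: (a) `tt W ≤ T h`; (b) if `soc W = ⊥` then `tt W ≤ ns n h`; (c) if `soc W = ⊥` and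
`NRs W` then `tt W ≤ nr n h`. `h ≤ C(n,2) = c2 n` (`p_GBQ`). If `h = 0` then `W = R_2`, `tt W = 0`
(`R_3 = R_1 R_2`). (a) T_SCL and (b) (for `m ≤ n` variables) and `lT`. Let `soc W = ⊥`, `h ≥ 1`; then
`n ≥ 2`. STEP: if `W` is not `NRs`, T_RDS gives `Stp W ρ`, `1 ≤ ρ ≤ n - 1`: `W'` in `n - 1` variables,
`hh W' = h - ρ ≤ c2 (n-1)`; in the first case `tt W' ≤ ns (n-1) (h-ρ)` by (b), in the second
`tt W' ≤ T (h-ρ)` by (a): `tt W ≤ rd n h ρ` (`p.choose 2 = c2 p`; if `ρ + 2 ≤ n` and `h = ρ` then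
`tt W + 1 ≤ tt W'`). If `NRs W`, T_NRS (`n = n'' + 2`) gives `W'` in `n - 1` variables with
`hh W' = h - n`, `2 n ≤ h + 1` (T_NRB); either `NRs W'` and `tt W ≤ h + nr (n-1) (h-n)` by (c), or
`Stp W' ρ`, `tt W' ≤ rd (n-1) (h-n) ρ` as above, and
`tt W ≤ tt W' + min h (c2 n + 1 - c2 (n-1-ρ))`. STATES. (1) `c2 (n-1) < h`: if the first alternative
of `cE` (`cA`) holds, use `p_GBQ`; otherwise the second one and STEP. (2) `c2 (n-2) < h ≤ c2 (n-1)`: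
`n ≥ 3`, `cG`, `cB`. (3) `h ≤ c2 (n-2)`: `m` the least number with `h ≤ c2 m` (`mm`), `2 ≤ m ≤ n - 2`;
in the step `W'` has `n - 1 ≥ m + 1` variables and `hh W' ≤ h`, so `c2 (n-2) ≥ h ≥ hh W'` and
`ns (n-1) (hh W')` is `G` or `H` of `hh W'`. NRs: `tt W ≤ h + U (h-n) ≤ h + U (h-(m+2)) ≤ H h`
(`lU`, `mU`). Not NRs: `ρ ≤ m`: second part of `cH` (`ρ + 2 ≤ n`); `ρ ≥ m + 1`:
`tt W ≤ tt W' + h - ρ ≤ T (h-ρ) + h - ρ ≤ T (h-(m+1)) + h - (m+1) ≤ H h` (`lT`, `mT`). -/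
def T_IN2 : Prop := ∀ (t : Tb) (H0 : ℕ), t.Cl H0 → ∀ (K : Type u) [Field K] [IsAlgClosed K]
  (n : ℕ) (W : Submodule K (R K n)), Sys K n W → hh W ≤ H0 → tt W ≤ t.T (hh W)

/-- The bound (times `8`) for `h = C(m,2) - r`, `m` large. -/
def Psi2 (m r : ℕ) : ℤ := 8 * (m.choose 3 : ℤ) - max (qA m r) (qB m r)

/-- The bound (times `8`), from a table up to `1830 = C(61,2)`. -/
def F2 (t : ℕ → ℕ) (h : ℕ) : ℤ :=
  if h ≤ 1830 then 8 * (t h : ℤ) else Psi2 (mm h) ((mm h).choose 2 - h)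

/-- Properties of the table. -/
def Tbl (t : ℕ → ℕ) : Prop :=
  (∀ h, h < 1830 → t h ≤ t (h + 1)) ∧
  (∀ m r : ℕ, 60 ≤ m → m ≤ 61 → r + 1 ≤ m → 8 * (t (m.choose 2 - r) : ℤ) ≤ Psi2 m r) ∧
  ∀ m : ℕ, m ≤ 61 → t (m.choose 2) ≤ m.choose 3

/-- TAB. The table. -/
def T_TAB : Prop := ∃ t : Tb, t.Cl 1830 ∧ Tbl t.T

/-- XEX. As T_EXT of EGN (`Pool/Agent/EGN/P_EXT.lean`), without the constant `236`, for `m ≥ 60`.
PROOF. `mm h = m` if `C(m-1,2) < h ≤ C(m,2)`. Second part: `m ≤ 61`: `Tbl`; `m ≥ 62`, `r ≤ m - 2`: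
equality; `r = m - 1`: `C(m,2) - r = C(m-1,2)` and
`Psi2 m (m-1) = 8 C(m-1,3) = Psi2 (m-1) 0` (`qB m (m-1) = 4 (m-1)(m-2) ≥ qA m (m-1)`), for `m = 62`
use `Tbl`. Monotonicity: inside a block `qA`, `qB` increase with `r`; between blocks
`F2 (C(m-1,2)) ≤ Psi2 m (m-1) ≤ Psi2 m (m-2)`. -/
def T_XEX : Prop := ∀ t : ℕ → ℕ, Tbl t →
  (∀ m r : ℕ, 62 ≤ m → r ≤ m - 2 → F2 t (m.choose 2 - r) = Psi2 m r) ∧
  (∀ m r : ℕ, 60 ≤ m → r ≤ m - 1 → F2 t (m.choose 2 - r) ≤ Psi2 m r) ∧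
  Monotone (F2 t)

/-- XC2. As T_C2 of EGN (`Pool/Agent/EGN/P_C2.lean`) for `m ≥ 62`; the constant `236` cancels
there. Only the blocks `m` and `m - 1 ≥ 61` occur. -/
def T_XC2 : Prop := ∀ t : ℕ → ℕ, Tbl t → ∀ h r : ℕ, 1830 < h → 1 ≤ r → r ≤ h →
  8 * ((min (r.choose 2) (h - r) : ℕ) : ℤ) + F2 t (h - r) ≤ F2 t h

/-- XC1. As T_C1 of EGN (`Pool/Agent/EGN/P_C1.lean`) for `m ≥ 62`; the constant `236` cancels
there. Only the blocks `m`, `m - 1`, `m - 2 ≥ 60` occur. -/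
def T_XC1 : Prop := ∀ t : ℕ → ℕ, Tbl t → ∀ m h : ℕ, 1830 < h → (m - 1).choose 2 < h →
  h ≤ m.choose 2 → 8 * (h : ℤ) + F2 t (h - (m + 1)) ≤ F2 t h

/-- XC0. As T_C0 of EGN (`Pool/Agent/EGN/P_C0.lean`) for `m ≥ 62`. PROOF. `h = C(m,2) - r`, `m ≥ 62`,
`r ≤ m - 2`. If `qA m r ≤ qB m r`: second alternative as in P_C0. If `qB m r < qA m r`: first
alternative, `qA m r ≤ 8 g m r`: `g m r = r (m-1-r)` if `2 r ≤ m`, and then
`8 g - qA = r (4 m - 7 r - 10) ≥ 0` iff `7 r ≤ 4 m - 10`, true for `2 r ≤ m`, `m ≥ 20`; if `2 r ≥ m` then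
`4 g m r ≥ (m-1)^2 - 1`, and `(2 m - 6) r ≤ m^2 + 4 m - 6` bounds `qA m r = r (4 m - r + 2)`; checked
for all `62 ≤ m ≤ 300`. For `m` large this is a polynomial inequality (`r ≤ m/2 + 4` or so), for the
remaining `m` check by `decide`. -/
def T_XC0 : Prop := ∀ t : ℕ → ℕ, Tbl t → ∀ m h : ℕ, 1830 < h → (m - 1).choose 2 < h →
  h ≤ m.choose 2 →
    8 * ((m.choose 3 : ℤ) - (g m (m.choose 2 - h) : ℤ)) ≤ F2 t h ∨
      (m ≤ h → 8 * (h : ℤ) + F2 t (h - m) ≤ F2 t h)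

/-- IN3. PROOF. As `p_IND` (`Pool/Agent/EGN/P_IND.lean`): induction on `n`; if `hh W ≤ H0` use the
hypothesis; otherwise the step of `p_STP p_ELM (p_SOQ p_ELM)` and the closure properties. -/
def T_IN3 : Prop := ∀ (F : ℕ → ℤ) (H0 : ℕ), 0 ≤ F 0 → Monotone F →
  (∀ h r : ℕ, H0 < h → 1 ≤ r → r ≤ h →
    8 * ((min (r.choose 2) (h - r) : ℕ) : ℤ) + F (h - r) ≤ F h) →
  (∀ m h : ℕ, H0 < h → 2 ≤ m → (m - 1).choose 2 < h → h ≤ m.choose 2 → m + 1 ≤ h →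
    8 * (h : ℤ) + F (h - (m + 1)) ≤ F h) →
  (∀ m h : ℕ, H0 < h → 2 ≤ m → (m - 1).choose 2 < h → h ≤ m.choose 2 →
    8 * ((m.choose 3 : ℤ) - (g m (m.choose 2 - h) : ℤ)) ≤ F h ∨
      (m ≤ h → 8 * (h : ℤ) + F (h - m) ≤ F h)) →
  ∀ (K : Type u) [Field K] [Infinite K],
    (∀ (n : ℕ) (W : Submodule K (R K n)), Sys K n W → hh W ≤ H0 → 8 * (tt W : ℤ) ≤ F (hh W)) →
    ∀ (n : ℕ) (W : Submodule K (R K n)), Sys K n W → 8 * (tt W : ℤ) ≤ F (hh W)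

end

end Pool.Agent.EGN.B
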